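import Pool.Agent.H.MP_1611f1_gt.TR.Basic

/-!
Cyclic words with one face.
-/

namespace Pool.Agent.H.MP_1611f1_gt.TR

open Topology Set Filter

/-- A cyclic word `w` (of length `2 N`, `N` = the number of the strips `e ∈ K`), in which every letter
`(e, true)`, `(e, false)` occurs exactly once. The last condition says that there is one face only: with the
moves from a sector `a` to the sector `b` behind the one with the letter inverse to the letter of `a`, one gets
from every sector to every other one. -/
structure IsWord {K : Type*} (w : ℤ → K × Bool) : Prop where
  per : ∀ i, w (i + 2 * Nat.card K) = w i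
  inj : ∀ i j, w i = w j → (2 * Nat.card K : ℤ) ∣ i - j
  surj : ∀ x, ∃ i, w i = x
  face : ∀ i j : ℤ, Relation.ReflTransGen (fun a b => w (b - 1) = bar (w a)) i j

end Pool.Agent.H.MP_1611f1_gt.TR
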