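import Pool.Agent.H.MP_1611f1_gt.G2.GenDefs
import Pool.Agent.H.MP_1611f1_gt.TR.Word

/-!
Surfaces with one end, cut by strips, and families of curves crossing one strip each, which meet
each other in the pattern of a forest.
-/

namespace Pool.Agent.H.MP_1611f1_gt.TR

open Topology Set Filter

/-- A surface with arcs (strips) `e ∈ K` whose word `w` at the end has one face, see `IsWord`, and for every
strip `e` an annulus `ν e` in the surface (coordinates `θ` along the core, `u` across), outside of the
collar, which crosses only the strip `e`, in a product structure: `f e` is the lift to `ℝ` of the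
collapse map along the curve, and its degree, the algebraic number of crossings, is not zero. The
annuli meet each other in the pattern of a forest: with respect to the ranking `rank`, every annulus
meets at most one annulus of smaller rank. -/
structure Forest (S : Type*) [TopologicalSpace S] (J K : Type*) where
  E : Surf S J
  w : ℤ → K × Bool
  word : IsWord w
  A : G2.Arcs E (fun _ => 2 * Nat.card K) (fun _ i => some (w i))
  ν : K → AddCircle (1 : ℝ) × ℝ → S
  emb : ∀ e, IsOpenEmbedding (ν e)
  out : ∀ e z j w, ν e z ≠ E.collar j w
  other : ∀ e e' z, e' ≠ e → A.kap e' (ν e z) = 0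
  f : K → ℝ → ℝ
  f_cont : ∀ e, Continuous (f e)
  deg : K → ℤ
  deg_ne : ∀ e, deg e ≠ 0
  f_add : ∀ e θ, f e (θ + 1) = f e θ + deg e
  cross : ∀ e (θ u : ℝ), A.kap e (ν e ((θ : AddCircle (1 : ℝ)), u)) =
    ((f e θ : ℝ) : AddCircle (1 : ℝ))
  rank : K → ℕ
  rank_inj : Function.Injective rank
  forest : ∀ e f g x y x' y', ν e x = ν f y → ν e x' = ν g y' → rank f < rank e →
    rank g < rank e → f = g

end Pool.Agent.H.MP_1611f1_gt.TR
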