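import Pool.Agent.H.MP_1611f1_gt.TR.CombA

/-!
Cutting the word at two adjacent linked letters.
-/

namespace Pool.Agent.H.MP_1611f1_gt.TR

open Topology Set Filter

variable {K : Type*} {w : ℤ → K × Bool}

/-- a chain condition on an interval of indices -/
theorem CombB_chain {r : ℕ → ℕ → Prop} (s n : ℕ)
    (h : ∀ t, s ≤ t → t + 1 < s + n → r t (t + 1)) : (List.range' s n).IsChain r := by
  induction n generalizing s with
  | zero => simp
  | succ n ih =>
    cases n with
    | zero => simp
    | succ n =>
      rw [List.range'_succ, List.range'_succ, List.isChain_cons_cons]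
      refine ⟨h s le_rfl (by omega), ?_⟩
      rw [← List.range'_succ]
      exact ih (s + 1) fun t h1 h2 => h t (by omega) (by omega)

theorem CombB_last {s n x : ℕ} (h : x ∈ (List.range' s n).getLast?) : 0 < n ∧ x = s + n - 1 := by
  rw [List.getLast?_range'] at h
  split_ifs at h with h0
  · simp at h
  · have h1 : s + n - 1 = x := by simpa using h
    exact ⟨by omega, h1.symm⟩

theorem CombB_head {s n x : ℕ} (h : x ∈ (List.range' s n).head?) : 0 < n ∧ x = s := by
  rw [List.head?_range'] at h
  split_ifs at h with h0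
  · simp at h
  · have h1 : s = x := by simpa using h
    exact ⟨by omega, h1.symm⟩

/-- the chain condition on the three intervals -/
theorem CombB_three {r : ℕ → ℕ → Prop} {s₁ n₁ s₂ n₂ s₃ n₃ : ℕ}
    (h1 : ∀ t, s₁ ≤ t → t + 1 < s₁ + n₁ → r t (t + 1))
    (h2 : ∀ t, s₂ ≤ t → t + 1 < s₂ + n₂ → r t (t + 1))
    (h3 : ∀ t, s₃ ≤ t → t + 1 < s₃ + n₃ → r t (t + 1))
    (h12 : 0 < n₁ → 0 < n₂ → r (s₁ + n₁ - 1) s₂)
    (h23 : 0 < n₂ → 0 < n₃ → r (s₂ + n₂ - 1) s₃)
    (h13 : 0 < n₁ → n₂ = 0 → 0 < n₃ → r (s₁ + n₁ - 1) s₃) :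
    (List.range' s₁ n₁ ++ List.range' s₂ n₂ ++ List.range' s₃ n₃).IsChain r := by
  rw [List.isChain_append, List.isChain_append]
  refine ⟨⟨CombB_chain _ _ h1, CombB_chain _ _ h2, ?_⟩, CombB_chain _ _ h3, ?_⟩
  · intro x hx y hy
    obtain ⟨a1, rfl⟩ := CombB_last hx
    obtain ⟨b1, rfl⟩ := CombB_head hy
    exact h12 a1 b1
  · intro x hx y hy
    obtain ⟨b1, rfl⟩ := CombB_head hy
    rw [List.getLast?_append] at hx
    rcases Nat.eq_zero_or_pos n₂ with h0 | h0
    · subst h0
      have hx' : x ∈ (List.range' s₁ n₁).getLast? := by simpa using hx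
      obtain ⟨a1, rfl⟩ := CombB_last hx'
      exact h13 a1 rfl b1
    · have hx' : x ∈ (List.range' s₂ n₂).getLast? := by
        rw [List.getLast?_range', if_neg (by omega)] at hx ⊢
        simpa using hx
      obtain ⟨a1, rfl⟩ := CombB_last hx'
      exact h23 a1 b1

/-- THE CUT. PROOF: `exists_chord`: `i`, `d`, `q`. `i₀ = i`, `j = w i`, `k = w (i + 1)`; write `L a b` for the list
`w (i + a), w (i + a + 1), ..., w (i + b - 1)` (`(List.range' a (b - a)).map fun t => w (i + t)`, or
`(List.range (b - a)).map fun t => w (i + (a + t))`); `Q = L 2 d`, `R = L (d + 1) q`, `S = L (q + 1) (2 N)`. The whole word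
`L 0 (2 N)` is `j :: k :: (Q ++ bar j :: (R ++ bar k :: S))` (append formula for `L a b ++ L b c`). The positions
`t = 0, ..., 2 N - 1` carry every letter exactly once (`eq_iff`), and the positions in `R`, `Q`, `S` are those different from
`0, 1, d, q`, which carry the letters with the strips `j.1 ≠ k.1` (`k ≠ j` by `eq_iff`, `k ≠ bar j` by `no_turn`). So
`R ++ Q ++ S` has no repetitions and consists of the letters with strips `≠ j.1, k.1`.
`n` from `exists_n` for `j`. CHAIN: let `n₁ y = n (bar y)`. For a position `t ≠ d` : `n (w (i + t + 1)) = n (bar (w (i + t))) + 1`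
(*). Inside of `R`, of `Q`, of `S` two consecutive letters are `w (i+t)`, `w (i+t+1)` with `t ≠ d`: use (*). From the last letter
`y` of `R` to the first letter `z` of `Q`: `n (bar k) = n (bar y) + 1` ((*) at the position before `q`), `n z = n (bar k) + 1`
((*) at the position `1`). From the last letter `y` of `Q` to the first letter `z` of `S`: `n (bar j) = n (bar y) + 1`,
`n k = n (bar j) + 1` ((*) at the position `0`), `n z = n (bar (bar k)) + 1 = n k + 1` ((*) at the position `q`). If `Q` is empty
(`d = 2`), from the last letter `y` of `R` to the first letter `z` of `S`: `n (bar k) = n (bar y) + 1`,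
`n (bar j) = n (bar k) + 1` ((*) at the position `1`, `d = 2`), `n k = n (bar j) + 1`, `n z = n k + 1`. (Lean:
`List.isChain_append` or `List.IsChain.append`; `List.isChain_map`, `List.isChain_range`.) -/
theorem exists_cut [Finite K] (hw : IsWord w) (hN : 2 ≤ Nat.card K) :
    ∃ (i₀ : ℤ) (j k : K × Bool) (Q R S : List (K × Bool)) (n : K × Bool → ℕ), j.1 ≠ k.1 ∧
      (List.range (2 * Nat.card K)).map (fun t : ℕ => w (i₀ + t)) =
        j :: k :: (Q ++ bar j :: (R ++ bar k :: S)) ∧
      (R ++ Q ++ S).Nodup ∧ (∀ x, x ∈ R ++ Q ++ S ↔ x.1 ≠ j.1 ∧ x.1 ≠ k.1) ∧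
      Function.Injective n ∧ (∀ x, n x < 2 * Nat.card K) ∧
      (R ++ Q ++ S).IsChain (fun y z => n (bar y) < n z) := by
  obtain ⟨i, d, q, hd2, hdq, hqM, hd, hq⟩ := exists_chord hw hN
  obtain ⟨M, hM⟩ : ∃ M : ℕ, M = 2 * Nat.card K := ⟨_, rfl⟩
  rw [← hM] at hqM
  obtain ⟨v, hv⟩ : ∃ v : ℕ → K × Bool, v = fun t : ℕ => w (i + t) := ⟨_, rfl⟩
  have hv' : ∀ t : ℕ, v t = w (i + t) := fun t => by rw [hv]
  have hMc : (2 * Nat.card K : ℤ) = (M : ℤ) := by
    rw [hM]
    push_cast
    ring
  have v0 : v 0 = w i := by
    rw [hv']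
    simp
  have v1 : v 1 = w (i + 1) := by
    rw [hv']
    simp
  have vd : v d = bar (v 0) := by rw [hv', v0, hd]
  have vq : v q = bar (v 1) := by rw [hv', v1, hq]
  have vinj : ∀ s t : ℕ, s < M → t < M → v s = v t → s = t := by
    intro s t hs ht h
    rw [hv', hv', hw.eq_iff, hMc] at h
    obtain ⟨c, hc⟩ := h
    have h1 : (s : ℤ) - t = M * c := by linarith
    have hc0 : c = 0 := by
      have h2 : (M : ℤ) * c < M * 1 := by
        rw [← h1]
        have : (s : ℤ) < M := by exact_mod_cast hs
        have h4 : (0 : ℤ) ≤ t := Int.natCast_nonneg t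
        linarith
      have h3 : (M : ℤ) * (-1) < M * c := by
        rw [← h1]
        have : (t : ℤ) < M := by exact_mod_cast ht
        have h4 : (0 : ℤ) ≤ s := Int.natCast_nonneg s
        linarith
      have hMpos : (0 : ℤ) < M := by
        have : 0 < M := by omega
        exact_mod_cast this
      have h5 := lt_of_mul_lt_mul_left h2 hMpos.le
      have h6 := lt_of_mul_lt_mul_left h3 hMpos.le
      omega
    rw [hc0, mul_zero] at h1
    have : (s : ℤ) = t := by linarith
    exact_mod_cast this
  have vsurj : ∀ x, ∃ t, t < M ∧ v t = x := by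
    intro x
    obtain ⟨a, ha⟩ := hw.surj x
    have hMpos : (0 : ℤ) < M := by
      have : 0 < M := by omega
      exact_mod_cast this
    have h1 : 0 ≤ (a - i) % M := Int.emod_nonneg _ hMpos.ne'
    have h2 : (a - i) % M < M := Int.emod_lt_of_pos _ hMpos
    obtain ⟨t, ht⟩ := Int.eq_ofNat_of_zero_le h1
    refine ⟨t, ?_, ?_⟩
    · rw [ht] at h2
      exact_mod_cast h2
    · rw [hv', ← ht, ← ha, hw.eq_iff, hMc]
      refine ⟨-((a - i) / M), ?_⟩
      have h3 := Int.emod_add_mul_ediv (a - i) M
      linarith
  obtain ⟨n, ninj, nlt, nstep⟩ := exists_n hw (v 0)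
  have step : ∀ t : ℕ, t < M → t ≠ d → n (v (t + 1)) = n (bar (v t)) + 1 := by
    intro t ht htd
    have h1 : v t ≠ bar (v 0) := by
      rw [← vd]
      intro h
      exact htd (vinj t d ht (by omega) h)
    have h2 := nstep (i + t) (by rwa [← hv'])
    rw [hv', hv', ← h2]
    congr 2
    push_cast
    ring
  have hjk : (v 0).1 ≠ (v 1).1 := by
    intro h
    rcases eq_or_bar h with h1 | h1
    · exact absurd (vinj 0 1 (by omega) (by omega) h1) (by norm_num)
    · have h2 := hw.no_turn hN i
      rw [← v0, ← v1, h1, bar_bar] at h2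
      exact h2 rfl
  have hmem : ∀ t : ℕ, t ∈ List.range' (d + 1) (q - d - 1) ++ List.range' 2 (d - 2) ++
      List.range' (q + 1) (M - q - 1) ↔ t < M ∧ t ≠ 0 ∧ t ≠ 1 ∧ t ≠ d ∧ t ≠ q := by
    intro t
    simp only [List.mem_append, List.mem_range'_1]
    omega
  have hmap : List.map v (List.range' (d + 1) (q - d - 1)) ++ List.map v (List.range' 2 (d - 2)) ++
      List.map v (List.range' (q + 1) (M - q - 1)) =
      List.map v (List.range' (d + 1) (q - d - 1) ++ List.range' 2 (d - 2) ++
        List.range' (q + 1) (M - q - 1)) := by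
    rw [List.map_append, List.map_append]
  refine ⟨i, v 0, v 1, (List.range' 2 (d - 2)).map v, (List.range' (d + 1) (q - d - 1)).map v,
    (List.range' (q + 1) (M - q - 1)).map v, n, hjk, ?_, ?_, ?_, ninj, nlt, ?_⟩
  · rw [← hM, ← hv, List.range_eq_range', ← vd, ← vq]
    have e1 : List.range' 0 M = 0 :: 1 :: (List.range' 2 (d - 2) ++ d ::
        (List.range' (d + 1) (q - d - 1) ++ q :: List.range' (q + 1) (M - q - 1))) := by
      have a1 : q :: List.range' (q + 1) (M - q - 1) = List.range' q (M - q) := by
        rw [show M - q = (M - q - 1) + 1 by omega, List.range'_succ]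
        rfl
      have a2 : List.range' (d + 1) (q - d - 1) ++ List.range' q (M - q) =
          List.range' (d + 1) (M - d - 1) := by
        have := @List.range'_append_1 (d + 1) (q - d - 1) (M - q)
        rw [show d + 1 + (q - d - 1) = q by omega,
          show q - d - 1 + (M - q) = M - d - 1 by omega] at this
        exact this
      have a3 : d :: List.range' (d + 1) (M - d - 1) = List.range' d (M - d) := by
        rw [show M - d = (M - d - 1) + 1 by omega, List.range'_succ]
        rfl
      have a4 : List.range' 2 (d - 2) ++ List.range' d (M - d) = List.range' 2 (M - 2) := by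
        have := @List.range'_append_1 2 (d - 2) (M - d)
        rw [show 2 + (d - 2) = d by omega, show d - 2 + (M - d) = M - 2 by omega] at this
        exact this
      rw [a1, a2, a3, a4, show M = (M - 2) + 1 + 1 by omega, List.range'_succ, List.range'_succ]
      rfl
    rw [e1]
    simp only [List.map_cons, List.map_append]
  · rw [hmap]
    refine List.Nodup.map_on ?_ ?_
    · intro x hx y hy h
      exact vinj x y ((hmem x).1 hx).1 ((hmem y).1 hy).1 h
    · rw [List.nodup_append, List.nodup_append]
      refine ⟨⟨List.nodup_range' 1, List.nodup_range' 1, ?_⟩, List.nodup_range' 1, ?_⟩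
      · intro a ha b hb
        rw [List.mem_range'_1] at ha hb
        omega
      · intro a ha b hb
        rw [List.mem_append, List.mem_range'_1, List.mem_range'_1] at ha
        rw [List.mem_range'_1] at hb
        omega
  · intro x
    rw [hmap, List.mem_map]
    constructor
    · rintro ⟨t, ht, rfl⟩
      obtain ⟨t1, t2, t3, t4, t5⟩ := (hmem t).1 ht
      constructor
      · intro h
        rcases eq_or_bar h with h1 | h1
        · exact t2 (vinj t 0 t1 (by omega) h1)
        · rw [← vd] at h1
          exact t4 (vinj t d t1 (by omega) h1)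
      · intro h
        rcases eq_or_bar h with h1 | h1
        · exact t3 (vinj t 1 t1 (by omega) h1)
        · rw [← vq] at h1
          exact t5 (vinj t q t1 (by omega) h1)
    · rintro ⟨h1, h2⟩
      obtain ⟨t, ht, rfl⟩ := vsurj x
      refine ⟨t, (hmem t).2 ⟨ht, ?_, ?_, ?_, ?_⟩, rfl⟩
      · rintro rfl
        exact h1 rfl
      · rintro rfl
        exact h2 rfl
      · rintro rfl
        apply h1
        rw [vd, bar_fst]
      · rintro rfl
        apply h2
        rw [vq, bar_fst]
  · rw [hmap, List.isChain_map]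
    have s0 : n (v 1) = n (bar (v 0)) + 1 := step 0 (by omega) (by omega)
    have s1 : n (v 2) = n (bar (v 1)) + 1 := step 1 (by omega) (by omega)
    have sq := step q hqM (by omega)
    rw [vq, bar_bar] at sq
    rw [← vq] at s1
    rw [← vd] at s0
    refine CombB_three ?_ ?_ ?_ ?_ ?_ ?_
    · intro t h1 h2
      rw [step t (by omega) (by omega)]
      exact Nat.lt_succ_self _
    · intro t h1 h2
      rw [step t (by omega) (by omega)]
      exact Nat.lt_succ_self _
    · intro t h1 h2
      rw [step t (by omega) (by omega)]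
      exact Nat.lt_succ_self _
    · intro h1 h2
      have h3 := step (q - 1) (by omega) (by omega)
      rw [show q - 1 + 1 = q by omega] at h3
      rw [show d + 1 + (q - d - 1) - 1 = q - 1 by omega]
      show n (bar (v (q - 1))) < n (v 2)
      omega
    · intro h1 h2
      have h3 := step (d - 1) (by omega) (by omega)
      rw [show d - 1 + 1 = d by omega] at h3
      rw [show 2 + (d - 2) - 1 = d - 1 by omega]
      show n (bar (v (d - 1))) < n (v (q + 1))
      omega
    · intro h1 h2 h3
      have h4 := step (q - 1) (by omega) (by omega)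
      rw [show q - 1 + 1 = q by omega] at h4
      rw [show d + 1 + (q - d - 1) - 1 = q - 1 by omega]
      have hd' : d = 2 := by omega
      show n (bar (v (q - 1))) < n (v (q + 1))
      rw [hd'] at s0
      omega

end Pool.Agent.H.MP_1611f1_gt.TR
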