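import Pool.Agent.H.MP_1611f1_gt.TR.One
import Pool.Agent.H.MP_1611f1_gt.TR.CombB
import Pool.Agent.H.MP_1611f1_gt.G2.GenI

/-!
The one-dimensional data of the general module, with hyperbolic fixed points at non-integer times.
-/

namespace Pool.Agent.H.MP_1611f1_gt.TR

open Topology Set Filter
open Pool.Agent.H.MP_1611f1_gt.PB (BL)

theorem Dat_lett {K : Type*} (A : K → ℝ ≃o ℝ) (x : K × Bool) :
    G2.lett A (some x) = sg A x := by
  obtain ⟨e, b⟩ := x
  cases b
  · rfl
  · rfl

/-- the product of the letters along the word is the holonomy of the list. PROOF: induction on `m`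
(`G2.prodDown_succ`, `List.range_succ`, `hol_append`); `lett A (some x) = sg A x`. -/
theorem prodDown_hol {K : Type*} (A : K → ℝ ≃o ℝ) (w : ℤ → K × Bool) (a : ℤ) (m : ℕ) (t : ℝ) :
    G2.prodDown (fun i => G2.lett A (some (w i))) (a - 1) m t =
      hol A ((List.range m).map fun i : ℕ => w (a + i)) t := by
  induction m with
  | zero => rfl
  | succ m ih =>
    rw [G2.prodDown_succ, RelIso.mul_apply, ih, List.range_succ, List.map_append, hol_append]
    have h1 : a - 1 + (m : ℤ) + 1 = a + m := by ring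
    rw [h1]
    exact DFunLike.congr_fun (Dat_lett A (w (a + m))) _

/-- CHANGE OF THE STARTING POINT: if the holonomy once around, starting at the sector `a`, is the translation by
`s`, then it is so for every starting point. PROOF: it is enough to pass from `a` to `a + 1` and to `a - 1`; let
`x i = lett A (some (w i))`, periodic with the period `m`; `prodDown x a m * x a = x (a + m) * prodDown x (a-1) m`
(definition and induction), i.e. `P' = x P x⁻¹`, and `P` is a translation, which commutes with `x` (all maps commute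
with ALL translations? No: only with integer translations - but `P = T_s` and `P' = x T_s x⁻¹`).
ATTENTION: therefore the statement is about the conjugate: `∃ g`, `Per g`, with
`g (prodDown .. (b - 1) m t) = g t + s`. With `g = prodDown`'s inverse between `a` and `b`: for `b ≤ a`, `a = b + l`:
`g = prodDown x (b - 1) l` (the letters `b, ..., a - 1`), `prodDown x (a - 1) m * g = g * prodDown x (b - 1) m`
(both are products of `m + l` letters; the last `l` factors agree by periodicity), so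
`g (prodDown x (b - 1) m t) = prodDown x (a - 1) m (g t) = g t + s`. For every `b` there is `a' ≡ a` mod `m` with
`b ≤ a'`, and the hypothesis holds for `a'` by periodicity. -/
theorem exists_conj_start {K : Type*} {A : K → ℝ ≃o ℝ} (hA : ∀ e, Per (A e)) {w : ℤ → K × Bool}
    {m : ℕ} (hm : 0 < m) (hw : ∀ i, w (i + m) = w i) {s : ℝ} (a : ℤ)
    (h : ∀ t, G2.prodDown (fun i => G2.lett A (some (w i))) (a - 1) m t = t + s) (b : ℤ) :
    ∃ g : ℝ ≃o ℝ, Per g ∧
      ∀ t, g (G2.prodDown (fun i => G2.lett A (some (w i))) (b - 1) m t) = g t + s := by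
  set x : ℤ → ℝ ≃o ℝ := fun i => G2.lett A (some (w i)) with hx
  have hxper : ∀ i, Per (x i) := by
    intro i
    show Per (G2.lett A (some (w i)))
    rw [Dat_lett]
    exact sg_per hA _
  have hxm : ∀ i, x (i + m) = x i := by
    intro i
    show G2.lett A (some (w (i + m))) = G2.lett A (some (w i))
    rw [hw]
  obtain ⟨ψ, hψ0, hψ⟩ := G2.exists_prod x
  have hψper : ∀ i, Per (ψ i) := by
    intro i
    induction i using Int.induction_on with
    | zero => rw [hψ0]; exact Per.refl
    | succ n ih =>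
      have h1 := hψ ((n : ℤ) + 1)
      rw [add_sub_cancel_right] at h1
      rw [h1]
      exact ih.trans (hxper _)
    | pred n ih =>
      have h1 := hψ (-(n : ℤ))
      have h2 : ψ (-(n : ℤ) - 1) = (x (-(n : ℤ)))⁻¹ * ψ (-(n : ℤ)) := by
        rw [h1, inv_mul_cancel_left]
      rw [h2]
      exact ih.trans (hxper _).symm
  have hshift : ∀ i, ψ (i + m) = ψ i * ψ m := by
    intro i
    refine G2.prod_unique (x := x) (ψ := fun i => ψ (i + m)) (χ := fun i => ψ i * ψ m)
      (fun i => ?_) (fun i => ?_) (a := 0) ?_ i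
    · show ψ (i + m) = x i * ψ (i - 1 + m)
      have e : i - 1 + (m : ℤ) = i + m - 1 := by ring
      rw [e, ← hxm i]
      exact hψ (i + m)
    · show ψ i * ψ m = x i * (ψ (i - 1) * ψ m)
      rw [← mul_assoc, ← hψ]
    · show ψ (0 + m) = ψ 0 * ψ m
      rw [hψ0, one_mul, zero_add]
  have hP : ∀ c, G2.prodDown x c m = ψ c * ψ m * (ψ c)⁻¹ := by
    intro c
    rw [eq_mul_inv_iff_mul_eq, ← hshift]
    exact (G2.prod_down hψ c m).symm
  refine ⟨ψ (a - 1) * (ψ (b - 1))⁻¹, ?_, ?_⟩
  · exact (hψper (b - 1)).symm.trans (hψper (a - 1))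
  · intro t
    have h1 : (ψ (a - 1) * (ψ (b - 1))⁻¹) * G2.prodDown x (b - 1) m =
        G2.prodDown x (a - 1) m * (ψ (a - 1) * (ψ (b - 1))⁻¹) := by
      rw [hP, hP]; group
    have h2 : (ψ (a - 1) * (ψ (b - 1))⁻¹) (G2.prodDown x (b - 1) m t) =
        G2.prodDown x (a - 1) m ((ψ (a - 1) * (ψ (b - 1))⁻¹) t) := DFunLike.congr_fun h1 t
    rw [h2]
    exact h _

/-- the affine map `t ↦ T (t + δ)` -/
noncomputable def Dat_aff (T δ : ℝ) (hT : 0 < T) : ℝ ≃o ℝ where
  toFun t := T * (t + δ)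
  invFun t := t / T - δ
  left_inv t := by
    field_simp
    ring
  right_inv t := by
    field_simp
    ring
  map_rel_iff' := by
    intro a b
    simp only [Equiv.coe_fn_mk]
    constructor
    · intro h
      have := le_of_mul_le_mul_left h hT
      linarith
    · intro h
      exact mul_le_mul_of_nonneg_left (by linarith) hT.le

theorem Dat_aff_apply (T δ : ℝ) (hT : 0 < T) (t : ℝ) : Dat_aff T δ hT t = T * (t + δ) := rfl

theorem Dat_aff_inv (T δ : ℝ) (hT : 0 < T) (t : ℝ) : (Dat_aff T δ hT)⁻¹ t = t / T - δ := rfl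

theorem Dat_rep {T δ : ℝ} (hT : 0 < T) {f : ℝ ≃o ℝ} {v : ℝ} (h : Rep f v) :
    Rep (Dat_aff T δ hT * f * (Dat_aff T δ hT)⁻¹) (Dat_aff T δ hT v) := by
  obtain ⟨h1, ε, hε, h2, h3⟩ := h
  have happ : ∀ x, (Dat_aff T δ hT * f * (Dat_aff T δ hT)⁻¹) x = T * (f (x / T - δ) + δ) :=
    fun x => rfl
  refine ⟨?_, T * ε, by positivity, ?_, ?_⟩
  · rw [happ, Dat_aff_apply]
    have e : T * (v + δ) / T - δ = v := by
      field_simp
      ring
    rw [e, h1]
  · intro x hx
    rw [Dat_aff_apply] at hx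
    obtain ⟨hx1, hx2⟩ := hx
    rw [happ]
    have h4 : x / T - δ ∈ Ioo v (v + ε) := by
      constructor
      · rw [lt_sub_iff_add_lt, lt_div_iff₀ hT]; linarith
      · rw [sub_lt_iff_lt_add, div_lt_iff₀ hT]; linarith
    have h5 := h2 _ h4
    have h6 : T * (x / T - δ + δ) = x := by field_simp; ring
    calc x = T * (x / T - δ + δ) := h6.symm
      _ < T * (f (x / T - δ) + δ) := by
        apply mul_lt_mul_of_pos_left _ hT
        linarith
  · intro x hx
    rw [Dat_aff_apply] at hx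
    obtain ⟨hx1, hx2⟩ := hx
    rw [happ]
    have h4 : x / T - δ ∈ Ioo (v - ε) v := by
      constructor
      · rw [lt_sub_iff_add_lt, lt_div_iff₀ hT]; linarith
      · rw [sub_lt_iff_lt_add, div_lt_iff₀ hT]; linarith
    have h5 := h3 _ h4
    have h6 : T * (x / T - δ + δ) = x := by field_simp; ring
    calc T * (f (x / T - δ) + δ) < T * (x / T - δ + δ) := by
          apply mul_lt_mul_of_pos_left _ hT
          linarith
      _ = x := h6

theorem Dat_hyp {T δ : ℝ} (hT : 0 < T) {f : ℝ ≃o ℝ} {v : ℝ} (h : Hyp f v) :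
    Hyp (Dat_aff T δ hT * f * (Dat_aff T δ hT)⁻¹) (Dat_aff T δ hT v) := by
  rcases h with h | h
  · exact Or.inl (Dat_rep hT h)
  · right
    have h1 := Dat_rep (T := T) (δ := δ) hT h
    have h2 : (Dat_aff T δ hT * f * (Dat_aff T δ hT)⁻¹).symm =
        Dat_aff T δ hT * f.symm * (Dat_aff T δ hT)⁻¹ := by
      have h3 : (Dat_aff T δ hT * f * (Dat_aff T δ hT)⁻¹)⁻¹ =
          Dat_aff T δ hT * f⁻¹ * (Dat_aff T δ hT)⁻¹ := by group
      exact h3
    rw [h2]
    exact h1

/-- THE DATA. PROOF: `exists_cut`, `exists_one_sgn` (with `N = Nat.card K`) give `A`, `v`; `hol A (the word from i₀) x = x + s`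
(`prodDown_hol`). `exists_conj_start` with `b = 0`: `g`. SHIFT: choose `δ ∈ (0,1)` with `T (v e + δ) ∉ ℤ` for all `e`
(`exists_avoid` in Sel.lean, applied to the numbers `-v e + i / T`, `0 ≤ i < T`, `e ∈ K`). Put
`iso e t = T (A e (t / T - δ) + δ)` (the conjugate of `A e` by `t ↦ T (t + δ)`), `c e = T (v e + δ)`. `iso e (t + T) = iso e t + T`;
`Hyp (iso e) (c e)` (conjugation with an increasing affine map); `c e ≠ c f + T m`. `th t = T (g (t / T - δ))` is strictly
increasing, continuous, commutes with `+ T`, and `th (prodDown (lett iso ..) (-1) (2 N) t) = th t + s T` (the product of the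
conjugates is the conjugate of the product). `G2.exists_dat` gives the data. -/
theorem exists_tree_dat {K : Type*} [Finite K] {w : ℤ → K × Bool} (hw : IsWord w)
    (hN : 2 ≤ Nat.card K) {s : ℝ} (hs : |s| < Nat.card K - 1) (T : ℕ) (hT : 0 < T) :
    ∃ (iso : K → ℝ ≃o ℝ) (c : K → ℝ)
      (D : G2.Dat (fun _ : Unit => 2 * Nat.card K) (fun _ i => some (w i)) T (fun _ => s)),
      D.iso = iso ∧ (∀ e, Hyp (iso e) (c e)) ∧ (∀ e f, e ≠ f → ∀ m : ℤ, c e ≠ c f + T * m) ∧
      ∀ e, ∀ m : ℤ, c e ≠ m := by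
  classical
  obtain ⟨i₀, j, k, Q, R, S, n, hjk, hlist, hnd, hl, hn, hn2, hch⟩ := exists_cut hw hN
  obtain ⟨A, v, hA, hH, hdis, hrel⟩ := exists_one_sgn j k hjk Q R S hnd hl n hn rfl hn2 hch hs
  have hN0 : 0 < 2 * Nat.card K := by omega
  obtain ⟨g, hg, hgs⟩ := exists_conj_start hA (w := w) hN0 (fun i => by
    have := hw.per i
    push_cast
    exact this) (s := s) i₀ (fun t => by
    rw [prodDown_hol, hlist]
    exact hrel t) 0
  have hT' : (0 : ℝ) < (T : ℝ) := by exact_mod_cast hT
  have : Fintype K := Fintype.ofFinite K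
  obtain ⟨δ, -, hδ⟩ := exists_avoid (a := 0) (b := 1) one_pos
    ((Finset.univ ×ˢ Finset.range T).image fun p : K × ℕ => -v p.1 + (p.2 : ℝ) / T)
  set φ := Dat_aff T δ hT' with hφ
  let iso : K → ℝ ≃o ℝ := fun e => φ * A e * φ⁻¹
  have hφT : ∀ t, φ⁻¹ (t + T) = φ⁻¹ t + 1 := by
    intro t
    rw [hφ, Dat_aff_inv, Dat_aff_inv]
    field_simp
    ring
  have hφ1 : ∀ t, φ (t + 1) = φ t + T := by
    intro t
    rw [hφ, Dat_aff_apply, Dat_aff_apply]
    ring
  have hiso : ∀ e t, iso e (t + T) = iso e t + T := by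
    intro e t
    show φ (A e (φ⁻¹ (t + T))) = φ (A e (φ⁻¹ t)) + T
    rw [hφT, hA, hφ1]
  have hlett : ∀ o : Option (K × Bool), G2.lett iso o = φ * G2.lett A o * φ⁻¹ := by
    intro o
    rcases o with _ | ⟨e, b⟩
    · rw [G2.lett_none, G2.lett_none]; group
    · cases b
      · show (φ * A e * φ⁻¹)⁻¹ = φ * (A e)⁻¹ * φ⁻¹
        group
      · rfl
  have hprod : ∀ (a : ℤ) (m : ℕ), G2.prodDown (fun i => G2.lett iso (some (w i))) a m =
      φ * G2.prodDown (fun i => G2.lett A (some (w i))) a m * φ⁻¹ := by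
    intro a m
    induction m with
    | zero => rw [G2.prodDown_zero, G2.prodDown_zero]; group
    | succ m ih =>
      rw [G2.prodDown_succ, G2.prodDown_succ, ih, hlett]
      group
  let th : ℝ → ℝ := fun t => T * g (φ⁻¹ t)
  obtain ⟨D, hD⟩ := G2.exists_dat (J := Unit) (len := fun _ => 2 * Nat.card K)
    (w := fun _ i => some (w i)) (T := T) (s := fun _ => s) iso hiso
    (fun _ k => by
      have := hw.per k
      show some (w (k + ((2 * Nat.card K : ℕ) : ℤ))) = some (w k)
      push_cast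
      rw [this]) (fun _ => th)
    (fun _ a b hab => by
      show T * g (φ⁻¹ a) < T * g (φ⁻¹ b)
      exact mul_lt_mul_of_pos_left (g.strictMono (φ⁻¹.strictMono hab)) hT')
    (fun _ => by
      show Continuous fun t => T * g (φ⁻¹ t)
      exact continuous_const.mul (g.continuous.comp (φ⁻¹ : ℝ ≃o ℝ).continuous))
    (fun _ t => by
      show T * g (φ⁻¹ (t + T)) = T * g (φ⁻¹ t) + T
      rw [hφT, hg]
      ring)
    (fun _ t => by
      show T * g (φ⁻¹ (G2.prodDown (fun i => G2.lett iso (some (w i))) (-1) (2 * Nat.card K) t)) =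
        T * g (φ⁻¹ t) + s * T
      rw [hprod, RelIso.mul_apply, RelIso.mul_apply]
      have h1 : φ⁻¹ (φ (G2.prodDown (fun i => G2.lett A (some (w i))) (-1) (2 * Nat.card K)
          (φ⁻¹ t))) = G2.prodDown (fun i => G2.lett A (some (w i))) (-1) (2 * Nat.card K)
          (φ⁻¹ t) := φ.symm_apply_apply _
      rw [h1]
      have h2 := hgs (φ⁻¹ t)
      rw [zero_sub] at h2
      rw [h2]
      ring)
  refine ⟨iso, fun e => φ (v e), D, hD, fun e => Dat_hyp hT' (hH e), ?_, ?_⟩
  · intro e f hef m hm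
    apply hdis e f hef m
    have hm' : (T : ℝ) * (v e + δ) = T * (v f + δ) + T * m := hm
    have h1 : (T : ℝ) * (v e + δ) = T * (v f + δ + m) := by rw [hm']; ring
    have h2 := mul_left_cancel₀ hT'.ne' h1
    linarith
  · intro e m hm'
    have hm : (T : ℝ) * (v e + δ) = m := hm'
    have hT0 : (0 : ℤ) < (T : ℤ) := by exact_mod_cast hT
    have h1 : 0 ≤ m % (T : ℤ) := Int.emod_nonneg _ hT0.ne'
    have h2 : m % (T : ℤ) < T := Int.emod_lt_of_pos _ hT0
    have h3 := Int.mul_ediv_add_emod m (T : ℤ)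
    refine hδ (-v e + (((m % (T : ℤ)).toNat : ℕ) : ℝ) / T) ?_ (m / (T : ℤ)) ?_
    · exact Finset.mem_image.2 ⟨(e, (m % (T : ℤ)).toNat), Finset.mem_product.2
        ⟨Finset.mem_univ _, Finset.mem_range.2 (by omega)⟩, rfl⟩
    · have h4 : (((m % (T : ℤ)).toNat : ℕ) : ℝ) = ((m % (T : ℤ) : ℤ) : ℝ) := by
        have : (((m % (T : ℤ)).toNat : ℕ) : ℤ) = m % (T : ℤ) := Int.toNat_of_nonneg h1
        exact_mod_cast congrArg (fun z : ℤ => (z : ℝ)) this
      rw [h4]
      have h5 : ((T : ℝ)) * ((m / (T : ℤ) : ℤ) : ℝ) + ((m % (T : ℤ) : ℤ) : ℝ) = (m : ℝ) := by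
        exact_mod_cast congrArg (fun z : ℤ => (z : ℝ)) h3
      field_simp
      linarith

end Pool.Agent.H.MP_1611f1_gt.TR
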