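import Pool.Agent.H.MP_1611f1_gt.G2.GenH
import Pool.Agent.H.MP_1611f1_gt.LS.Leaf

/-!
The foliation of the general module, with its charts; small distances of finitely many times.
-/

namespace Pool.Agent.H.MP_1611f1_gt.TR

open Topology Set Filter

/-- the foliation of the general module, with its charts. PROOF: copy the proof of `G2.detected` (file G2/GenH.lean) up to
`hlin : G.Linear Tor F (fun j => -s j * T) (fun _ => T)`; then `LS.linear_scale` (file LS/Leaf.lean) with
`κ j = y j / T`. -/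
theorem gen_fol {S : Type*} [TopologicalSpace S] [ConnectedSpace S] {J K : Type*}
    [Finite J] [Nonempty J] [Finite K] {E : Surf S J} {phi : S ≃ₜ S} {len : J → ℕ}
    {w : J → ℤ → Option (K × Bool)} {T : ℕ} {s : J → ℝ} (hT : 2 ≤ T) (hL : ∀ j, 0 < len j)
    (hw : ∀ j k, w j (k + len j) = w j k) {D : G2.Dat len w T s} {A : G2.Arcs E len w}
    (C : G2.Chain D A phi) {M : Type*} [TopologicalSpace M] {Tor : G.Ended M J}
    (Mt : G.MTorus E phi Tor) :
    ∃ F : Foliation M, F.charts = G2.AllCharts (G2.toMTB Mt) C ∧ F.Taut ∧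
      ∀ x y : J → ℝ, (∀ j, 0 < y j) → (∀ j, x j = -s j * y j) → G.Linear Tor F x y := by
  have hT' : (0 : ℝ) < T := by exact_mod_cast G2.tp hT
  obtain ⟨F, hF⟩ := G2.exists_foliation (G2.toMTB Mt) C hT hL hw
  have hTaut : F.Taut := G2.taut (G2.toMTB Mt) C F hT hL hF
  have hlin : G.Linear Tor F (fun j => -s j * T) (fun _ => T) := by
    intro j z hz c hc hs
    rw [hF] at hc
    have hLr : (0 : ℝ) < len j := by exact_mod_cast hL j
    let R : ℝ × Ioo (1 : ℝ) 2 × ℝ → ℝ × Ioo (1 : ℝ) 2 × ℝ := fun w =>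
      (len j * w.1, w.2.1, T * w.2.2)
    have hR : Continuous R := by
      show Continuous fun w : ℝ × Ioo (1 : ℝ) 2 × ℝ =>
        ((len j : ℝ) * w.1, w.2.1, (T : ℝ) * w.2.2)
      fun_prop
    have hQ : ∀ w, Tor.cov j w = G2.QQ (G2.toMTB Mt) len T j (R w) := by
      intro w
      show Tor.tor j (_, w.2.1, _) = Mt.p (E.collar j
        (((len j * w.1 / len j : ℝ) : AddCircle (1 : ℝ)), w.2.1), (T : ℝ) * w.2.2 / T)
      have h1 : (len j : ℝ) * w.1 / len j = w.1 := by field_simp
      have h2 : (T : ℝ) * w.2.2 / T = w.2.2 := by field_simp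
      rw [h1, h2, Mt.tor]
    rw [hQ] at hs
    have h2 := G2.collar_all (G2.toMTB Mt) C hT hL hw hc j hs
    have h3 := OrdEq.comp_cont (R := R) (z₀ := z) hR.continuousAt h2
    have hev : ∀ᶠ w : ℝ × Ioo (1 : ℝ) 2 × ℝ in 𝓝 z, (w.2.1 : ℝ) < 4 / 3 := by
      have h4 : Continuous fun w : ℝ × Ioo (1 : ℝ) 2 × ℝ => (w.2.1 : ℝ) := by fun_prop
      exact h4.continuousAt.eventually_lt_const hz
    refine h3.congr (Eventually.of_forall fun w => ?_) (hev.mono fun w hw => ?_)
    · show (c (Tor.cov j w)).2 = (c (G2.QQ (G2.toMTB Mt) len T j (R w))).2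
      rw [hQ]
    · show -s j * T * w.1 + T * w.2.2 = G2.MR D j (len j * w.1) w.2.1 (T * w.2.2)
      rw [G2.MR_inner _ _ _ _ hw.le]
      field_simp
      ring
  refine ⟨F, hF, hTaut, fun x y hy hx => ?_⟩
  refine LS.linear_scale (κ := fun j => y j / T) hlin (fun j => div_pos (hy j) hT') ?_ ?_
  · intro j
    show x j = y j / T * (-s j * T)
    rw [hx]
    field_simp
  · intro j
    show y j = y j / T * T
    field_simp

/-- the constant chain. PROOF: all `ψ i` are the identity. -/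
theorem const_chain {S : Type*} [TopologicalSpace S] {J K : Type*} {E : Surf S J} {len : J → ℕ}
    {w : J → ℤ → Option (K × Bool)} {T : ℕ} {s : J → ℝ} (D : G2.Dat len w T s)
    (A : G2.Arcs E len w) :
    ∃ C : G2.Chain D A (Homeomorph.refl S), ∀ i, C.ψ i = Homeomorph.refl S := by
  exact ⟨{ ψ := fun _ => Homeomorph.refl S
           per := fun _ => rfl
           col := fun _ _ _ => rfl
           step := fun _ _ => Or.inr fun _ => rfl }, fun _ => rfl⟩

theorem Fol_min {ι : Type*} [Finite ι] (f : ι → ℝ) (hf : ∀ i, 0 < f i) :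
    ∃ κ > 0, ∀ i, κ ≤ f i := by
  rcases isEmpty_or_nonempty ι with h | h
  · exact ⟨1, one_pos, fun i => isEmptyElim i⟩
  · obtain ⟨i, hi⟩ := Finite.exists_min f
    exact ⟨f i, hf i, hi⟩

theorem Fol_fract (x : ℝ) (m : ℤ) : min (Int.fract x) (1 - Int.fract x) ≤ |x + m| := by
  have h0 := Int.fract_nonneg x
  have h1 := Int.fract_lt_one x
  have e : x + m = ((⌊x⌋ + m : ℤ) : ℝ) + Int.fract x := by
    push_cast
    have := Int.floor_add_fract x
    linarith
  rw [e]
  rcases le_or_gt 0 (⌊x⌋ + m) with h | h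
  · have h2 : (0 : ℝ) ≤ ((⌊x⌋ + m : ℤ) : ℝ) := by exact_mod_cast h
    refine (min_le_left _ _).trans ?_
    rw [abs_of_nonneg (by linarith)]
    linarith
  · have h2 : ⌊x⌋ + m ≤ -1 := by omega
    have h3 : ((⌊x⌋ + m : ℤ) : ℝ) ≤ -1 := by exact_mod_cast h2
    refine (min_le_right _ _).trans ?_
    rw [abs_of_neg (by linarith)]
    linarith

/-- A SMALL DISTANCE. PROOF: `K` is finite (`Finite.exists_min`-type arguments, or take the minimum over a finite set): for each
`k` choose `κ k > 0` with `⌊c k⌋ < c k - κ k`, `c k + κ k < ⌊c k⌋ + 1`; for each pair `k ≠ l` the numbers `|c k - c l + T m|`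
(`m ∈ ℤ`) are positive and bounded below by a positive number (they are `≥ 1` except for finitely many `m`; or: with
`x = (c k - c l) / T` one has `|x + m| ≥ min (fract x) (1 - fract x) > 0` for all `m`). Take the minimum of all. -/
theorem exists_kap {K : Type*} [Finite K] {T : ℕ} (hT : 0 < T) (c : K → ℝ)
    (hc : ∀ k, ∀ m : ℤ, c k ≠ m) (hd : ∀ k l, k ≠ l → ∀ m : ℤ, c k ≠ c l + T * m) :
    ∃ κ > 0, (∀ k, (⌊c k⌋ : ℝ) < c k - κ ∧ c k + κ < ⌊c k⌋ + 1) ∧
      ∀ k l, k ≠ l → ∀ m : ℤ, κ ≤ |c k - c l + T * m| := by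
  classical
  have hT' : (0 : ℝ) < T := by exact_mod_cast hT
  have hf : ∀ k, 0 < min (Int.fract (c k)) (1 - Int.fract (c k)) := fun k =>
    lt_min (Int.fract_pos.2 (hc k _)) (by linarith [Int.fract_lt_one (c k)])
  obtain ⟨κ₁, hκ₁, h1⟩ := Fol_min (fun k => min (Int.fract (c k)) (1 - Int.fract (c k)) / 2)
    fun k => by
      have := hf k
      positivity
  obtain ⟨κ₂, hκ₂, h2⟩ := Fol_min (fun q : K × K => if q.1 = q.2 then (1 : ℝ) else
      T * min (Int.fract ((c q.1 - c q.2) / T)) (1 - Int.fract ((c q.1 - c q.2) / T))) (by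
    rintro ⟨k, l⟩
    by_cases hkl : k = l
    · rw [if_pos (show ((k, l) : K × K).1 = ((k, l) : K × K).2 from hkl)]
      exact one_pos
    · rw [if_neg (show ¬ ((k, l) : K × K).1 = ((k, l) : K × K).2 from hkl)]
      refine mul_pos hT' (lt_min (Int.fract_pos.2 fun h => ?_) ?_)
      · refine hd k l hkl ⌊(c k - c l) / T⌋ ?_
        have h' : (c k - c l) / T = (⌊(c k - c l) / T⌋ : ℝ) := h
        rw [← h']
        field_simp
        ring
      · linarith [Int.fract_lt_one ((c k - c l) / (T : ℝ))])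
  refine ⟨min κ₁ κ₂, lt_min hκ₁ hκ₂, fun k => ?_, fun k l hkl m => ?_⟩
  · have h3 := (min_le_left κ₁ κ₂).trans (h1 k)
    have h4 := hf k
    have h5 := min_le_left (Int.fract (c k)) (1 - Int.fract (c k))
    have h6 := min_le_right (Int.fract (c k)) (1 - Int.fract (c k))
    have h7 := Int.floor_add_fract (c k)
    have h3' : min κ₁ κ₂ ≤ min (Int.fract (c k)) (1 - Int.fract (c k)) / 2 := h3
    constructor <;> linarith
  · have h3 := (min_le_right κ₁ κ₂).trans (h2 (k, l))
    have h3' : min κ₁ κ₂ ≤ T * min (Int.fract ((c k - c l) / T))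
        (1 - Int.fract ((c k - c l) / T)) := by
      simpa [hkl] using h3
    refine h3'.trans ((mul_le_mul_of_nonneg_left (Fol_fract _ m) hT'.le).trans (le_of_eq ?_))
    have e : c k - c l + T * m = T * ((c k - c l) / T + m) := by
      field_simp
    rw [e, abs_mul, abs_of_pos hT']

end Pool.Agent.H.MP_1611f1_gt.TR
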