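import Pool.Agent.H.MP_1611f1_gt.TR.LevB

/-!
The holonomy of a level curve crossing one strip.
-/

namespace Pool.Agent.H.MP_1611f1_gt.TR

open Topology Set Filter
open Pool.Agent.H.MP_1611f1_gt.LS

section

variable {S : Type*} [TopologicalSpace S] {J K : Type*} {E : Surf S J} {len : J → ℕ}
  {w : J → ℤ → Option (K × Bool)} {T : ℕ} {s : J → ℝ} {D : G2.Dat len w T s} {A : G2.Arcs E len w}
  {phi : S ≃ₜ S} {C : G2.Chain D A phi} {Y : Type*} [TopologicalSpace Y]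

/-- the local transverse function along the curve, compared with `GG`. PROOF. Case `b = none`: `‖kap e‖ < 1/4` at
`g z`, so `|f z.1 - m| < 1/4` for `m = round (f z.1)` (`UnitAddCircle.norm_eq`), and for `w` near `z`: `GG_near`; `Fa none x t = t`,
so `GG A (f w.1) t = (A ^ (-m)) (Fa ..)`. Case `b = some e`: `kap e ≠ 0` at `g z`, `lft` of it is `Int.fract (f z.1) ≠ 0`
(`LvD_lft`), so `f z.1` is in `(m, m + 1)` for `m = ⌊f z.1⌋`, also for `w` near `z`, and `Fa (some e) x t = Fe A (fract (f w.1)) t`,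
`GG A (f w.1) t = (A ^ (-m)) (Fe A (Int.fract (f w.1)) t)`. (See `LG.lcv_side`, file LG/Lev.lean, for the same case
distinction.) -/
theorem lvc_side {e : K} {f : ℝ → ℝ} (hf : Continuous f) {g : Cov → S}
    (hg : ∀ w, A.kap e (g w) = ((f w.1 : ℝ) : AddCircle (1 : ℝ))) {b : Option K}
    (hb : b = none ∨ b = some e) {z : Cov} (hz : g z ∈ G2.VV A b) :
    ∃ m : ℤ, ∀ᶠ w : Cov in 𝓝 z, ∀ t,
      GG (D.iso e) (f w.1) t = ((D.iso e) ^ (-m)) (G2.Fa D A b (g w) t) := by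
  have hf' : Continuous (fun w : Cov => f w.1) := hf.comp continuous_fst
  rcases hb with rfl | rfl
  · have h1 : ‖A.kap e (g z)‖ < 1 / 4 := hz e
    rw [hg, UnitAddCircle.norm_eq] at h1
    refine ⟨round (f z.1), ?_⟩
    have h2 : ∀ᶠ w : Cov in 𝓝 z, |f w.1 - round (f z.1)| < 1 / 4 := by
      have hc : Continuous (fun w : Cov => |f w.1 - round (f z.1)|) :=
        (hf'.sub continuous_const).abs
      exact hc.continuousAt.eventually (isOpen_Iio.mem_nhds h1)
    filter_upwards [h2] with w hw2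
    intro t
    exact GG_near (D.iso e) (round (f z.1)) hw2.le t
  · have h1 : A.kap e (g z) ≠ 0 := hz
    rw [hg] at h1
    have h2 : Int.fract (f z.1) ≠ 0 := by
      intro h0
      apply h1
      have h3 := coe_lft ((f z.1 : ℝ) : AddCircle (1 : ℝ))
      rw [LvD_lft, h0] at h3
      rw [← h3]
      rfl
    have h3 : 0 < Int.fract (f z.1) := lt_of_le_of_ne (Int.fract_nonneg _) (Ne.symm h2)
    refine ⟨⌊f z.1⌋, ?_⟩
    have h4 : ∀ᶠ w : Cov in 𝓝 z, f w.1 ∈ Ioo (⌊f z.1⌋ : ℝ) (⌊f z.1⌋ + 1) := by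
      refine hf'.continuousAt.eventually (isOpen_Ioo.mem_nhds ⟨?_, Int.lt_floor_add_one _⟩)
      have h5 := Int.floor_add_fract (f z.1)
      linarith
    filter_upwards [h4] with w hw4
    intro t
    have hfl : ⌊f w.1⌋ = ⌊f z.1⌋ := Int.floor_eq_iff.2 ⟨hw4.1.le, hw4.2⟩
    show ((D.iso e) ^ (-⌊f w.1⌋)) (Fe (D.iso e) (Int.fract (f w.1)) t) =
      ((D.iso e) ^ (-⌊f z.1⌋)) (Fe (D.iso e) (lft (A.kap e (g w))) t)
    rw [hg, LvD_lft, hfl]

/-- **Level curves have a hyperbolic holonomy.** PROOF: copy `LG.lcw_hol` (file LG/LevB.lean), with `δ = 1`,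
`Γ (θ, s) = GG (D.iso e) (f θ) (c + κ * tim s) - c`, and the homeomorphism `h z = ((D.iso e) ^ (-deg)) (z + c) - c` (the order
isomorphism `(OrderIso.addRight c).trans (((D.iso e) ^ (-deg)).trans (OrderIso.addRight (-c)))`). Continuity: `GG_cont`,
`tim_cont`; monotonicity: `GG_mono`, `tim_mono`; zero: `tim 0 = 0` (`tim_mid`), `GG_fix`, `lc.hyp.fix`; period: `lc.f_add`, `GG_add`;
order: `lvc_chart`, `G2.Fs_ge` (the time `c + κ tim s` is `> i`), `lvc_side` (`GG` is the increasing function `A ^ (-m)` of the local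
function; subtract `c`), `OrdEq.of_comp`; movement: `exists_move` with `m = -deg`. -/
theorem lvc_hol [Finite J] [Finite K] (hT : 2 ≤ T) (lc : LvC C) (Fl : G2.MTB E phi Y)
    {F : Foliation Y} (hF : F.charts = G2.AllCharts Fl C) {κ : ℝ} (hκ : 0 < κ)
    (h1 : (lc.i : ℝ) < lc.c - κ) (h2 : lc.c + κ < lc.i + 1) {x : ℝ} (hx : x ≠ 0) :
    HolSgn F (lc.nbh Fl κ) x := by
  have hemb : IsOpenEmbedding (lc.nbh Fl κ) := lvc_emb hT lc Fl hκ h1 h2
  have htim0 : tim 0 = 0 := by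
    rw [tim_mid (by norm_num) le_rfl, zero_div]
  refine ⟨hemb, 1, fun p => GG (D.iso lc.e) (lc.f p.1) (lc.c + κ * tim p.2) - lc.c,
    (OrderIso.addRight lc.c).trans (((D.iso lc.e) ^ (-lc.deg)).trans (OrderIso.addRight (-lc.c))),
    ⟨one_pos, ?_, ?_, ?_, ?_, ?_⟩, ?_⟩
  · refine Continuous.continuousOn ?_
    refine Continuous.sub ?_ continuous_const
    exact (GG_cont (D.iso lc.e)).comp ((lc.f_cont.comp continuous_fst).prodMk
      (continuous_const.add (continuous_const.mul (tim_cont.comp continuous_snd))))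
  · intro θ a _ b _ hab
    have h3 : lc.c + κ * tim a < lc.c + κ * tim b :=
      add_lt_add_right (mul_lt_mul_of_pos_left (tim_mono hab) hκ) _
    exact sub_lt_sub_right (GG_mono (D.iso lc.e) (lc.f θ) h3) _
  · intro θ
    show GG (D.iso lc.e) (lc.f θ) (lc.c + κ * tim 0) - lc.c = 0
    rw [htim0, mul_zero, add_zero, GG_fix lc.hyp.fix, sub_self]
  · intro θ s _
    show GG (D.iso lc.e) (lc.f (θ + 1)) (lc.c + κ * tim s) - lc.c =
      ((D.iso lc.e) ^ (-lc.deg)) (GG (D.iso lc.e) (lc.f θ) (lc.c + κ * tim s) - lc.c + lc.c) +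
        -lc.c
    rw [lc.f_add, GG_add, sub_add_cancel, sub_eq_add_neg]
  · intro z _ c₁ hc₁ hs₁
    obtain ⟨c, hc, hs, a, b, hab, hb, hDz, hev⟩ := lvc_chart hT lc Fl hF hκ h1 h2 z
    obtain ⟨m, hm⟩ := lvc_side (D := D) (A := A) lc.f_cont
      (g := fun w => C.ψ lc.i (lc.ν ((w.1 : AddCircle (1 : ℝ)), w.2.1)))
      (fun w => lc.cross _ _) hb (z := z) hDz
    have h3 : OrdEq (rc (lc.nbh Fl κ) z) (fun y => (c₁ y).2) (fun y => (c y).2) :=
      F.compat c₁ hc₁ c hc _ hs₁ hs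
    have h4 : OrdEq z (fun w => (c₁ (rc (lc.nbh Fl κ) w)).2)
        (fun w => (c (rc (lc.nbh Fl κ) w)).2) :=
      OrdEq.comp_cont (R := rc (lc.nbh Fl κ)) (rc_cont hemb).continuousAt h3
    refine h4.trans ?_
    refine OrdEq.of_comp (fun x : ℝ => ((D.iso lc.e) ^ (-m)) x - lc.c)
      (fun x y hxy => sub_lt_sub_right (((D.iso lc.e) ^ (-m)).strictMono hxy) _) ?_
    filter_upwards [hev, hm] with w hw1 hwm
    have h5 := lvc_tim (c := lc.c) hκ w.2.2
    rw [hw1.2, G2.Fs_ge C hab hw1.1 (by linarith [h5.1])]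
    show GG (D.iso lc.e) (lc.f w.1) (lc.c + κ * tim w.2.2) - lc.c = _
    rw [hwm]
  · intro ε hε
    obtain ⟨z, hz1, hz2⟩ := exists_move lc.hyp (m := -lc.deg) (neg_ne_zero.2 lc.deg_ne) hx hε
    refine ⟨z, hz1, ?_⟩
    show 0 < x * (((D.iso lc.e) ^ (-lc.deg)) (z + lc.c) + -lc.c - z)
    rw [← sub_eq_add_neg]
    exact hz2

end

end Pool.Agent.H.MP_1611f1_gt.TR
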