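import Mathlib

/-!
Lifts of points of the circle along a forest.
-/

namespace Pool.Agent.H.MP_1611f1_gt.TR

open Topology Set Filter

/-- PROOF: `n = ⌊a - b⌋`-like: with `x = b - a`, `n = -⌊x⌋`: `a < b + n < a + 1` because `Int.fract (b - a)` is in `(0, 1)`
(it is not `0`, since `b ≠ a + m`). -/
theorem exists_lift_one {a b : ℝ} (h : ∀ m : ℤ, b ≠ a + m) :
    ∃ n : ℤ, a < b + n ∧ b + n < a + 1 := by
  refine ⟨-⌊b - a⌋, ?_, ?_⟩
  · have h1 : (⌊b - a⌋ : ℝ) ≤ b - a := Int.floor_le _
    have h2 : b ≠ a + ⌊b - a⌋ := h _
    push_cast
    rcases lt_or_eq_of_le h1 with h3 | h3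
    · linarith
    · exact absurd (by linarith) h2
  · have h1 : b - a < ⌊b - a⌋ + 1 := Int.lt_floor_add_one _
    push_cast
    linarith

/-- LIFTS ALONG A FOREST. PROOF: by induction on `N : ℕ` prove: there are `n m` with the property for all `e` with
`rank e < N` (then take `N` larger than all ranks, `K` is finite). Step: there is at most one `e₀` with `rank e₀ = N`
(`rank_inj`). If there is one, and there is `f` with `meet e₀ f`, `rank f < N` (it is unique by `forest`), change `n e₀` and
`m e₀` (`Function.update`) to the integers of `exists_lift_one` for `a = v f + n f`, `b = v e₀` and `a = t f + m f`, `b = t e₀`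
(`hv`, `ht`, with integers moved to the other side). The property for the `e` with `rank e < N` involves only ranks `< N`, so it
is not changed. -/
theorem exists_lifts {K : Type*} [Finite K] (rank : K → ℕ) (rank_inj : Function.Injective rank)
    (meet : K → K → Prop)
    (forest : ∀ e f g, meet e f → meet e g → rank f < rank e → rank g < rank e → f = g)
    (v t : K → ℝ) (hv : ∀ e f, e ≠ f → meet e f → ∀ m : ℤ, v e ≠ v f + m)
    (ht : ∀ e f, e ≠ f → meet e f → ∀ m : ℤ, t e ≠ t f + m) :
    ∃ n m : K → ℤ, ∀ e f, meet e f → rank f < rank e →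
      v f + n f < v e + n e ∧ v e + n e < v f + n f + 1 ∧
      t f + m f < t e + m e ∧ t e + m e < t f + m f + 1 := by
  classical
  have main : ∀ N : ℕ, ∃ n m : K → ℤ, ∀ e f, meet e f → rank f < rank e → rank e < N →
      v f + n f < v e + n e ∧ v e + n e < v f + n f + 1 ∧
      t f + m f < t e + m e ∧ t e + m e < t f + m f + 1 := by
    intro N
    induction N with
    | zero => exact ⟨0, 0, fun e f _ _ h => absurd h (Nat.not_lt_zero _)⟩
    | succ N ih =>
      obtain ⟨n, m, hnm⟩ := ih
      by_cases h0 : ∃ e f, meet e f ∧ rank f < rank e ∧ rank e = N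
      · obtain ⟨e₀, f₀, hm, hr, hN⟩ := h0
        have hne : e₀ ≠ f₀ := by
          intro h
          rw [h] at hr
          exact lt_irrefl _ hr
        obtain ⟨n₀, hn1, hn2⟩ := exists_lift_one (a := v f₀ + n f₀) (b := v e₀) (by
          intro k hk
          refine hv e₀ f₀ hne hm (n f₀ + k) ?_
          push_cast
          linarith)
        obtain ⟨m₀, hm1, hm2⟩ := exists_lift_one (a := t f₀ + m f₀) (b := t e₀) (by
          intro k hk
          refine ht e₀ f₀ hne hm (m f₀ + k) ?_
          push_cast
          linarith)
        refine ⟨Function.update n e₀ n₀, Function.update m e₀ m₀, ?_⟩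
        intro e f hef hrf hre
        rcases Nat.lt_succ_iff_lt_or_eq.mp hre with h1 | h1
        · have he : e ≠ e₀ := by
            intro h
            rw [h] at h1
            omega
          have hf : f ≠ e₀ := by
            intro h
            rw [h] at hrf
            omega
          rw [Function.update_of_ne he, Function.update_of_ne he, Function.update_of_ne hf,
            Function.update_of_ne hf]
          exact hnm e f hef hrf h1
        · have he : e = e₀ := rank_inj (h1.trans hN.symm)
          subst he
          have hf : f = f₀ := forest e f f₀ hef hm hrf hr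
          subst hf
          rw [Function.update_self, Function.update_self, Function.update_of_ne hne.symm,
            Function.update_of_ne hne.symm]
          exact ⟨hn1, hn2, hm1, hm2⟩
      · refine ⟨n, m, ?_⟩
        intro e f hef hrf hre
        rcases Nat.lt_succ_iff_lt_or_eq.mp hre with h1 | h1
        · exact hnm e f hef hrf h1
        · exact absurd ⟨e, f, hef, hrf, h1⟩ h0
  obtain ⟨N, hN⟩ : ∃ N, ∀ e, rank e < N := by
    obtain ⟨B, hB⟩ := (Set.finite_range rank).bddAbove
    exact ⟨B + 1, fun e => Nat.lt_succ_of_le (hB ⟨e, rfl⟩)⟩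
  obtain ⟨n, m, hnm⟩ := main N
  exact ⟨n, m, fun e f hef hrf => hnm e f hef hrf (hN e)⟩

end Pool.Agent.H.MP_1611f1_gt.TR
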