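import Pool.Agent.H.MP_1611f1_gt.TR.Psi
import Pool.Agent.H.MP_1611f1_gt.G.MT

/-!
Products `S × S¹`: change of the fibre coordinate.
-/

namespace Pool.Agent.H.MP_1611f1_gt.TR

open Topology Set Filter

section

variable {S : Type*} [TopologicalSpace S] {J : Type*} {E : Surf S J} {M : Type*}
  [TopologicalSpace M] {T : G.Ended M J}

theorem Twist_pow (k : ℤ) (x : S) : ((Homeomorph.refl S) ^ k) x = x := by
  have h : (Homeomorph.refl S) ^ k = 1 := one_zpow k
  rw [h]
  rfl

/-- PROOF: `Mt.p_eq` with `(1 : S ≃ₜ S) ^ k = 1`; `Homeomorph.refl S` is `1` by `rfl`. -/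
theorem refl_eq (Mt : G.MTorus E (Homeomorph.refl S) T) (x : S) (t : ℝ) (x' : S) (t' : ℝ) :
    Mt.p (x, t) = Mt.p (x', t') ↔ ∃ k : ℤ, t' = t + k ∧ x = x' := by
  rw [Mt.p_eq]
  refine exists_congr fun k => ?_
  rw [Twist_pow]

/-- PROOF: for `x ≠ x'` the points `Mt.p (x, 0)` and `Mt.p (x', 0)` are different (`refl_eq`); take disjoint
neighbourhoods and their preimages under the continuous map `x ↦ Mt.p (x, 0)`. -/
theorem t2_base [T2Space M] (Mt : G.MTorus E (Homeomorph.refl S) T) : T2Space S := by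
  refine T2Space.of_injective_continuous (f := fun x : S => Mt.p (x, 0)) ?_ ?_
  · intro x x' h
    obtain ⟨k, -, hx⟩ := (refl_eq Mt x 0 x' 0).1 h
    exact hx
  · exact Mt.p_loc.continuous.comp (by fun_prop)

/-- CHANGE OF THE FIBRE COORDINATE. PROOF: `p' (x, t) = Mt.p (x, ψ x t)`. The map `(x, t) ↦ (x, ψ x t)` is a homeomorphism
of `S × ℝ` (inverse: `(x, t) ↦ (x, (ψ x).symm t)`, continuous by `symm_jcontS`), so `p'` is a surjective local homeomorphism
(`Mt.p_loc.comp`, `Homeomorph.isLocalHomeomorph`). `p_eq`: `refl_eq`, `Per.int`, injectivity of `ψ x`, and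
`(Homeomorph.refl S) ^ k = Homeomorph.refl S`. `tor`: `Mt.tor` and `hcol`. -/
theorem exists_twist (Mt : G.MTorus E (Homeomorph.refl S) T) (ψ : S → (ℝ ≃o ℝ))
    (hc : Continuous (fun q : S × ℝ => ψ q.1 q.2)) (hP : ∀ x, Per (ψ x))
    (hcol : ∀ j z t, ψ (E.collar j z) t = t) :
    ∃ Mt' : G.MTorus E (Homeomorph.refl S) T, ∀ x t, Mt'.p (x, t) = Mt.p (x, ψ x t) := by
  let e : S × ℝ ≃ₜ S × ℝ :=
    { toFun := fun q => (q.1, ψ q.1 q.2)
      invFun := fun q => (q.1, (ψ q.1).symm q.2)
      left_inv := fun q => by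
        show (q.1, (ψ q.1).symm (ψ q.1 q.2)) = q
        rw [OrderIso.symm_apply_apply]
      right_inv := fun q => by
        show (q.1, ψ q.1 ((ψ q.1).symm q.2)) = q
        rw [OrderIso.apply_symm_apply]
      continuous_toFun := continuous_fst.prodMk hc
      continuous_invFun := continuous_fst.prodMk (symm_jcontS hc) }
  have he : ∀ x t, e (x, t) = (x, ψ x t) := fun x t => rfl
  refine ⟨{ p := fun q => Mt.p (e q)
            p_loc := Mt.p_loc.comp e.isLocalHomeomorph
            p_eq := fun x t x' t' => ?_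
            p_surj := Mt.p_surj.comp e.surjective
            tor := fun j θ r t => ?_ }, fun x t => rfl⟩
  · rw [he, he, refl_eq]
    constructor
    · rintro ⟨k, hk, rfl⟩
      refine ⟨k, ?_, ?_⟩
      · have h1 := (hP x).int t k
        rw [← h1] at hk
        exact (ψ x).injective hk
      · rw [Twist_pow]
    · rintro ⟨k, hk, hx⟩
      rw [Twist_pow] at hx
      subst hx
      refine ⟨k, ?_, rfl⟩
      rw [hk, (hP x).int]
  · rw [he, hcol]
    exact Mt.tor j θ r t

end

end Pool.Agent.H.MP_1611f1_gt.TR
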