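import Pool.Agent.H.MP_1611f1_gt.TR.Basic
import Pool.Agent.H.MP_1611f1_gt.G2.PlA

/-!
Circle homeomorphisms with prescribed affine windows.
-/

namespace Pool.Agent.H.MP_1611f1_gt.TR

open Topology Set Filter

/-- the sequence `x_i + k` -/
noncomputable def Win_X (x0 x1 x2 x3 : ℝ) (n : ℤ) : ℝ :=
  (if n % 4 = 0 then x0 else if n % 4 = 1 then x1 else if n % 4 = 2 then x2 else x3) +
    ((n / 4 : ℤ) : ℝ)

theorem Win_succ {x0 x1 x2 x3 : ℝ} (hx : x0 < x1 ∧ x1 < x2 ∧ x2 < x3 ∧ x3 < x0 + 1) (n : ℤ) :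
    Win_X x0 x1 x2 x3 n < Win_X x0 x1 x2 x3 (n + 1) := by
  obtain ⟨h0, h1, h2, h3⟩ := hx
  unfold Win_X
  have hc : n % 4 = 0 ∨ n % 4 = 1 ∨ n % 4 = 2 ∨ n % 4 = 3 := by omega
  rcases hc with hc | hc | hc | hc
  · have e1 : (n + 1) % 4 = 1 := by omega
    have e2 : (n + 1) / 4 = n / 4 := by omega
    rw [hc, e1, e2]
    norm_num
    exact h0
  · have e1 : (n + 1) % 4 = 2 := by omega
    have e2 : (n + 1) / 4 = n / 4 := by omega
    rw [hc, e1, e2]
    norm_num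
    exact h1
  · have e1 : (n + 1) % 4 = 3 := by omega
    have e2 : (n + 1) / 4 = n / 4 := by omega
    rw [hc, e1, e2]
    norm_num
    exact h2
  · have e1 : (n + 1) % 4 = 0 := by omega
    have e2 : (n + 1) / 4 = n / 4 + 1 := by omega
    rw [hc, e1, e2]
    norm_num
    linarith

theorem Win_per (x0 x1 x2 x3 : ℝ) (n : ℤ) :
    Win_X x0 x1 x2 x3 (n + 4) = Win_X x0 x1 x2 x3 n + 1 := by
  unfold Win_X
  have e1 : (n + 4) % 4 = n % 4 := by omega
  have e2 : (n + 4) / 4 = n / 4 + 1 := by omega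
  rw [e1, e2, Int.cast_add, Int.cast_one, add_assoc]

theorem Win_0 (x0 x1 x2 x3 : ℝ) : Win_X x0 x1 x2 x3 0 = x0 := by
  simp [Win_X]

theorem Win_1 (x0 x1 x2 x3 : ℝ) : Win_X x0 x1 x2 x3 1 = x1 := by
  norm_num [Win_X]

theorem Win_2 (x0 x1 x2 x3 : ℝ) : Win_X x0 x1 x2 x3 2 = x2 := by
  norm_num [Win_X]

theorem Win_3 (x0 x1 x2 x3 : ℝ) : Win_X x0 x1 x2 x3 3 = x3 := by
  norm_num [Win_X]

/-- FOUR POINTS. PROOF: let `X : ℤ → ℝ` be the sequence with `X (4 k + i) = x_i + k` (`i = 0, 1, 2, 3`), e.g.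
`X n = (if n % 4 = 0 then x0 else if n % 4 = 1 then x1 else if n % 4 = 2 then x2 else x3) + (n / 4 : ℤ)`; it is increasing and
`X (n + 4) = X n + 1`; `Y` in the same way. `h = (G2.plIso X).symm.trans (G2.plIso Y)` (file G2/PlA.lean: `plf X` is the
piecewise linear function with `plf X n = X n`; `plf_add`, `plf_shift`). For `x ∈ [x0, x1]`: `x = plf X u` with
`u = (x - x0)/(x1 - x0) ∈ [0, 1]` and `plf Y u = y0 + (y1 - y0) u`; for `x ∈ [x2, x3]`: `u = 2 + (x - x2)/(x3 - x2)`.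
`Per`: `plf_shift` with `m = 4`, `La = 1`. -/
theorem exists_pl4 {x0 x1 x2 x3 y0 y1 y2 y3 : ℝ} (hx : x0 < x1 ∧ x1 < x2 ∧ x2 < x3 ∧ x3 < x0 + 1)
    (hy : y0 < y1 ∧ y1 < y2 ∧ y2 < y3 ∧ y3 < y0 + 1) :
    ∃ h : ℝ ≃o ℝ, Per h ∧
      (∀ x ∈ Icc x0 x1, h x = y0 + (y1 - y0) / (x1 - x0) * (x - x0)) ∧
      ∀ x ∈ Icc x2 x3, h x = y2 + (y3 - y2) / (x3 - x2) * (x - x2) := by
  have m4 : (0 : ℤ) < 4 := by norm_num
  let f := plIso (Win_X x0 x1 x2 x3) (Win_succ hx) 4 m4 1 (Win_per x0 x1 x2 x3)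
  let g := plIso (Win_X y0 y1 y2 y3) (Win_succ hy) 4 m4 1 (Win_per y0 y1 y2 y3)
  have hf : ∀ u, f u = plf (Win_X x0 x1 x2 x3) u := fun u => rfl
  have hg : ∀ u, g u = plf (Win_X y0 y1 y2 y3) u := fun u => rfl
  have key : ∀ u x, f u = x → (f.symm.trans g) x = g u := by
    intro u x hux
    rw [← hux, OrderIso.trans_apply, OrderIso.symm_apply_apply]
  refine ⟨f.symm.trans g, ?_, ?_, ?_⟩
  · intro x
    have h1 : f (f.symm x) = x := f.apply_symm_apply x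
    have h2 : f (f.symm x + 4) = x + 1 := by
      have h3 := plf_shift (Win_per x0 x1 x2 x3) (f.symm x)
      rw [hf]
      rw [hf] at h1
      push_cast at h3
      rw [h3, h1]
    rw [key _ _ h2]
    have h4 := plf_shift (Win_per y0 y1 y2 y3) (f.symm x)
    push_cast at h4
    rw [hg, h4]
    rfl
  · intro x hx'
    have hd : 0 < x1 - x0 := by linarith [hx.1]
    have hu : (x - x0) / (x1 - x0) ∈ Icc (0 : ℝ) 1 :=
      ⟨div_nonneg (by linarith [hx'.1]) hd.le, (div_le_one hd).2 (by linarith [hx'.2])⟩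
    have h1 := plf_add (Win_X x0 x1 x2 x3) 0 _ hu
    have h2 := plf_add (Win_X y0 y1 y2 y3) 0 _ hu
    rw [zero_add, Win_0, Win_1] at h1 h2
    rw [key (((0 : ℤ) : ℝ) + (x - x0) / (x1 - x0)) x, hg, h2]
    · ring
    · rw [hf, h1]
      field_simp
      ring
  · intro x hx'
    have hd : 0 < x3 - x2 := by linarith [hx.2.2.1]
    have hu : (x - x2) / (x3 - x2) ∈ Icc (0 : ℝ) 1 :=
      ⟨div_nonneg (by linarith [hx'.1]) hd.le, (div_le_one hd).2 (by linarith [hx'.2])⟩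
    have h1 := plf_add (Win_X x0 x1 x2 x3) 2 _ hu
    have h2 := plf_add (Win_X y0 y1 y2 y3) 2 _ hu
    have e : (2 : ℤ) + 1 = 3 := by norm_num
    rw [e, Win_2, Win_3] at h1 h2
    rw [key (((2 : ℤ) : ℝ) + (x - x2) / (x3 - x2)) x, hg, h2]
    · ring
    · rw [hf, h1]
      field_simp
      ring

theorem Win_aff {V W r ρ x : ℝ} (hr : 0 < r) :
    W - ρ + (W + ρ - (W - ρ)) / (V + r - (V - r)) * (V + x - (V - r)) = W + ρ / r * x := by
  have h1 : V + r - (V - r) = 2 * r := by ring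
  have h2 : W + ρ - (W - ρ) = 2 * ρ := by ring
  rw [h1, h2]
  field_simp
  ring

theorem Win_two {K : Type*} (V W : K → ℝ) {r ρ : ℝ} (hr : 0 < r) (hρ : 0 < ρ) {e f : K}
    (hp : V f + 2 * r < V e ∧ V e + 2 * r < V f + 1 ∧ W f + 2 * ρ < W e ∧ W e + 2 * ρ < W f + 1) :
    ∃ h : ℝ ≃o ℝ, Per h ∧ (∀ x ∈ Icc (-r) r, h (V f + x) = W f + ρ / r * x) ∧
      ∀ x ∈ Icc (-r) r, h (V e + x) = W e + ρ / r * x := by
  obtain ⟨h1, h2, h3, h4⟩ := hp
  obtain ⟨h, hP, ha, hb⟩ := exists_pl4 (x0 := V f - r) (x1 := V f + r) (x2 := V e - r) (x3 := V e + r)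
    (y0 := W f - ρ) (y1 := W f + ρ) (y2 := W e - ρ) (y3 := W e + ρ)
    ⟨by linarith, by linarith, by linarith, by linarith⟩
    ⟨by linarith, by linarith, by linarith, by linarith⟩
  refine ⟨h, hP, fun x hx => ?_, fun x hx => ?_⟩
  · rw [ha (V f + x) ⟨by linarith [hx.1], by linarith [hx.2]⟩]
    exact Win_aff hr
  · rw [hb (V e + x) ⟨by linarith [hx.1], by linarith [hx.2]⟩]
    exact Win_aff hr

/-- WINDOWS. There is a homeomorphism which maps the windows `[V e - r, V e + r]`, `e ∈ A`, affinely onto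
`[W e - ρ, W e + ρ]`. PROOF: `A` is empty: the identity. `A = {e}`: `exists_pl4` with `x0 = V e - r`, `x1 = V e + r`, `x2`, `x3`
in between `x1` and `x0 + 1` (two points of this interval), the same for `y`. `A = {e, f}`, without loss of generality
the first case of `hp`: `x0 = V f - r`, `x1 = V f + r`, `x2 = V e - r`, `x3 = V e + r`, `y0 = W f - ρ`, ... . -/
theorem exists_hA {K : Type*} [DecidableEq K] (V W : K → ℝ) {r ρ : ℝ} (hr : 0 < r)
    (hr1 : 2 * r < 1) (hρ : 0 < ρ) (hρ1 : 2 * ρ < 1) (A : Finset K) (hA : A.card ≤ 2)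
    (hp : ∀ e ∈ A, ∀ f ∈ A, e ≠ f →
      (V f + 2 * r < V e ∧ V e + 2 * r < V f + 1 ∧ W f + 2 * ρ < W e ∧ W e + 2 * ρ < W f + 1) ∨
      (V e + 2 * r < V f ∧ V f + 2 * r < V e + 1 ∧ W e + 2 * ρ < W f ∧ W f + 2 * ρ < W e + 1)) :
    ∃ h : ℝ ≃o ℝ, Per h ∧ (A = ∅ → ∀ x, h x = x) ∧
      ∀ e ∈ A, ∀ x ∈ Icc (-r) r, h (V e + x) = W e + ρ / r * x := by
  have hc : A.card = 0 ∨ A.card = 1 ∨ A.card = 2 := by omega
  rcases hc with hc | hc | hc
  · rw [Finset.card_eq_zero] at hc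
    subst hc
    exact ⟨OrderIso.refl ℝ, Per.refl, fun _ x => rfl, fun e he => absurd he (Finset.notMem_empty e)⟩
  · obtain ⟨e, rfl⟩ := Finset.card_eq_one.1 hc
    obtain ⟨h, hP, ha, -⟩ := exists_pl4 (x0 := V e - r) (x1 := V e + r)
      (x2 := V e + r + (1 - 2 * r) / 3) (x3 := V e + r + 2 * ((1 - 2 * r) / 3))
      (y0 := W e - ρ) (y1 := W e + ρ) (y2 := W e + ρ + (1 - 2 * ρ) / 3)
      (y3 := W e + ρ + 2 * ((1 - 2 * ρ) / 3))
      ⟨by linarith, by linarith, by linarith, by linarith⟩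
      ⟨by linarith, by linarith, by linarith, by linarith⟩
    refine ⟨h, hP, fun h0 => absurd h0 (Finset.singleton_ne_empty e), fun f hf x hx => ?_⟩
    rw [Finset.mem_singleton] at hf
    subst hf
    rw [ha (V f + x) ⟨by linarith [hx.1], by linarith [hx.2]⟩]
    exact Win_aff hr
  · obtain ⟨e, f, hef, rfl⟩ := Finset.card_eq_two.1 hc
    have hne : ({e, f} : Finset K) ≠ ∅ := Finset.insert_ne_empty e {f}
    have he : e ∈ ({e, f} : Finset K) := Finset.mem_insert_self e {f}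
    have hf : f ∈ ({e, f} : Finset K) := Finset.mem_insert_of_mem (Finset.mem_singleton_self f)
    rcases hp e he f hf hef with h1 | h1
    · obtain ⟨h, hP, ha, hb⟩ := Win_two V W hr hρ h1
      refine ⟨h, hP, fun h0 => absurd h0 hne, fun k hk => ?_⟩
      rw [Finset.mem_insert, Finset.mem_singleton] at hk
      rcases hk with rfl | rfl
      · exact hb
      · exact ha
    · obtain ⟨h, hP, ha, hb⟩ := Win_two V W hr hρ h1
      refine ⟨h, hP, fun h0 => absurd h0 hne, fun k hk => ?_⟩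
      rw [Finset.mem_insert, Finset.mem_singleton] at hk
      rcases hk with rfl | rfl
      · exact ha
      · exact hb

end Pool.Agent.H.MP_1611f1_gt.TR
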