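import Pool.Agent.H.MP_1611f1_gt.TR.Defs
import Pool.Agent.H.MP_1611f1_gt.TR.Dat
import Pool.Agent.H.MP_1611f1_gt.TR.LevC
import Pool.Agent.H.MP_1611f1_gt.TR.Fol
import Pool.Agent.H.MP_1611f1_gt.TR.Win
import Pool.Agent.H.MP_1611f1_gt.TR.Lift
import Pool.Agent.H.MP_1611f1_gt.TR.Twist
import Pool.Agent.H.MP_1611f1_gt.LG.Main

/-!
Tree pieces: products `S × S¹` minus curves in fibres, in the pattern of a forest.
-/

namespace Pool.Agent.H.MP_1611f1_gt.TR

open Topology Set Filter
open Pool.Agent.H.MP_1611f1_gt.LS Pool.Agent.H.MP_1611f1_gt.LG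
open Pool.Agent.H.MP_1611f1_gt.G (Ended Linear MTorus Detected)

/-- change of the index set of the ends -/
theorem dat_reindex {K J : Type*} {n T : ℕ} {W : ℤ → Option (K × Bool)} {s : ℝ}
    (D : G2.Dat (fun _ : Unit => n) (fun _ => W) T (fun _ => s)) :
    ∃ D' : G2.Dat (fun _ : J => n) (fun _ => W) T (fun _ => s), D'.iso = D.iso :=
  ⟨{ iso := D.iso
     iso_per := D.iso_per
     M := fun _ => D.M ()
     mono := fun _ => D.mono ()
     cont := fun _ => D.cont ()
     M_per := fun _ => D.M_per ()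
     pos := fun _ => D.pos ()
     neg := fun _ => D.neg ()
     non := fun _ => D.non ()
     M_len := fun _ => D.M_len () }, rfl⟩

/-- `LG.toDrill`, with equality of the neighbourhoods in a smaller region -/
def toDrill' {M : Type*} [TopologicalSpace M] {J : Type*} {M₀ : Type*} [TopologicalSpace M₀]
    {old : J → Prop} {T₀ : Ended M₀ {j // old j}} {N : {j // ¬ old j} → Cylinder → M₀}
    {T : Ended M J} (D : Drilled T₀ N T) (N' : {j // ¬ old j} → Cyl → M₀)
    (hN : ∀ k z, |z.2.1| ≤ 2 → -6 ≤ z.2.2 → z.2.2 ≤ -2 → N' k z = N k z) :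
    Drill T₀ N' (reT old T) where
  p := D.p
  emb := D.emb
  range_iff x := by
    rw [D.range_iff]
    have h1 : ∀ k, N' k '' KK = N k '' solidTorus := by
      intro k
      have h2 : (KK : Set Cyl) = solidTorus := rfl
      rw [h2]
      refine image_congr fun z hz => hN k z ?_ (torus_bds hz).1 (torus_bds hz).2
      have h3 : z.2.1 ^ 2 + (z.2.2 + 4) ^ 2 ≤ 1 := hz
      rw [abs_le]
      constructor <;> nlinarith [sq_nonneg (z.2.2 + 4)]
    constructor
    · intro h k
      rw [h1]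
      exact h k
    · intro h k
      rw [← h1]
      exact h k
  old j w := D.old_tor j w
  new k θ r t := by
    have h1 := D.new_tor k θ r t
    have h3 := r.2.1
    have h4 := r.2.2
    refine h1.trans (hN k _ ?_ ?_ ?_).symm
    · show |(r : ℝ) * Real.cos (2 * Real.pi * t)| ≤ 2
      rw [abs_mul, abs_of_pos (by linarith : (0 : ℝ) < r)]
      have h2 := Real.abs_cos_le_one (2 * Real.pi * t)
      have h5 := abs_nonneg (Real.cos (2 * Real.pi * t))
      nlinarith
    · show -6 ≤ -4 + (r : ℝ) * Real.sin (2 * Real.pi * t)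
      have h2 := Real.neg_one_le_sin (2 * Real.pi * t)
      nlinarith
    · show -4 + (r : ℝ) * Real.sin (2 * Real.pi * t) ≤ -2
      have h2 := Real.sin_le_one (2 * Real.pi * t)
      nlinarith

section

variable {S : Type*} [TopologicalSpace S] {J K : Type*} (P : Forest S J K)

/-- two annuli meet -/
def Forest.meet (e f : K) : Prop := ∃ x y, P.ν e x = P.ν f y

variable {P}

theorem Forest.meet_symm {e f : K} (h : P.meet e f) : P.meet f e := by
  obtain ⟨x, y, h⟩ := h
  exact ⟨y, x, h.symm⟩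

theorem Forest.meet_forest (e f g : K) (h : P.meet e f) (h' : P.meet e g)
    (h1 : P.rank f < P.rank e) (h2 : P.rank g < P.rank e) : f = g := by
  obtain ⟨x, y, h⟩ := h
  obtain ⟨x', y', h'⟩ := h'
  exact P.forest e f g x y x' y' h h' h1 h2

/-- there are no triple intersections -/
theorem Forest.clique_card [DecidableEq K] {A : Finset K}
    (hA : ∀ e ∈ A, ∀ f ∈ A, P.meet e f) : A.card ≤ 2 := by
  by_contra hcon
  push Not at hcon
  obtain ⟨a, ha, b, hb, c, hc, hab, hac, hbc⟩ := Finset.two_lt_card.1 hcon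
  have hr : ∀ {e f : K}, e ≠ f → P.rank e ≠ P.rank f := fun h h' => h (P.rank_inj h')
  have r1 := hr hab
  have r2 := hr hac
  have r3 := hr hbc
  rcases lt_or_gt_of_ne r1 with h1 | h1
  · rcases lt_or_gt_of_ne r3 with h3 | h3
    · exact hab (Forest.meet_forest c a b (hA c hc a ha) (hA c hc b hb) (h1.trans h3) h3)
    · exact hac (Forest.meet_forest b a c (hA b hb a ha) (hA b hb c hc) h1 h3)
  · rcases lt_or_gt_of_ne r2 with h2 | h2
    · exact hab (Forest.meet_forest c a b (hA c hc a ha) (hA c hc b hb) h2 (h1.trans h2))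
    · exact hbc (Forest.meet_forest a b c (hA a ha b hb) (hA a ha c hc) h1 h2)

/-- the change of the fibre coordinate which moves the windows -/
theorem exists_fibre [Finite K] [T2Space S] (P : Forest S J K) (V W : K → ℝ) {r ρ : ℝ}
    (hr : 0 < r) (hr1 : 2 * r < 1) (hρ : 0 < ρ) (hρ1 : 2 * ρ < 1)
    (hp : ∀ e f, P.meet e f → P.rank f < P.rank e →
      (V f + 2 * r < V e ∧ V e + 2 * r < V f + 1 ∧ W f + 2 * ρ < W e ∧ W e + 2 * ρ < W f + 1)) :
    ∃ ψ : S → (ℝ ≃o ℝ), Continuous (fun q : S × ℝ => ψ q.1 q.2) ∧ (∀ x, Per (ψ x)) ∧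
      (∀ j z t, ψ (P.E.collar j z) t = t) ∧
      ∀ e z x, |z.2| ≤ 2 → x ∈ Icc (-r) r → ψ (P.ν e z) (V e + x) = W e + ρ / r * x := by
  classical
  have := Fintype.ofFinite K
  choose l hl1 hl2 hl3 hl4 using fun e => exists_cutoff (P.emb e)
  have hex : ∀ A : Finset K, ∃ h : ℝ ≃o ℝ, Per h ∧ (A = ∅ → ∀ x, h x = x) ∧
      ((∀ e ∈ A, ∀ f ∈ A, P.meet e f) →
        ∀ e ∈ A, ∀ x ∈ Icc (-r) r, h (V e + x) = W e + ρ / r * x) := by
    intro A
    by_cases hA : ∀ e ∈ A, ∀ f ∈ A, P.meet e f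
    · obtain ⟨h, h1, h2, h3⟩ := exists_hA V W hr hr1 hρ hρ1 A (Forest.clique_card hA) (by
        intro e he f hf hef
        rcases lt_or_gt_of_ne (fun h' => hef (P.rank_inj h') : P.rank e ≠ P.rank f) with h | h
        · exact Or.inr (hp f e (hA f hf e he) h)
        · exact Or.inl (hp e f (hA e he f hf) h))
      exact ⟨h, h1, h2, fun _ => h3⟩
    · exact ⟨OrderIso.refl ℝ, Per.refl, fun _ _ => rfl, fun h => absurd h hA⟩
  choose h h1 h2 h3 using hex
  obtain ⟨ψ, p1, p2, p3⟩ := exists_psi l hl1 hl2 h h1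
  refine ⟨ψ, p1, p2, fun j z t => p3 _ _ _ fun A hA _ => ?_, fun e z x hz hx =>
    p3 _ _ _ fun A hA hA' => ?_⟩
  · have hAe : A = ∅ := by
      rw [Finset.eq_empty_iff_forall_notMem]
      intro a ha
      obtain ⟨w, hw⟩ := hl4 a _ (hA a ha)
      exact P.out a w j z hw
    exact h2 A hAe t
  · refine h3 A (fun a ha b hb => ?_) e (hA' e (hl3 e z hz)) x hx
    obtain ⟨w, hw⟩ := hl4 a _ (hA a ha)
    obtain ⟨w', hw'⟩ := hl4 b _ (hA b hb)
    exact ⟨w, w', hw.trans hw'.symm⟩

end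

/-- tree pieces, positive at the old end -/
theorem tree_detected_pos {M : Type*} [TopologicalSpace M] {J : Type*} {T : Ended M J}
    {x y : J → ℝ} {S : Type*} [TopologicalSpace S] [ConnectedSpace S] {old : J → Prop}
    [Unique {j // old j}] (hN : 2 ≤ Nat.card {j // ¬ old j})
    (P : Forest S {j // old j} {j // ¬ old j})
    {M₀ : Type*} [TopologicalSpace M₀] [T2Space M₀] {T₀ : Ended M₀ {j // old j}}
    (Mt : MTorus P.E (Homeomorph.refl S) T₀) (t : {j // ¬ old j} → ℝ) {ε : ℝ} (hε : 0 < ε)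
    (hε1 : 4 * ε < 1)
    (sep : ∀ e f, e ≠ f → (∃ z w, P.ν e z = P.ν f w) → ∀ m : ℤ, 4 * ε < |t e - t f + m|)
    (D : Drilled T₀ (fun k z => Mt.p (P.ν k (z.1, z.2.1), t k + ε * (z.2.2 + 4))) T)
    (hold : ∀ j, old j → 0 < y j ∧ |x j| < (Nat.card {j // ¬ old j} - 1) * y j)
    (hnew : ∀ j, ¬ old j → x j ≠ 0) : Detected T x y := by
  classical
  have hfin : Finite {j // ¬ old j} := Nat.finite_of_card_ne_zero (by omega)
  have hS : T2Space S := t2_base Mt
  have hne : Nonempty {j // ¬ old j} := by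
    by_contra h
    rw [not_nonempty_iff] at h
    rw [Nat.card_of_isEmpty] at hN
    omega
  obtain ⟨k₀⟩ := hne
  let j₀ : {j // old j} := default
  obtain ⟨hy0, hx0⟩ := hold j₀ j₀.2
  obtain ⟨s, hsdef⟩ : ∃ s : ℝ, s = -(x j₀ / y j₀) := ⟨_, rfl⟩
  have hs : |s| < Nat.card {j // ¬ old j} - 1 := by
    rw [hsdef, abs_neg, abs_div, abs_of_pos hy0, div_lt_iff₀ hy0]
    exact hx0
  obtain ⟨iso, c, D₁, hD₁, hyp, hcd, hcn⟩ := exists_tree_dat P.word hN hs 2 two_pos
  obtain ⟨D₂, hD₂⟩ := dat_reindex (J := {j // old j}) D₁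
  obtain ⟨C, hC⟩ := const_chain D₂ P.A
  obtain ⟨κ, hκ, hκ1, hκ2⟩ := exists_kap (T := 2) two_pos c hcn hcd
  -- the lifts
  have hv : ∀ e f, e ≠ f → P.meet e f → ∀ m : ℤ, (c e - κ / 2) / 2 ≠ (c f - κ / 2) / 2 + m := by
    intro e f hef _ m h
    apply hcd e f hef m
    push_cast
    linarith
  have ht : ∀ e f, e ≠ f → P.meet e f → ∀ m : ℤ, t e ≠ t f + m := by
    intro e f hef hm m h
    have h1 := sep e f hef hm (-m)
    rw [h] at h1
    push_cast at h1
    have h2 : t f + m - t f + -m = (0 : ℝ) := by ring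
    rw [h2, abs_zero] at h1
    linarith
  obtain ⟨n, m, hnm⟩ := exists_lifts P.rank P.rank_inj P.meet Forest.meet_forest
    (fun e => (c e - κ / 2) / 2) t hv ht
  have hκ8 : 2 * (κ / 8) < 1 := by
    have := hκ1 k₀
    linarith [this.1, this.2]
  obtain ⟨ψ, p1, p2, p3, p4⟩ := exists_fibre P (fun e => (c e - κ / 2) / 2 + n e)
    (fun e => t e + m e) (r := κ / 8) (ρ := 2 * ε) (by positivity) hκ8 (by positivity)
    (by linarith) (by
      intro e f hef hrank
      have hne : e ≠ f := by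
        rintro rfl
        exact lt_irrefl _ hrank
      obtain ⟨a1, a2, a3, a4⟩ := hnm e f hef hrank
      have b1 := hκ2 e f hne (n e - n f)
      have b2 := hκ2 e f hne (n e - n f - 1)
      have b3 := sep e f hne hef (m e - m f)
      have b4 := sep e f hne hef (m e - m f - 1)
      push_cast at b1 b2 b3 b4
      rw [abs_of_pos (by linarith)] at b1
      rw [abs_of_neg (by linarith)] at b2
      rw [abs_of_pos (by linarith)] at b3
      rw [abs_of_neg (by linarith)] at b4
      refine ⟨?_, ?_, ?_, ?_⟩ <;> linarith)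
  obtain ⟨Mt', hMt'⟩ := exists_twist Mt ψ p1 p2 p3
  -- the foliation of the product
  obtain ⟨F, hF, hFt, hlin⟩ := gen_fol (T := 2) le_rfl (fun _ => by omega)
    (fun _ k => by
      have h1 := P.word.per k
      push_cast
      rw [h1]) C Mt'
  have hlin' := hlin (fun j => x j) (fun j => y j) (fun j => (hold j.1 j.2).1) (fun j => by
    have hj : j = j₀ := Subsingleton.elim _ _
    subst hj
    rw [hsdef]
    field_simp)
  -- the level curves
  let lc : {j // ¬ old j} → LvC C := fun k =>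
    { i := ⌊c k⌋
      e := k
      c := c k
      c_mem := ⟨by linarith [(hκ1 k).1], by linarith [(hκ1 k).2]⟩
      hyp := by
        rw [hD₂, hD₁]
        exact hyp k
      ν := P.ν k
      emb := P.emb k
      out := P.out k
      other := fun e' he z => by
        rw [hC]
        exact P.other k e' z he
      f := P.f k
      f_cont := P.f_cont k
      deg := P.deg k
      deg_ne := P.deg_ne k
      f_add := P.f_add k
      cross := fun θ u => by
        rw [hC]
        exact P.cross k θ u }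
  have hnb : ∀ (k : {j // ¬ old j}) (z : Cyl), |z.2.1| ≤ 2 → -6 ≤ z.2.2 → z.2.2 ≤ -2 →
      (lc k).nbh (G2.toMTB Mt') κ z = Mt.p (P.ν k (z.1, z.2.1), t k + ε * (z.2.2 + 4)) := by
    intro k z h0 h1 h2
    show Mt'.p (P.ν k (z.1, z.2.1), (c k + κ * tim z.2.2) / (2 : ℕ)) = _
    rw [hMt', refl_eq]
    refine ⟨n k - m k, ?_, rfl⟩
    rw [tim_mid h1 (by linarith)]
    have e1 : (c k + κ * (z.2.2 / 8)) / (2 : ℕ) =
        ((c k - κ / 2) / 2 + n k + κ * (z.2.2 + 4) / 16) + ((-(n k) : ℤ) : ℝ) := by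
      push_cast
      ring
    rw [e1, (p2 _).int, p4 k (z.1, z.2.1) (κ * (z.2.2 + 4) / 16) h0 ⟨by nlinarith, by nlinarith⟩]
    push_cast
    field_simp
    ring
  obtain ⟨F', hF', hl'⟩ := drill_sgn hFt hlin' (N := fun k => (lc k).nbh (G2.toMTB Mt') κ)
    (x' := fun j => x j.1) (y' := fun j => y j.1)
    (fun k => lvc_hol le_rfl (lc k) _ hF hκ (hκ1 k).1 (hκ1 k).2 (hnew k.1 k.2))
    (lvc_disj le_rfl _ lc hκ fun k l hkl m => hκ2 k l hkl m)
    (fun k => lvc_away (lc k) Mt' κ) (toDrill' D _ hnb)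
  exact ⟨F', hF', reT_linear hl'⟩

/-- **Tree pieces.** -/
theorem tree_detected {M : Type*} [TopologicalSpace M] {J : Type*} {T : Ended M J}
    {x y : J → ℝ} {S : Type*} [TopologicalSpace S] [ConnectedSpace S] {old : J → Prop}
    [Unique {j // old j}] (hN : 2 ≤ Nat.card {j // ¬ old j})
    (P : Forest S {j // old j} {j // ¬ old j})
    {M₀ : Type*} [TopologicalSpace M₀] [T2Space M₀] {T₀ : Ended M₀ {j // old j}}
    (Mt : MTorus P.E (Homeomorph.refl S) T₀) (t : {j // ¬ old j} → ℝ) {ε : ℝ} (hε : 0 < ε)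
    (hε1 : 4 * ε < 1)
    (sep : ∀ e f, e ≠ f → (∃ z w, P.ν e z = P.ν f w) → ∀ m : ℤ, 4 * ε < |t e - t f + m|)
    (D : Drilled T₀ (fun k z => Mt.p (P.ν k (z.1, z.2.1), t k + ε * (z.2.2 + 4))) T)
    (hold : ∀ j, old j → |x j| < (Nat.card {j // ¬ old j} - 1) * |y j|)
    (hnew : ∀ j, ¬ old j → x j ≠ 0) : Detected T x y := by
  have hj : ∀ j, old j → j = (default : {j // old j}) := fun j hj =>
    congrArg Subtype.val (Subsingleton.elim (⟨j, hj⟩ : {j // old j}) default)
  have h0 := hold _ (default : {j // old j}).2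
  have hN' : (0 : ℝ) < Nat.card {j // ¬ old j} - 1 := by
    have : (2 : ℝ) ≤ Nat.card {j // ¬ old j} := by exact_mod_cast hN
    linarith
  have hy : y (default : {j // old j}) ≠ 0 := by
    intro h
    rw [h, abs_zero, mul_zero] at h0
    exact absurd h0 (not_lt.2 (abs_nonneg _))
  rcases lt_or_gt_of_ne hy with h1 | h1
  · have h2 := tree_detected_pos (x := fun j => -x j) (y := fun j => -y j) hN P Mt t hε hε1 sep D
      (fun j hj' => by
        have h3 := hold j hj'
        rw [hj j hj'] at h3 ⊢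
        rw [abs_of_neg h1] at h3
        rw [abs_neg]
        exact ⟨by linarith, h3⟩) (fun j hj' => neg_ne_zero.2 (hnew j hj'))
    have h3 := h2.neg
    simp only [neg_neg] at h3
    exact h3
  · exact tree_detected_pos hN P Mt t hε hε1 sep D
      (fun j hj' => by
        have h3 := hold j hj'
        rw [hj j hj'] at h3 ⊢
        rw [abs_of_pos h1] at h3
        exact ⟨h1, h3⟩) hnew

end Pool.Agent.H.MP_1611f1_gt.TR
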