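import Pool.Agent.H.MP_1611f1_gt.PB.ZCont

/-!
Words in letters `(e, true)` (positive) and `(e, false)` (negative), their holonomies, hyperbolic
fixed points.
-/

namespace Pool.Agent.H.MP_1611f1_gt.TR

open Topology Set Filter
open Pool.Agent.H.MP_1611f1_gt.PB (BL)

/-- the inverse letter -/
def bar {K : Type*} (x : K × Bool) : K × Bool := (x.1, !x.2)

@[simp] theorem bar_bar {K : Type*} (x : K × Bool) : bar (bar x) = x := by
  obtain ⟨e, b⟩ := x
  simp [bar]

theorem bar_ne {K : Type*} (x : K × Bool) : bar x ≠ x := by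
  obtain ⟨e, b⟩ := x
  cases b <;> simp [bar]

@[simp] theorem bar_fst {K : Type*} (x : K × Bool) : (bar x).1 = x.1 := rfl

theorem bar_inj {K : Type*} {x y : K × Bool} (h : bar x = bar y) : x = y := by
  rw [← bar_bar x, h, bar_bar]

/-- two letters with the same strip are equal or inverse -/
theorem eq_or_bar {K : Type*} {x y : K × Bool} (h : x.1 = y.1) : x = y ∨ x = bar y := by
  obtain ⟨e, b⟩ := x
  obtain ⟨f, c⟩ := y
  simp only at h
  subst h
  cases b <;> cases c <;> simp [bar]

/-- homeomorphisms of the line commuting with the translation by one -/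
def Per (f : ℝ ≃o ℝ) : Prop := ∀ x, f (x + 1) = f x + 1

theorem Per.refl : Per (OrderIso.refl ℝ) := fun _ => rfl

theorem Per.trans {f g : ℝ ≃o ℝ} (hf : Per f) (hg : Per g) : Per (f.trans g) := fun x => by
  rw [OrderIso.trans_apply, OrderIso.trans_apply, hf, hg]

theorem Per.symm {f : ℝ ≃o ℝ} (hf : Per f) : Per f.symm := fun x => by
  apply f.injective
  rw [OrderIso.apply_symm_apply, hf, OrderIso.apply_symm_apply]

theorem Per.int {f : ℝ ≃o ℝ} (hf : Per f) (x : ℝ) (m : ℤ) : f (x + m) = f x + m := by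
  induction m using Int.induction_on with
  | zero => simp
  | succ n ih =>
    have h1 : x + (((n : ℤ) + 1 : ℤ) : ℝ) = x + ((n : ℤ) : ℝ) + 1 := by push_cast; ring
    rw [h1, hf, ih]
    push_cast; ring
  | pred n ih =>
    have h1 : x + ((-(n : ℤ) : ℤ) : ℝ) = x + ((-(n : ℤ) - 1 : ℤ) : ℝ) + 1 := by push_cast; ring
    rw [h1, hf] at ih
    push_cast at ih ⊢
    linarith

/-- the holonomy of a letter -/
def sg {K : Type*} (A : K → ℝ ≃o ℝ) (x : K × Bool) : ℝ ≃o ℝ := if x.2 then A x.1 else (A x.1).symm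

theorem sg_true {K : Type*} (A : K → ℝ ≃o ℝ) (e : K) : sg A (e, true) = A e := rfl

theorem sg_false {K : Type*} (A : K → ℝ ≃o ℝ) (e : K) : sg A (e, false) = (A e).symm := rfl

theorem sg_bar {K : Type*} (A : K → ℝ ≃o ℝ) (x : K × Bool) : sg A (bar x) = (sg A x).symm := by
  obtain ⟨e, b⟩ := x
  cases b
  · show A e = (A e).symm.symm
    exact (OrderIso.symm_symm _).symm
  · rfl

theorem sg_per {K : Type*} {A : K → ℝ ≃o ℝ} (hA : ∀ e, Per (A e)) (x : K × Bool) :
    Per (sg A x) := by
  obtain ⟨e, b⟩ := x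
  cases b
  · exact (hA e).symm
  · exact hA e

/-- the holonomy of a word; the first letter is applied first -/
def hol {K : Type*} (A : K → ℝ ≃o ℝ) : List (K × Bool) → (ℝ ≃o ℝ)
  | [] => OrderIso.refl ℝ
  | y :: l => (sg A y).trans (hol A l)

theorem hol_nil {K : Type*} (A : K → ℝ ≃o ℝ) (x : ℝ) : hol A [] x = x := rfl

theorem hol_cons {K : Type*} (A : K → ℝ ≃o ℝ) (y : K × Bool) (l : List (K × Bool)) (x : ℝ) :
    hol A (y :: l) x = hol A l (sg A y x) := rfl

theorem hol_append {K : Type*} (A : K → ℝ ≃o ℝ) (l m : List (K × Bool)) (x : ℝ) :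
    hol A (l ++ m) x = hol A m (hol A l x) := by
  induction l generalizing x with
  | nil => rfl
  | cons y l ih =>
    rw [List.cons_append, hol_cons, hol_cons, ih]

theorem hol_per {K : Type*} {A : K → ℝ ≃o ℝ} (hA : ∀ e, Per (A e)) (l : List (K × Bool)) :
    Per (hol A l) := by
  induction l with
  | nil => exact Per.refl
  | cons y l ih => exact (sg_per hA y).trans ih

/-- the holonomy only depends on the letters in the word -/
theorem hol_congr {K : Type*} {A B : K → ℝ ≃o ℝ} {l : List (K × Bool)}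
    (h : ∀ y ∈ l, A y.1 = B y.1) : hol A l = hol B l := by
  induction l with
  | nil => rfl
  | cons y l ih =>
    have h1 : sg A y = sg B y := by
      unfold sg
      rw [h y List.mem_cons_self]
    show (sg A y).trans (hol A l) = (sg B y).trans (hol B l)
    rw [h1, ih fun z hz => h z (List.mem_cons_of_mem _ hz)]

/-- `v` is a repelling fixed point of `f` -/
def Rep (f : ℝ ≃o ℝ) (v : ℝ) : Prop :=
  f v = v ∧ ∃ ε > 0, (∀ x ∈ Ioo v (v + ε), x < f x) ∧ ∀ x ∈ Ioo (v - ε) v, f x < x

/-- `v` is a repelling fixed point of `f` or of its inverse -/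
def Hyp (f : ℝ ≃o ℝ) (v : ℝ) : Prop := Rep f v ∨ Rep f.symm v

theorem Hyp.symm {f : ℝ ≃o ℝ} {v : ℝ} (h : Hyp f v) : Hyp f.symm v := by
  rcases h with h | h
  · right
    rwa [OrderIso.symm_symm]
  · exact Or.inl h

theorem Hyp.fix {f : ℝ ≃o ℝ} {v : ℝ} (h : Hyp f v) : f v = v := by
  rcases h with h | h
  · exact h.1
  · have h1 := h.1
    rw [OrderIso.symm_apply_eq] at h1
    exact h1.symm

end Pool.Agent.H.MP_1611f1_gt.TR
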