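import Pool.Agent.H.MP_1611f1_gt.TR.Word

/-!
The enumeration of the letters along the face.
-/

namespace Pool.Agent.H.MP_1611f1_gt.TR

open Topology Set Filter

variable {K : Type*} {w : ℤ → K × Bool}

/-- the period, in general -/
theorem IsWord.per_mul (hw : IsWord w) (i m : ℤ) : w (i + 2 * Nat.card K * m) = w i := by
  induction m using Int.induction_on with
  | zero => rw [mul_zero, add_zero]
  | succ m ih =>
    have h1 : i + 2 * (Nat.card K : ℤ) * ((m : ℤ) + 1) =
        i + 2 * (Nat.card K : ℤ) * (m : ℤ) + 2 * (Nat.card K : ℤ) := by ring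
    rw [h1, hw.per, ih]
  | pred m ih =>
    have h1 : i + 2 * (Nat.card K : ℤ) * (-(m : ℤ)) =
        i + 2 * (Nat.card K : ℤ) * (-(m : ℤ) - 1) + 2 * (Nat.card K : ℤ) := by ring
    rw [h1, hw.per] at ih
    exact ih

/-- equal letters. PROOF: `inj` and `per_mul`. -/
theorem IsWord.eq_iff (hw : IsWord w) (i j : ℤ) : w i = w j ↔ (2 * Nat.card K : ℤ) ∣ i - j := by
  refine ⟨hw.inj i j, ?_⟩
  rintro ⟨m, hm⟩
  have h1 : i = j + 2 * Nat.card K * m := by linarith
  rw [h1, hw.per_mul]

theorem CombA_pos [Finite K] (w : ℤ → K × Bool) : 0 < Nat.card K := by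
  have : Nonempty K := ⟨(w 0).1⟩
  exact Nat.card_pos

/-- THE ENUMERATION ALONG THE FACE. PROOF: let `σ x` be the letter after `bar x`: `σ (w a) = w b` if
`w (b - 1) = bar (w a)` (well defined on letters by `inj`, `per`; choose for every letter `x` a position
`P x` with `w (P x) = x`, `σ x = w (P (bar x) + 1)`; then `σ (bar (w i)) = w (i + 1)` for all `i`). `σ` is injective
(`bar` and the successor are), so a permutation of the set of the `2 N` letters; by `face` every letter is of the form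
`σ^[t] x₀` for any `x₀` (`ReflTransGen` induction). Take `x₀ = σ j`, and let `n x` be the least `t` with
`σ^[t] (σ j) = x`. `n` is injective. The values `σ^[t] (σ j)` for `0 ≤ t < p`, `p` = minimal period of `σ j` under `σ`, are
all letters, so `p = 2 N` and `n x < 2 N`, and `σ^[2 N - 1] (σ j) = j` (as `σ^[2 N] (σ j) = σ j` and `σ` is injective), so
`n j = 2 N - 1`. For `x ≠ j`: `n x < 2 N - 1` (injectivity), `σ^[n x + 1] (σ j) = σ x` and `n x + 1 < 2 N` give
`n (σ x) = n x + 1` (the values for `t < 2 N` are distinct). With `x = bar (w i)`, `x ≠ j` iff `w i ≠ bar j`. -/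
theorem exists_n [Finite K] (hw : IsWord w) (j : K × Bool) :
    ∃ n : K × Bool → ℕ, Function.Injective n ∧ (∀ x, n x < 2 * Nat.card K) ∧
      ∀ i : ℤ, w i ≠ bar j → n (w (i + 1)) = n (bar (w i)) + 1 := by
  classical
  choose P hP using hw.surj
  let σ : K × Bool → K × Bool := fun x => w (P (bar x) + 1)
  have hσ : ∀ i, σ (bar (w i)) = w (i + 1) := by
    intro i
    show w (P (bar (bar (w i))) + 1) = w (i + 1)
    rw [bar_bar, hw.eq_iff]
    have h1 := hw.inj _ _ (hP (w i))
    have h2 : P (w i) + 1 - (i + 1) = P (w i) - i := by ring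
    rw [h2]
    exact h1
  have hσi : Function.Injective σ := by
    intro x y hxy
    have h1 := hw.inj _ _ hxy
    have h2 : P (bar x) + 1 - (P (bar y) + 1) = P (bar x) - P (bar y) := by ring
    rw [h2, ← hw.eq_iff, hP, hP] at h1
    exact bar_inj h1
  have hface : ∀ i k : ℤ, ∃ t : ℕ, σ^[t] (w i) = w k := by
    intro i k
    have h := hw.face i k
    induction h with
    | refl => exact ⟨0, rfl⟩
    | tail _ hbc ih =>
      rename_i b c _
      obtain ⟨t, ht⟩ := ih
      refine ⟨t + 1, ?_⟩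
      rw [Function.iterate_succ_apply', ht]
      have h1 : w b = bar (w (c - 1)) := by rw [hbc, bar_bar]
      rw [h1, hσ, sub_add_cancel]
  have hall : ∀ x y : K × Bool, ∃ t : ℕ, σ^[t] x = y := by
    intro x y
    obtain ⟨t, ht⟩ := hface (P x) (P y)
    rw [hP, hP] at ht
    exact ⟨t, ht⟩
  set x₀ := σ j with hx₀
  set p := Function.minimalPeriod σ x₀ with hp
  have hppos : 0 < p := Function.minimalPeriod_pos_of_mem_periodicPts (hσi.mem_periodicPts x₀)
  let n : K × Bool → ℕ := fun x => Nat.find (hall x₀ x)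
  have hn : ∀ x, σ^[n x] x₀ = x := fun x => Nat.find_spec (hall x₀ x)
  have hnp : ∀ x, n x < p := by
    intro x
    have h1 : σ^[n x % p] x₀ = x := by
      rw [Function.iterate_mod_minimalPeriod_eq, hn]
    exact lt_of_le_of_lt (Nat.find_min' (hall x₀ x) h1) (Nat.mod_lt _ hppos)
  have hninj : Function.Injective n := by
    intro x y hxy
    rw [← hn x, ← hn y, hxy]
  have huniq : ∀ t, t < p → n (σ^[t] x₀) = t := by
    intro t ht
    have h1 := hn (σ^[t] x₀)
    exact (Function.iterate_eq_iterate_iff_of_lt_minimalPeriod (hnp _) ht).1 h1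
  have hcard : p = 2 * Nat.card K := by
    let E : Fin p ≃ K × Bool :=
      { toFun := fun t => σ^[t] x₀
        invFun := fun x => ⟨n x, hnp x⟩
        left_inv := fun t => Fin.ext (huniq t t.2)
        right_inv := fun x => hn x }
    have h1 := Nat.card_congr E
    rw [Nat.card_fin, Nat.card_prod] at h1
    rw [h1, mul_comm]
    simp
  refine ⟨n, hninj, fun x => by rw [← hcard]; exact hnp x, ?_⟩
  intro i hi
  have hx : bar (w i) ≠ j := by
    intro h
    apply hi
    rw [← h, bar_bar]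
  set x := bar (w i) with hxdef
  have hσx : σ x = w (i + 1) := hσ i
  have hne : n x + 1 ≠ p := by
    intro h
    have h1 : σ^[n x + 1] x₀ = σ x := by rw [Function.iterate_succ_apply', hn]
    rw [h, hp, Function.iterate_minimalPeriod] at h1
    exact hx (hσi h1.symm)
  have hlt : n x + 1 < p := lt_of_le_of_ne (hnp x) hne
  have h1 := huniq (n x + 1) hlt
  rw [Function.iterate_succ_apply', hn, hσx] at h1
  exact h1

/-- no letter is followed by its inverse if there are at least two strips. PROOF: suppose `w (i + 1) = bar (w i)`.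
The moves of `face` from `a = i + 1`: `w (b - 1) = bar (w a) = w i`, so `b ≡ i + 1` mod `2 N`, and again from such `b`.
So all sectors reached from `i + 1` are congruent to `i + 1` mod `2 N`; but `i + 2` is not (`2 N ≥ 4`). -/
theorem IsWord.no_turn [Finite K] (hw : IsWord w) (hN : 2 ≤ Nat.card K) (i : ℤ) :
    w (i + 1) ≠ bar (w i) := by
  intro hcon
  have key : ∀ b, Relation.ReflTransGen (fun a b => w (b - 1) = bar (w a)) (i + 1) b →
      (2 * Nat.card K : ℤ) ∣ b - (i + 1) := by
    intro b hb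
    induction hb with
    | refl => rw [sub_self]; exact dvd_zero _
    | tail _ hbc ih =>
      rename_i b c _
      have h1 : w b = w (i + 1) := (hw.eq_iff _ _).2 ih
      rw [h1, hcon, bar_bar, hw.eq_iff] at hbc
      have h2 : c - (i + 1) = c - 1 - i := by ring
      rw [h2]
      exact hbc
  have h1 := key (i + 2) (hw.face _ _)
  have h2 : i + 2 - (i + 1) = 1 := by ring
  rw [h2] at h1
  have h3 := Int.le_of_dvd one_pos h1
  have h4 : (2 : ℤ) ≤ Nat.card K := by exact_mod_cast hN
  linarith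

theorem CombA_pos_of [Finite K] (hw : IsWord w) (i : ℤ) (x : K × Bool) :
    ∃ d : ℕ, d < 2 * Nat.card K ∧ w (i + d) = x := by
  have hK : (0 : ℤ) < 2 * Nat.card K := by
    have := CombA_pos w
    positivity
  obtain ⟨k, hk⟩ := hw.surj x
  have h1 : 0 ≤ (k - i) % (2 * Nat.card K : ℤ) := Int.emod_nonneg _ hK.ne'
  have h2 : (k - i) % (2 * Nat.card K : ℤ) < 2 * Nat.card K := Int.emod_lt_of_pos _ hK
  refine ⟨((k - i) % (2 * Nat.card K : ℤ)).toNat, by omega, ?_⟩
  rw [← hk, hw.eq_iff, Int.toNat_of_nonneg h1]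
  have h3 := Int.mul_ediv_add_emod (k - i) (2 * Nat.card K : ℤ)
  refine ⟨-((k - i) / (2 * Nat.card K : ℤ)), ?_⟩
  linarith

/-- A SHORTEST CHORD. PROOF: for every `i` there is `d` with `0 < d < 2 N` and `w (i + d) = bar (w i)`; take `i` and `d` with
the least `d`; `d ≥ 2` by `no_turn`. Put `k = w (i + 1)`. There is `q` with `0 ≤ q < 2 N`, `w (i + q) = bar k`; `q ≠ 0`
(otherwise `w (i + 1) = bar (w i)`), `q ≠ 1` (`bar k ≠ k`), and `w ((i + 1) + (q - 1)) = bar (w (i + 1))` with
`0 < q - 1 < 2 N` gives `d ≤ q - 1`, so `d < q`. -/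
theorem exists_chord [Finite K] (hw : IsWord w) (hN : 2 ≤ Nat.card K) :
    ∃ (i : ℤ) (d q : ℕ), 2 ≤ d ∧ d < q ∧ q < 2 * Nat.card K ∧ w (i + d) = bar (w i) ∧
      w (i + q) = bar (w (i + 1)) := by
  classical
  have hex : ∃ d : ℕ, ∃ i : ℤ, 0 < d ∧ d < 2 * Nat.card K ∧ w (i + d) = bar (w i) := by
    obtain ⟨d, hd, hwd⟩ := CombA_pos_of hw 0 (bar (w 0))
    refine ⟨d, 0, ?_, hd, hwd⟩
    rcases Nat.eq_zero_or_pos d with h | h
    · exfalso
      rw [h, Nat.cast_zero, add_zero] at hwd
      exact bar_ne (w 0) hwd.symm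
    · exact h
  obtain ⟨i, hd0, hd1, hd2⟩ := Nat.find_spec hex
  set d := Nat.find hex with hd
  obtain ⟨q, hq, hwq⟩ := CombA_pos_of hw i (bar (w (i + 1)))
  have hq0 : q ≠ 0 := by
    rintro rfl
    rw [Nat.cast_zero, add_zero] at hwq
    apply hw.no_turn hN i
    rw [hwq, bar_bar]
  have hq1 : q ≠ 1 := by
    rintro rfl
    rw [Nat.cast_one] at hwq
    exact bar_ne _ hwq.symm
  have hdq : d ≤ q - 1 := by
    refine Nat.find_min' hex ⟨i + 1, by omega, by omega, ?_⟩
    have h1 : i + 1 + ((q - 1 : ℕ) : ℤ) = i + q := by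
      have : ((q - 1 : ℕ) : ℤ) = (q : ℤ) - 1 := by omega
      rw [this]; ring
    rw [h1, hwq]
  have hd2' : 2 ≤ d := by
    by_contra hlt
    have h1 : d = 1 := by omega
    rw [h1, Nat.cast_one] at hd2
    exact hw.no_turn hN i hd2
  exact ⟨i, d, q, hd2', by omega, hq, hd2, hwq⟩

end Pool.Agent.H.MP_1611f1_gt.TR
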