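import Pool.Agent.H.MP_1611f1_gt.TR.Basic

/-!
The convex path from the identity to a homeomorphism; continuity of holonomies in a parameter; choice
of the strength.
-/

namespace Pool.Agent.H.MP_1611f1_gt.TR

open Topology Set Filter
open Pool.Agent.H.MP_1611f1_gt.PB (BL)

/-- the parameter `τ`, moved into `[0,1]` -/
noncomputable def cl (τ : ℝ) : ℝ := max 0 (min τ 1)

theorem cl_mem (τ : ℝ) : cl τ ∈ Icc (0 : ℝ) 1 := ⟨le_max_left _ _, max_le zero_le_one (min_le_right _ _)⟩

theorem cl_eq {τ : ℝ} (h : τ ∈ Icc (0 : ℝ) 1) : cl τ = τ := by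
  unfold cl
  rw [min_eq_left h.2, max_eq_right h.1]

theorem cl_cont : Continuous cl := continuous_const.max (continuous_id.min continuous_const)

/-- CONVEX PATH. PROOF: for `c = cl τ ∈ [0,1]` the map `x ↦ x + c (A x - x) = (1 - c) x + c A x` is continuous,
strictly increasing, commutes with `+1`, hence unbounded in both directions and surjective
(`StrictMono.orderIsoOfSurjective`, `Continuous.surjective` with the limits at `±∞` from the periodicity, or:
`A x - x` is bounded because it is continuous and periodic). Joint continuity: the formula. `BL (max M 1)`: the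
difference quotients are convex combinations of those of `A` and of `1`. `Rep`: `x + τ (A x - x)` is fixed, `> x`, `< x`
exactly where `A x` is (for `τ > 0`). -/
theorem exists_conv {A : ℝ ≃o ℝ} (hA : Per A) {M : ℝ} (hM : 1 ≤ M) (hB : BL M A) :
    ∃ F : ℝ → (ℝ ≃o ℝ), (∀ τ x, F τ x = x + cl τ * (A x - x)) ∧
      Continuous (fun q : ℝ × ℝ => F q.1 q.2) ∧ (∀ τ, Per (F τ)) ∧ (∀ τ, BL M (F τ)) ∧
      ∀ τ ∈ Ioc (0 : ℝ) 1, ∀ v, Rep A v → Rep (F τ) v := by
  have hmono : ∀ τ, StrictMono (fun x : ℝ => x + cl τ * (A x - x)) := by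
    intro τ x y hxy
    obtain ⟨c0, c1⟩ := cl_mem τ
    have h1 : 0 < A y - A x := sub_pos.2 (A.strictMono hxy)
    have h2 : 0 < y - x := sub_pos.2 hxy
    have h3 : 0 ≤ cl τ * (A y - A x) := mul_nonneg c0 h1.le
    have h4 : 0 ≤ (1 - cl τ) * (y - x) := mul_nonneg (by linarith) h2.le
    show x + cl τ * (A x - x) < y + cl τ * (A y - y)
    rcases eq_or_lt_of_le c0 with hc | hc
    · rw [← hc]
      linarith
    · have h5 : 0 < cl τ * (A y - A x) := mul_pos hc h1
      linarith
  have hcont : Continuous (fun q : ℝ × ℝ => q.2 + cl q.1 * (A q.2 - q.2)) := by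
    have h1 : Continuous fun q : ℝ × ℝ => cl q.1 := cl_cont.comp continuous_fst
    have h2 : Continuous fun q : ℝ × ℝ => A q.2 := A.continuous.comp continuous_snd
    fun_prop
  have hnat : ∀ τ (m : ℤ), (m : ℝ) + cl τ * (A m - m) = m + cl τ * A 0 := by
    intro τ m
    have h1 := hA.int 0 m
    rw [zero_add] at h1
    rw [h1]
    ring
  have hsurj : ∀ τ, Function.Surjective (fun x : ℝ => x + cl τ * (A x - x)) := by
    intro τ
    have hc : Continuous (fun x : ℝ => x + cl τ * (A x - x)) := by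
      have := A.continuous
      fun_prop
    refine hc.surjective ?_ ?_
    · refine tendsto_atTop_atTop_of_monotone (hmono τ).monotone fun b => ?_
      obtain ⟨m, hm⟩ := exists_int_gt (b - cl τ * A 0)
      refine ⟨m, ?_⟩
      show b ≤ (m : ℝ) + cl τ * (A m - m)
      rw [hnat]
      linarith
    · refine tendsto_atBot_atBot_of_monotone (hmono τ).monotone fun b => ?_
      obtain ⟨m, hm⟩ := exists_int_lt (b - cl τ * A 0)
      refine ⟨m, ?_⟩
      show (m : ℝ) + cl τ * (A m - m) ≤ b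
      rw [hnat]
      linarith
  have hF : ∀ τ x, (StrictMono.orderIsoOfSurjective _ (hmono τ) (hsurj τ)) x
      = x + cl τ * (A x - x) := fun τ x => rfl
  refine ⟨fun τ => StrictMono.orderIsoOfSurjective _ (hmono τ) (hsurj τ), hF, hcont, ?_, ?_, ?_⟩
  · intro τ x
    rw [hF, hF, hA x]
    ring
  · intro τ x y hxy
    obtain ⟨a1, a2⟩ := hB x y hxy
    obtain ⟨c0, c1⟩ := cl_mem τ
    have h2 : 0 ≤ y - x := sub_nonneg.2 hxy
    have h3 := mul_le_mul_of_nonneg_left a1 c0
    have h4 := mul_le_mul_of_nonneg_left a2 c0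
    have h5 : 0 ≤ (1 - cl τ) * (y - x) := mul_nonneg (by linarith) h2
    have h6 : 0 ≤ (M - 1) * ((1 - cl τ) * (y - x)) := mul_nonneg (by linarith) h5
    rw [hF, hF]
    constructor
    · have e : M * (y + cl τ * (A y - y) - (x + cl τ * (A x - x)))
          = cl τ * (M * (A y - A x)) + (M - 1) * ((1 - cl τ) * (y - x))
            + (1 - cl τ) * (y - x) := by ring
      rw [e]
      linarith
    · have e : M * (y - x) = cl τ * (M * (y - x)) + (M - 1) * ((1 - cl τ) * (y - x))
            + (1 - cl τ) * (y - x) := by ring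
      rw [e]
      linarith
  · intro τ hτ v hv
    obtain ⟨hfix, ε, hε, hr, hl⟩ := hv
    have hc : cl τ = τ := cl_eq ⟨hτ.1.le, hτ.2⟩
    refine ⟨?_, ε, hε, ?_, ?_⟩
    · rw [hF, hfix]
      ring
    · intro x hx
      have h1 := mul_pos hτ.1 (sub_pos.2 (hr x hx))
      rw [hF, hc]
      linarith
    · intro x hx
      have h1 := mul_pos hτ.1 (sub_pos.2 (hl x hx))
      rw [hF, hc]
      have e : τ * (x - A x) = -(τ * (A x - x)) := by ring
      rw [e] at h1
      linarith

theorem Conv_sg {K : Type*} {F : ℝ → K → (ℝ ≃o ℝ)}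
    (hF : ∀ e, Continuous (fun q : ℝ × ℝ => F q.1 e q.2)) (y : K × Bool) :
    Continuous (fun q : ℝ × ℝ => sg (F q.1) y q.2) := by
  obtain ⟨e, b⟩ := y
  cases b
  · exact PB.symm_jcont (F := fun τ => F τ e) (hF e)
  · exact hF e

/-- joint continuity of the holonomy of a word. PROOF: induction on the word;
`hol (F q.1) (y :: l) q.2 = hol (F q.1) l (sg (F q.1) y q.2)`, and `sg (F q.1) y q.2` is jointly continuous: for a
positive letter by hypothesis, for a negative letter by `PB.symm_jcont`. -/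
theorem hol_jcont {K : Type*} {F : ℝ → K → (ℝ ≃o ℝ)}
    (hF : ∀ e, Continuous (fun q : ℝ × ℝ => F q.1 e q.2)) (l : List (K × Bool)) :
    Continuous (fun q : ℝ × ℝ => hol (F q.1) l q.2) := by
  induction l with
  | nil => exact continuous_snd
  | cons y l ih =>
    have h1 : Continuous fun q : ℝ × ℝ => ((q.1, sg (F q.1) y q.2) : ℝ × ℝ) :=
      continuous_fst.prodMk (Conv_sg hF y)
    exact Continuous.comp (g := fun q : ℝ × ℝ => hol (F q.1) l q.2) ih h1

theorem Conv_hol_id {K : Type*} {A : K → (ℝ ≃o ℝ)} (h0 : ∀ e x, A e x = x)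
    (l : List (K × Bool)) (x : ℝ) : hol A l x = x := by
  induction l generalizing x with
  | nil => rfl
  | cons y l ih =>
    rw [hol_cons, ih]
    obtain ⟨e, b⟩ := y
    cases b
    · rw [sg_false, OrderIso.symm_apply_eq, h0]
    · rw [sg_true, h0]

/-- CHOICE OF THE STRENGTH. PROOF: `f τ = hol (F τ) l E - E` is continuous, `f 0 = 0`. If `s < 1`: `|f 0 - s| < 1`, so
`|f τ - s| < 1` for all small `τ > 0`. If `1 ≤ s`: `f 1 ≥ D > s - 1`; if `f 1 < s + 1` take `τ = 1`, otherwise
`f 0 = 0 ≤ s ≤ f 1` and the intermediate value theorem gives `τ` with `f τ = s` (`τ ≠ 0` because `s ≥ 1`). -/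
theorem exists_strength {K : Type*} {F : ℝ → K → (ℝ ≃o ℝ)}
    (hF : ∀ e, Continuous (fun q : ℝ × ℝ => F q.1 e q.2)) (h0 : ∀ e x, F 0 e x = x)
    (l : List (K × Bool)) {E s D : ℝ} (h1 : D ≤ hol (F 1) l E - E) (hs : 0 ≤ s) (hs1 : s < 1 + D) :
    ∃ τ ∈ Ioc (0 : ℝ) 1, |hol (F τ) l E - E - s| < 1 := by
  have hc : Continuous fun τ : ℝ => hol (F τ) l E - E := by
    have h2 : Continuous fun τ : ℝ => ((τ, E) : ℝ × ℝ) := continuous_id.prodMk continuous_const
    have h3 : Continuous fun τ : ℝ => hol (F τ) l E :=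
      Continuous.comp (g := fun q : ℝ × ℝ => hol (F q.1) l q.2) (hol_jcont hF l) h2
    exact h3.sub continuous_const
  have hz : hol (F 0) l E - E = 0 := by rw [Conv_hol_id h0 l E, sub_self]
  rcases lt_or_ge s 1 with h | h
  · have h2 : ∀ᶠ τ in 𝓝 (0 : ℝ), |hol (F τ) l E - E - s| < 1 := by
      have h3 : Continuous fun τ : ℝ => |hol (F τ) l E - E - s| := (hc.sub continuous_const).abs
      refine h3.continuousAt.eventually_lt continuousAt_const ?_
      rw [hz, zero_sub, abs_neg, abs_of_nonneg hs]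
      exact h
    have h3 : ∀ᶠ τ in 𝓝[>] (0 : ℝ), |hol (F τ) l E - E - s| < 1 :=
      h2.filter_mono nhdsWithin_le_nhds
    have h4 : ∀ᶠ τ in 𝓝[>] (0 : ℝ), τ ∈ Ioc (0 : ℝ) 1 := Ioc_mem_nhdsGT one_pos
    obtain ⟨τ, h5, h6⟩ := (h3.and h4).exists
    exact ⟨τ, h6, h5⟩
  · rcases lt_or_ge (hol (F 1) l E - E) (s + 1) with h2 | h2
    · refine ⟨1, ⟨one_pos, le_refl _⟩, ?_⟩
      rw [abs_lt]
      constructor <;> linarith
    · have h3 := intermediate_value_Icc (zero_le_one (α := ℝ)) hc.continuousOn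
      have h4 : s ∈ Icc (hol (F 0) l E - E) (hol (F 1) l E - E) := by
        rw [hz]
        exact ⟨hs, by linarith⟩
      obtain ⟨τ, hτ, he⟩ := h3 h4
      have he' : hol (F τ) l E - E = s := he
      refine ⟨τ, ⟨lt_of_le_of_ne hτ.1 ?_, hτ.2⟩, ?_⟩
      · intro h5
        rw [← h5, hz] at he'
        linarith
      · rw [he', sub_self, abs_zero]
        exact one_pos

/-- bi-Lipschitz bounds for holonomies. PROOF: induction, `BL.symm`, `BL.comp` (composition `hol A l ∘ sg A y`),
`BL.id` with `BL.mono` for the empty word; take products of the constants. -/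
theorem hol_BL {K : Type*} {A : K → ℝ ≃o ℝ} (hA : ∀ e, ∃ M, 1 ≤ M ∧ BL M (A e))
    (l : List (K × Bool)) : ∃ M, 1 ≤ M ∧ BL M (hol A l) := by
  induction l with
  | nil =>
    refine ⟨1, le_refl _, fun x y hxy => ?_⟩
    rw [hol_nil, hol_nil]
    constructor <;> linarith
  | cons y l ih =>
    obtain ⟨M, hM, hB⟩ := ih
    have hN : ∃ N, 1 ≤ N ∧ BL N (sg A y) := by
      obtain ⟨e, b⟩ := y
      obtain ⟨N, hN, hN'⟩ := hA e
      cases b
      · exact ⟨N, hN, PB.BL.symm hN'⟩
      · exact ⟨N, hN, hN'⟩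
    obtain ⟨N, hN, hC⟩ := hN
    have h1 := PB.BL.comp (by linarith) (by linarith) (sg A y).monotone hB hC
    exact ⟨M * N, by nlinarith, h1⟩

end Pool.Agent.H.MP_1611f1_gt.TR
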