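import Pool.Agent.H.MP_1611f1_gt.TR.Stair

/-!
Staircases composed with bi-Lipschitz maps have exactly two fixed orbits.
-/

namespace Pool.Agent.H.MP_1611f1_gt.TR

open Topology Set Filter
open Pool.Agent.H.MP_1611f1_gt.PB (BL)

/-- A variant of `PB.stair_two` (file PB/Two.lean; here `N' = 0`, and the mark is the point `t`, not `β U'`).
`β` is a staircase with the step at `ψ` and the value `≈ ζ` on the flat part `(ψ, ψ+1)`; `R ζ` and `R t` are in the
flat part, `t < ζ`, with distances `≥ d`; `μ ≤ d / (8 M)`. Then `F = β ∘ R` has exactly one repelling fixed point `r` and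
one attracting fixed point `a` modulo one, and `r < t < a`.
PROOF: copy the proof of `PB.stair_two`: `xl = R.symm (ψ - μ)`, `xh = R.symm (ψ + μ)`; `F x - x` is strictly increasing on
`[xl, xh]` (slopes `≥ (1-μ)/(2 μ M) > 1`), strictly decreasing on `[xh, xl + 1]` (slopes `≤ μ M < 1`); `F xh > xh`, `F xl < xl` as
there (they use only the distances of `R ζ` from `ψ` and `ψ + 1` and `|ζ - υ| ≤ ...`: `υ ∈ (ψ + d, ψ + 1 - d)`). `t` is in
`(xl, xl + 1)` because `R t ∈ [ψ + d, ψ + 1 - d]`, and `F t = ζ + μ (R t - υ) ≥ ζ - μ > t` because `t ≤ ζ - d`. Apply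
`PB.two_fixed` with this `t`. -/
theorem stair_two' {ψ ζ υ μ d M t : ℝ} {β R : ℝ ≃o ℝ} (hβ : Per β)
    (hβ1 : ∀ x ∈ Icc (ψ + μ) (ψ + 1 - μ), β x = ζ + μ * (x - υ))
    (hβ2 : ∀ x ∈ Icc (ψ - μ) (ψ + μ), ∀ y ∈ Icc (ψ - μ) (ψ + μ), x ≤ y →
        (1 - μ) / (2 * μ) * (y - x) ≤ β y - β x)
    (hR : Per R) (hM : 1 ≤ M) (hRM : BL M R) (hd : 0 < d) (hd1 : d ≤ 1)
    (hμ : 0 < μ) (hμ1 : μ ≤ d / (8 * M)) (hυ1 : ψ + d ≤ υ) (hυ2 : υ + d ≤ ψ + 1)
    (hζ1 : ψ + d ≤ R ζ) (hζ2 : R ζ + d ≤ ψ + 1) (ht1 : ψ + d ≤ R t) (ht2 : R t + d ≤ ψ + 1)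
    (ht3 : t + d ≤ ζ) :
    ∃ r a : ℝ, r < t ∧ t < a ∧ a < r + 1 ∧ β (R r) = r ∧ β (R a) = a ∧
      (∀ x ∈ Ioo r a, x < β (R x)) ∧ ∀ x ∈ Ioo a (r + 1), β (R x) < x := by
  have hM0 : 0 < M := by linarith
  have hμM : μ * M ≤ d / 8 := by
    have h : d / (8 * M) * M = d / 8 := by field_simp
    rw [← h]
    exact mul_le_mul_of_nonneg_right hμ1 hM0.le
  have hμd : μ ≤ d / 8 := by nlinarith
  have hμM1 : μ * M ≤ 1 / 8 := by linarith
  obtain ⟨F, hFd⟩ : ∃ F : ℝ ≃o ℝ, ∀ x, F x = β (R x) := ⟨R.trans β, fun x => rfl⟩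
  have hF : ∀ x, F (x + 1) = F x + 1 := by
    intro x
    rw [hFd, hFd, hR, hβ]
  obtain ⟨xl, hxl⟩ : ∃ xl, R xl = ψ - μ := R.surjective _
  obtain ⟨xh, hxh⟩ : ∃ xh, R xh = ψ + μ := R.surjective _
  have hxl1 : R (xl + 1) = ψ + 1 - μ := by rw [hR, hxl]; ring
  have e1 : xl < xh := by
    rw [← R.lt_iff_lt, hxl, hxh]
    linarith
  have e2 : xh < xl + 1 := by
    rw [← R.lt_iff_lt, hxh, hxl1]
    linarith
  have z1 : xh < ζ := by
    rw [← R.lt_iff_lt, hxh]
    linarith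
  have z2 : ζ < xl + 1 := by
    rw [← R.lt_iff_lt, hxl1]
    linarith
  have z3 : R ζ - R xh ≤ M * (ζ - xh) := (hRM xh ζ z1.le).2
  have z4 : R (xl + 1) - R ζ ≤ M * (xl + 1 - ζ) := (hRM ζ (xl + 1) z2.le).2
  have inc : StrictMonoOn (fun x => F x - x) (Icc xl xh) := by
    intro x hx y hy hxy
    have h3 : R x ∈ Icc (ψ - μ) (ψ + μ) := by
      have h4 := R.monotone hx.1
      have h5 := R.monotone hx.2
      constructor <;> linarith
    have h3' : R y ∈ Icc (ψ - μ) (ψ + μ) := by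
      have h4 := R.monotone hy.1
      have h5 := R.monotone hy.2
      constructor <;> linarith
    have h6 := R.strictMono hxy
    have h7 := hβ2 _ h3 _ h3' (by linarith)
    have h8 := (hRM x y hxy.le).1
    have h9 : (y - x) < (1 - μ) / (2 * μ) * (R y - R x) := by
      rw [div_mul_eq_mul_div, lt_div_iff₀ (by linarith)]
      have h11 : (y - x) * (2 * μ) ≤ M * (R y - R x) * (2 * μ) :=
        mul_le_mul_of_nonneg_right h8 (by linarith)
      have h12 : M * (R y - R x) * (2 * μ) = 2 * (μ * M) * (R y - R x) := by ring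
      have h13 : 2 * (μ * M) * (R y - R x) < (1 - μ) * (R y - R x) :=
        mul_lt_mul_of_pos_right (by linarith) (by linarith)
      linarith
    show F x - x < F y - y
    rw [hFd, hFd]
    linarith
  have dec : StrictAntiOn (fun x => F x - x) (Icc xh (xl + 1)) := by
    intro x hx y hy hxy
    have h3 : R x ∈ Icc (ψ + μ) (ψ + 1 - μ) := by
      have h4 := R.monotone hx.1
      have h5 := R.monotone hx.2
      constructor <;> linarith
    have h3' : R y ∈ Icc (ψ + μ) (ψ + 1 - μ) := by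
      have h4 := R.monotone hy.1
      have h5 := R.monotone hy.2
      constructor <;> linarith
    have h8 := (hRM x y hxy.le).2
    have h9 : μ * (R y - R x) ≤ μ * (M * (y - x)) := mul_le_mul_of_nonneg_left h8 hμ.le
    have h10 : μ * (M * (y - x)) = μ * M * (y - x) := by ring
    have h11 : μ * M * (y - x) < 1 * (y - x) :=
      mul_lt_mul_of_pos_right (by linarith) (by linarith)
    show F y - y < F x - x
    rw [hFd, hFd, hβ1 _ h3, hβ1 _ h3']
    have h12 : μ * (R y - υ) - μ * (R x - υ) = μ * (R y - R x) := by ring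
    linarith
  have hh : xh < F xh := by
    rw [hFd, hxh, hβ1 (ψ + μ) ⟨le_rfl, by linarith⟩]
    have h3 : d - μ ≤ M * (ζ - xh) := by linarith
    have h4 : μ * (υ - ψ - μ) ≤ μ * 1 := mul_le_mul_of_nonneg_left (by linarith) hμ.le
    have h5 : M * μ < M * (ζ - xh) := by nlinarith
    have h6 : μ < ζ - xh := lt_of_mul_lt_mul_left h5 hM0.le
    linarith
  have hl : F xl < xl := by
    have h0 := hF xl
    rw [hFd (xl + 1), hxl1, hβ1 (ψ + 1 - μ) ⟨by linarith, le_rfl⟩] at h0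
    have h3 : d - μ ≤ M * (xl + 1 - ζ) := by linarith
    have h4 : μ * (ψ + 1 - μ - υ) ≤ μ * 1 := mul_le_mul_of_nonneg_left (by linarith) hμ.le
    have h5 : M * μ < M * (xl + 1 - ζ) := by nlinarith
    have h6 : μ < xl + 1 - ζ := lt_of_mul_lt_mul_left h5 hM0.le
    linarith
  have htm : t ∈ Ioo xl (xl + 1) := by
    constructor
    · rw [← R.lt_iff_lt, hxl]
      linarith
    · rw [← R.lt_iff_lt, hxl1]
      linarith
  have hFt : t < F t := by
    rw [hFd, hβ1 (R t) ⟨by linarith, by linarith⟩]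
    have h3 : -(μ * 1) ≤ μ * (R t - υ) := by
      rw [← mul_neg]
      exact mul_le_mul_of_nonneg_left (by linarith) hμ.le
    linarith
  obtain ⟨r, a, c1, c2, c3, c4, c5, c6, c7⟩ := PB.two_fixed hF e1 e2 inc dec hl hh htm hFt
  refine ⟨r, a, c1, c2, c3, ?_, ?_, ?_, ?_⟩
  · rw [← hFd, c4]
  · rw [← hFd, c5]
  · intro x hx
    rw [← hFd]
    exact c6 x hx
  · intro x hx
    rw [← hFd]
    exact c7 x hx

end Pool.Agent.H.MP_1611f1_gt.TR
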