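import Pool.Agent.H.MP_1611f1_gt.TR.Basic
import Pool.Agent.H.MP_1611f1_gt.PB.ConjTwo

/-!
The conjugacy lemma with a prescribed strongly repelling germ.
-/

namespace Pool.Agent.H.MP_1611f1_gt.TR

open Topology Set Filter

/-- an increasing continuous function with prescribed values at three points which dominates a
given one near the middle point -/
theorem Germ_fit (φ : ℝ → ℝ) (hφ : StrictMono φ) (hφc : Continuous φ) {p c q p' c' q' : ℝ}
    (hpc : p < c) (hcq : c < q) (hpc' : p' < c') (hcq' : c' < q') (hc : φ c = c') :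
    ∃ κ : ℝ → ℝ, StrictMono κ ∧ Continuous κ ∧ κ p = p' ∧ κ c = c' ∧ κ q = q' ∧
      ∃ ε > 0, (∀ x ∈ Ioo c (c + ε), φ x ≤ κ x) ∧ ∀ x ∈ Ioo (c - ε) c, κ x ≤ φ x := by
  have hline : ∀ s t s' t' : ℝ, s < t → s' < t' →
      StrictMono (fun x => s' + (x - s) / (t - s) * (t' - s')) := by
    intro s t s' t' h h' x y hxy
    have h1 : 0 < t - s := by linarith
    have h2 : 0 < t' - s' := by linarith
    have h3 : (x - s) / (t - s) < (y - s) / (t - s) :=
      div_lt_div_of_pos_right (by linarith) h1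
    have h4 := mul_lt_mul_of_pos_right h3 h2
    show s' + (x - s) / (t - s) * (t' - s') < s' + (y - s) / (t - s) * (t' - s')
    linarith
  have hlinec : ∀ s t s' t' : ℝ, Continuous (fun x => s' + (x - s) / (t - s) * (t' - s')) := by
    intro s t s' t'
    fun_prop
  set m : ℝ := (c' + q') / 2 with hm
  set n : ℝ := (c' + p') / 2 with hn
  set L1 : ℝ → ℝ := fun x => c' + (x - c) / (q - c) * (q' - c') with hL1
  set L2 : ℝ → ℝ := fun x => m + (x - c) / (q - c) * (q' - m) with hL2
  set M1 : ℝ → ℝ := fun x => p' + (x - p) / (c - p) * (c' - p') with hM1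
  set M2 : ℝ → ℝ := fun x => p' + (x - p) / (c - p) * (n - p') with hM2
  have hqc : q - c ≠ 0 := by linarith
  have hcp : c - p ≠ 0 := by linarith
  have L1c : L1 c = c' := by simp [hL1]
  have L2c : L2 c = m := by simp [hL2]
  have L1q : L1 q = q' := by simp only [hL1]; rw [div_self hqc]; ring
  have L2q : L2 q = q' := by simp only [hL2]; rw [div_self hqc]; ring
  have M1c : M1 c = c' := by simp only [hM1]; rw [div_self hcp]; ring
  have M2c : M2 c = n := by simp only [hM2]; rw [div_self hcp]; ring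
  have M1p : M1 p = p' := by simp [hM1]
  have M2p : M2 p = p' := by simp [hM2]
  have L1m : StrictMono L1 := hline c q c' q' hcq hcq'
  have L2m : StrictMono L2 := hline c q m q' hcq (by rw [hm]; linarith)
  have M1m : StrictMono M1 := hline p c p' c' hpc hpc'
  have M2m : StrictMono M2 := hline p c p' n hpc (by rw [hn]; linarith)
  have L1k : Continuous L1 := hlinec c q c' q'
  have L2k : Continuous L2 := hlinec c q m q'
  have M1k : Continuous M1 := hlinec p c p' c'
  have M2k : Continuous M2 := hlinec p c p' n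
  set P : ℝ → ℝ := fun x => min (max (φ x) (L1 x)) (L2 x) with hP
  set Q : ℝ → ℝ := fun x => max (min (φ x) (M1 x)) (M2 x) with hQ
  have Pm : StrictMono P := fun x y hxy =>
    min_lt_min (max_lt_max (hφ hxy) (L1m hxy)) (L2m hxy)
  have Qm : StrictMono Q := fun x y hxy =>
    max_lt_max (min_lt_min (hφ hxy) (M1m hxy)) (M2m hxy)
  have Pk : Continuous P := (hφc.max L1k).min L2k
  have Qk : Continuous Q := (hφc.min M1k).max M2k
  have Pc : P c = c' := by
    show min (max (φ c) (L1 c)) (L2 c) = c'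
    rw [hc, L1c, L2c, max_self, min_eq_left]
    rw [hm]; linarith
  have Qc : Q c = c' := by
    show max (min (φ c) (M1 c)) (M2 c) = c'
    rw [hc, M1c, M2c, min_self, max_eq_left]
    rw [hn]; linarith
  have Pq : P q = q' := by
    show min (max (φ q) (L1 q)) (L2 q) = q'
    rw [L1q, L2q, min_eq_right]
    exact le_max_right _ _
  have Qp : Q p = p' := by
    show max (min (φ p) (M1 p)) (M2 p) = p'
    rw [M1p, M2p, max_eq_right]
    exact min_le_right _ _
  have hge : ∀ x, c ≤ x → P (max x c) + Q (min x c) - c' = P x := by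
    intro x hx
    rw [max_eq_left hx, min_eq_right hx, Qc]
    ring
  have hle : ∀ x, x ≤ c → P (max x c) + Q (min x c) - c' = Q x := by
    intro x hx
    rw [max_eq_right hx, min_eq_left hx, Pc]
    ring
  refine ⟨fun x => P (max x c) + Q (min x c) - c', ?_, ?_, ?_, ?_, ?_, ?_⟩
  · intro x y hxy
    show P (max x c) + Q (min x c) - c' < P (max y c) + Q (min y c) - c'
    rcases le_total y c with hy | hy
    · rw [hle x (by linarith), hle y hy]
      exact Qm hxy
    · rcases le_total c x with hx | hx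
      · rw [hge x hx, hge y hy]
        exact Pm hxy
      · rw [hle x hx, hge y hy]
        have h1 : Q x ≤ Q c := Qm.monotone hx
        have h2 : P c ≤ P y := Pm.monotone hy
        rcases hx.eq_or_lt with h | h
        · have h3 : P c < P y := Pm (h ▸ hxy)
          linarith
        · have h3 : Q x < Q c := Qm h
          linarith
  · exact ((Pk.comp (continuous_id.max continuous_const)).add
      (Qk.comp (continuous_id.min continuous_const))).sub continuous_const
  · show P (max p c) + Q (min p c) - c' = p'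
    rw [hle p hpc.le, Qp]
  · show P (max c c) + Q (min c c) - c' = c'
    rw [hle c le_rfl, Qc]
  · show P (max q c) + Q (min q c) - c' = q'
    rw [hge q hcq.le, Pq]
  · have h1 : ∀ᶠ x in 𝓝 c, φ x < m := by
      have h2 : φ c < m := by rw [hc, hm]; linarith
      exact hφc.continuousAt.eventually_lt continuousAt_const h2
    have h2 : ∀ᶠ x in 𝓝 c, n < φ x := by
      have h2 : n < φ c := by rw [hc, hn]; linarith
      exact continuousAt_const.eventually_lt hφc.continuousAt h2
    obtain ⟨ε, hε, hε2⟩ := Metric.eventually_nhds_iff.1 (h1.and h2)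
    refine ⟨ε, hε, fun x hx => ?_, fun x hx => ?_⟩
    · show φ x ≤ P (max x c) + Q (min x c) - c'
      rw [hge x hx.1.le]
      show φ x ≤ min (max (φ x) (L1 x)) (L2 x)
      have h3 : dist x c < ε := by
        rw [Real.dist_eq, abs_of_pos (by linarith [hx.1])]
        linarith [hx.2]
      have h4 := (hε2 h3).1
      have h5 : L2 c ≤ L2 x := L2m.monotone hx.1.le
      rw [L2c] at h5
      exact le_min (le_max_left _ _) (by linarith)
    · show P (max x c) + Q (min x c) - c' ≤ φ x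
      rw [hle x hx.2.le]
      show max (min (φ x) (M1 x)) (M2 x) ≤ φ x
      have h3 : dist x c < ε := by
        rw [Real.dist_eq, abs_of_neg (by linarith [hx.2])]
        linarith [hx.1]
      have h4 := (hε2 h3).2
      have h5 : M2 x ≤ M2 c := M2m.monotone hx.2.le
      rw [M2c] at h5
      exact max_le (min_le_left _ _) (by linarith)

/-- the conjugacy on the arc with the prescribed germ -/
theorem Germ_conj_Ioo (f g : ℝ ≃o ℝ) {a b a' b' : ℝ}
    (fa : f a = a) (fb : f b = b) (ga : g a' = a') (gb : g b' = b')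
    (f1 : ∀ x ∈ Ioo a b, x < f x) (g1 : ∀ x ∈ Ioo a' b', x < g x)
    (c c' : ℝ) (hc : c ∈ Ioo a b) (hc' : c' ∈ Ioo a' b') (γ : ℝ ≃o ℝ) (hγ : γ c = c') :
    ∃ U : ℝ → ℝ, StrictMonoOn U (Ioo a b) ∧ U '' Ioo a b = Ioo a' b' ∧ U c = c' ∧
      (∀ x ∈ Ioo a b, U (f x) = g (U x)) ∧
      ∃ ε > 0, (∀ x ∈ Ioo c (c + ε), γ x < U x) ∧ ∀ x ∈ Ioo (c - ε) c, U x < γ x := by
  classical
  obtain ⟨F, F1, F2, F4, F3⟩ := PB.exists_param f fa fb f1 c hc
  obtain ⟨G, G1, G2, G4, G3⟩ := PB.exists_param g ga gb g1 c' hc'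
  have hinvF : ∀ t, Function.invFun F (F t) = t := Function.leftInverse_invFun F1.injective
  have hinvG : ∀ t, Function.invFun G (G t) = t := Function.leftInverse_invFun G1.injective
  set s : ℝ := -1 / 2 with hs
  have hs0 : s < 0 := by rw [hs]; norm_num
  have hs1 : 0 < s + 1 := by rw [hs]; norm_num
  have hpc : F s < c := by rw [← F4]; exact F1 hs0
  have hcq : c < F (s + 1) := by rw [← F4]; exact F1 hs1
  have hpc' : G s < c' := by rw [← G4]; exact G1 hs0
  have hcq' : c' < G (s + 1) := by rw [← G4]; exact G1 hs1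
  have hφm : StrictMono (fun x => γ x + (x - c)) := by
    intro x y hxy
    have h1 := γ.strictMono hxy
    show γ x + (x - c) < γ y + (y - c)
    linarith
  have hφk : Continuous (fun x => γ x + (x - c)) := by
    exact γ.continuous.add (continuous_id.sub continuous_const)
  obtain ⟨κ, κm, κk, κp, κc, κq, ε, hε, κ1, κ2⟩ :=
    Germ_fit (fun x => γ x + (x - c)) hφm hφk hpc hcq hpc' hcq' (by
      show γ c + (c - c) = c'
      rw [hγ]; ring)
  have hFr : ∀ t, F t ∈ Ioo a b := fun t => by rw [← F2]; exact mem_range_self t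
  have hGr : ∀ t, G t ∈ Ioo a' b' := fun t => by rw [← G2]; exact mem_range_self t
  have hFI : ∀ x ∈ Ico (F s) (F (s + 1)), ∃ t ∈ Ico s (s + 1), F t = x := by
    intro x hx
    have h1 : x ∈ Ioo a b := ⟨(hFr s).1.trans_le hx.1, hx.2.trans (hFr (s + 1)).2⟩
    rw [← F2] at h1
    obtain ⟨t, rfl⟩ := h1
    exact ⟨t, ⟨F1.le_iff_le.1 hx.1, F1.lt_iff_lt.1 hx.2⟩, rfl⟩
  have hGI : ∀ x ∈ Ico (G s) (G (s + 1)), ∃ t ∈ Ico s (s + 1), G t = x := by
    intro x hx
    have h1 : x ∈ Ioo a' b' := ⟨(hGr s).1.trans_le hx.1, hx.2.trans (hGr (s + 1)).2⟩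
    rw [← G2] at h1
    obtain ⟨t, rfl⟩ := h1
    exact ⟨t, ⟨G1.le_iff_le.1 hx.1, G1.lt_iff_lt.1 hx.2⟩, rfl⟩
  have hκI : ∀ t ∈ Ico s (s + 1), ∃ r ∈ Ico s (s + 1), G r = κ (F t) := by
    intro t ht
    apply hGI
    constructor
    · rw [← κp]; exact κm.monotone (F1.monotone ht.1)
    · rw [← κq]; exact κm (F1 ht.2)
  set k : ℝ → ℝ := fun t => Function.invFun G (κ (F t)) with hk
  have hGk : ∀ t ∈ Ico s (s + 1), G (k t) = κ (F t) := by
    intro t ht
    obtain ⟨r, hr, hr2⟩ := hκI t ht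
    show G (Function.invFun G (κ (F t))) = κ (F t)
    rw [← hr2, hinvG]
  have hkm : StrictMonoOn k (Ico s (s + 1)) := by
    intro t ht t' ht' htt'
    rw [← G1.lt_iff_lt, hGk t ht, hGk t' ht']
    exact κm (F1 htt')
  have hki : k '' Ico s (s + 1) = Ico s (s + 1) := by
    ext r
    constructor
    · rintro ⟨t, ht, rfl⟩
      obtain ⟨r, hr, hr2⟩ := hκI t ht
      show Function.invFun G (κ (F t)) ∈ Ico s (s + 1)
      rw [← hr2, hinvG]
      exact hr
    · intro hr
      have h1 : G r ∈ Ico (κ (F s)) (κ (F (s + 1))) := by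
        rw [κp, κq]
        exact ⟨G1.monotone hr.1, G1 hr.2⟩
      obtain ⟨x, hx, hxr⟩ := intermediate_value_Ico (hpc.trans hcq).le κk.continuousOn h1
      obtain ⟨t, ht, rfl⟩ := hFI x hx
      refine ⟨t, ht, ?_⟩
      show Function.invFun G (κ (F t)) = r
      rw [hxr, hinvG]
  obtain ⟨Z, Z1, Z2⟩ := PB.exists_extend k s s hkm hki
  have hU : ∀ t, G (Z (Function.invFun F (F t))) = G (Z t) := fun t => by rw [hinvF]
  have hUκ : ∀ x ∈ Ico (F s) (F (s + 1)), G (Z (Function.invFun F x)) = κ x := by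
    intro x hx
    obtain ⟨t, ht, rfl⟩ := hFI x hx
    rw [hU, Z2 t ht, hGk t ht]
  refine ⟨fun x => G (Z (Function.invFun F x)), ?_, ?_, ?_, ?_, ?_⟩
  · intro x hx y hy hxy
    rw [← F2] at hx hy
    obtain ⟨t, rfl⟩ := hx
    obtain ⟨r, rfl⟩ := hy
    show G (Z (Function.invFun F (F t))) < G (Z (Function.invFun F (F r)))
    rw [hU, hU]
    exact G1 (Z.strictMono (F1.lt_iff_lt.mp hxy))
  · ext y
    constructor
    · rintro ⟨x, _, rfl⟩
      exact hGr _
    · intro hy
      rw [← G2] at hy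
      obtain ⟨r, rfl⟩ := hy
      refine ⟨F (Z.symm r), hFr _, ?_⟩
      show G (Z (Function.invFun F (F (Z.symm r)))) = G r
      rw [hU, OrderIso.apply_symm_apply]
  · show G (Z (Function.invFun F c)) = c'
    rw [hUκ c ⟨hpc.le, hcq⟩, κc]
  · intro x hx
    rw [← F2] at hx
    obtain ⟨t, rfl⟩ := hx
    show G (Z (Function.invFun F (f (F t)))) = g (G (Z (Function.invFun F (F t))))
    rw [← F3, hU, hU, Z1, G3]
  · refine ⟨min ε (min (c - F s) (F (s + 1) - c)), ?_, ?_, ?_⟩
    · exact lt_min hε (lt_min (by linarith) (by linarith))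
    · intro x hx
      have h1 : min ε (min (c - F s) (F (s + 1) - c)) ≤ ε := min_le_left _ _
      have h2 : min ε (min (c - F s) (F (s + 1) - c)) ≤ F (s + 1) - c :=
        (min_le_right _ _).trans (min_le_right _ _)
      show γ x < G (Z (Function.invFun F x))
      rw [hUκ x ⟨by linarith [hx.1], by linarith [hx.2]⟩]
      have h3 := κ1 x ⟨hx.1, by linarith [hx.2]⟩
      have h4 : γ x + (x - c) ≤ κ x := h3
      linarith [hx.1]
    · intro x hx
      have h1 : min ε (min (c - F s) (F (s + 1) - c)) ≤ ε := min_le_left _ _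
      have h2 : min ε (min (c - F s) (F (s + 1) - c)) ≤ c - F s :=
        (min_le_right _ _).trans (min_le_left _ _)
      show G (Z (Function.invFun F x)) < γ x
      rw [hUκ x ⟨by linarith [hx.1], by linarith [hx.2]⟩]
      have h3 := κ2 x ⟨by linarith [hx.1], hx.2⟩
      have h4 : κ x ≤ γ x + (x - c) := h3
      linarith [hx.2]

/-- gluing of the two conjugacies on the arcs -/
theorem Germ_glue (f g : ℝ ≃o ℝ) (hf : ∀ x, f (x + 1) = f x + 1)
    (hg : ∀ x, g (x + 1) = g x + 1) {a b a' b' : ℝ} (hab : a < b) (hba : b < a + 1)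
    (hab' : a' < b') (hba' : b' < a' + 1) (fa : f a = a) (fb : f b = b) (ga : g a' = a')
    (gb : g b' = b') (U V : ℝ → ℝ) (U1 : StrictMonoOn U (Ioo a b))
    (U2 : U '' Ioo a b = Ioo a' b') (U3 : ∀ x ∈ Ioo a b, U (f x) = g (U x))
    (V1 : StrictMonoOn V (Ioo b (a + 1))) (V2 : V '' Ioo b (a + 1) = Ioo b' (a' + 1))
    (V3 : ∀ x ∈ Ioo b (a + 1), V (f x) = g (V x)) :
    ∃ h : ℝ ≃o ℝ, (∀ x, h (x + 1) = h x + 1) ∧ (∀ x ∈ Ioo a b, h x = U x) ∧
      ∀ x, h (f x) = g (h x) := by
  classical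
  have fa1 : f (a + 1) = a + 1 := by rw [hf, fa]
  have ga1 : g (a' + 1) = a' + 1 := by rw [hg, ga]
  set k : ℝ → ℝ := fun x => if x ≤ a then a' else if x < b then U x else if x = b then b' else V x
    with hk
  have ka : k a = a' := by simp [hk]
  have kb : k b = b' := by simp [hk, hab]
  have kU : ∀ x ∈ Ioo a b, k x = U x := by
    intro x hx
    simp only [hk]
    rw [if_neg (not_le.mpr hx.1), if_pos hx.2]
  have kV : ∀ x ∈ Ioo b (a + 1), k x = V x := by
    intro x hx
    simp only [hk]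
    rw [if_neg (not_le.mpr (hab.trans hx.1)), if_neg (not_lt.mpr hx.1.le), if_neg hx.1.ne']
  have Um : ∀ x ∈ Ioo a b, U x ∈ Ioo a' b' := fun x hx => by
    rw [← U2]; exact mem_image_of_mem _ hx
  have Vm : ∀ x ∈ Ioo b (a + 1), V x ∈ Ioo b' (a' + 1) := fun x hx => by
    rw [← V2]; exact mem_image_of_mem _ hx
  have hcases : ∀ x ∈ Ico a (a + 1), x = a ∨ x ∈ Ioo a b ∨ x = b ∨ x ∈ Ioo b (a + 1) := by
    intro x hx
    rcases hx.1.eq_or_lt with h | h
    · exact Or.inl h.symm
    · rcases lt_trichotomy x b with h' | h' | h'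
      · exact Or.inr (Or.inl ⟨h, h'⟩)
      · exact Or.inr (Or.inr (Or.inl h'))
      · exact Or.inr (Or.inr (Or.inr ⟨h', hx.2⟩))
  have hmono : StrictMonoOn k (Ico a (a + 1)) := by
    intro x hx y hy hxy
    rcases hcases x hx with h | h | h | h
    · subst h
      rcases hcases y hy with h' | h' | h' | h'
      · exact absurd h' hxy.ne'
      · rw [ka, kU y h']; exact (Um y h').1
      · rw [h', ka, kb]; exact hab'
      · rw [ka, kV y h']; exact hab'.trans (Vm y h').1
    · rcases hcases y hy with h' | h' | h' | h'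
      · exact absurd (h' ▸ hxy) (not_lt.mpr h.1.le)
      · rw [kU x h, kU y h']; exact U1 h h' hxy
      · rw [h', kU x h, kb]; exact (Um x h).2
      · rw [kU x h, kV y h']; exact (Um x h).2.trans (Vm y h').1
    · subst h
      rcases hcases y hy with h' | h' | h' | h'
      · exact absurd (h' ▸ hxy) (not_lt.mpr hab.le)
      · exact absurd hxy (not_lt.mpr h'.2.le)
      · exact absurd h' hxy.ne'
      · rw [kb, kV y h']; exact (Vm y h').1
    · rcases hcases y hy with h' | h' | h' | h'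
      · exact absurd (h' ▸ hxy) (not_lt.mpr (hab.trans h.1).le)
      · exact absurd hxy (not_lt.mpr (h'.2.trans h.1).le)
      · exact absurd (h' ▸ hxy) (not_lt.mpr h.1.le)
      · rw [kV x h, kV y h']; exact V1 h h' hxy
  have himg : k '' Ico a (a + 1) = Ico a' (a' + 1) := by
    ext y
    constructor
    · rintro ⟨x, hx, rfl⟩
      rcases hcases x hx with h | h | h | h
      · rw [h, ka]; exact ⟨le_rfl, by linarith⟩
      · rw [kU x h]; exact ⟨(Um x h).1.le, (Um x h).2.trans hba'⟩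
      · rw [h, kb]; exact ⟨hab'.le, hba'⟩
      · rw [kV x h]; exact ⟨(hab'.trans (Vm x h).1).le, (Vm x h).2⟩
    · intro hy
      rcases hy.1.eq_or_lt with h | h
      · exact ⟨a, ⟨le_rfl, by linarith⟩, by rw [ka, h]⟩
      · rcases lt_trichotomy y b' with h' | h' | h'
        · have : y ∈ U '' Ioo a b := by rw [U2]; exact ⟨h, h'⟩
          obtain ⟨x, hx, rfl⟩ := this
          exact ⟨x, ⟨hx.1.le, hx.2.trans hba⟩, kU x hx⟩
        · exact ⟨b, ⟨hab.le, hba⟩, by rw [kb, h']⟩
        · have : y ∈ V '' Ioo b (a + 1) := by rw [V2]; exact ⟨h', hy.2⟩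
          obtain ⟨x, hx, rfl⟩ := this
          exact ⟨x, ⟨(hab.trans hx.1).le, hx.2⟩, kV x hx⟩
  obtain ⟨h, h1, h2⟩ := PB.exists_extend k a a' hmono himg
  have ha : h a = a' := by rw [h2 a ⟨le_rfl, by linarith⟩, ka]
  have hb : h b = b' := by rw [h2 b ⟨hab.le, hba⟩, kb]
  refine ⟨h, h1, fun x hx => by rw [h2 x ⟨hx.1.le, hx.2.trans hba⟩, kU x hx], ?_⟩
  have hbase : ∀ x ∈ Ico a (a + 1), h (f x) = g (h x) := by
    intro x hx
    rcases hcases x hx with e | e | e | e
    · rw [e, fa, ha, ga]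
    · have hm : f x ∈ Ioo a b :=
        ⟨by rw [← fa]; exact f.strictMono e.1, by rw [← fb]; exact f.strictMono e.2⟩
      rw [h2 _ ⟨hm.1.le, hm.2.trans hba⟩, h2 x hx, kU _ hm, kU x e, U3 x e]
    · rw [e, fb, hb, gb]
    · have hm : f x ∈ Ioo b (a + 1) :=
        ⟨by rw [← fb]; exact f.strictMono e.1, by rw [← fa1]; exact f.strictMono e.2⟩
      rw [h2 _ ⟨(hab.trans hm.1).le, hm.2⟩, h2 x hx, kV _ hm, kV x e, V3 x e]
  intro x
  have hx : x - ⌊x - a⌋ ∈ Ico a (a + 1) := by
    have h1 := Int.floor_le (x - a)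
    have h2 := Int.lt_floor_add_one (x - a)
    exact ⟨by linarith, by linarith⟩
  have e := hbase _ hx
  have e1 : f x = f (x - ⌊x - a⌋) + ⌊x - a⌋ := by
    rw [← PB.map_add_int f hf]; congr 1; ring
  have e2 : h x = h (x - ⌊x - a⌋) + ⌊x - a⌋ := by
    rw [← PB.map_add_int h h1]; congr 1; ring
  rw [e1, e2, PB.map_add_int h h1, PB.map_add_int g hg, e]

/-- CONJUGACY WITH A DOMINATING GERM. `f` has in every period one repelling fixed point `a` and one
attracting fixed point `b`, and so has `g` (`a'`, `b'`). `c ∈ (a,b)`, `c' ∈ (a',b')`, and `γ` is any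
homeomorphism with `γ c = c'`. There is a conjugacy `h` with `h c = c'` which is larger than `γ` just above `c`
and smaller than `γ` just below `c`.
PROOF. Copy the proof of `PB.conj_two_fixed_norm` (file PB/ConjTwo.lean); only the map `U` on the arc `(a,b)`
(there: `PB.exists_conj_Ioo`) has to be chosen with the germ condition; on the arc `(b, a+1)` use
`PB.exists_conj_Ioo'` with any two points `d`, `d'`; the rest of the proof is unchanged (`h = U` on `(a,b)`, which
is a neighbourhood of `c`).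
The map `U`: put `k y = γ y + (y - c)` (increasing, `k c = c'`, `k y > γ y` for `y > c`, `k y < γ y` for `y < c`).
Choose `δ > 0` so small that `a < c - δ`, `c + δ < f (c - δ)` (possible: `c < f c`), `a' < k (c - δ)`,
`k (c + δ) < g (k (c - δ))`, `k (c + δ) < b'` (possible: `c' < g c'`); put `p = c - δ`, `p' = k p`.
On `[p, f p]` let `u` be `k` on `[p, c + δ]` and the affine map from `c + δ ↦ k (c + δ)` to `f p ↦ g p'` on
`[c + δ, f p]`. So `u` is an increasing bijection `[p, f p] → [p', g p']`. Extend it to `(a,b)` by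
`U x = g^n (u (f^(-n) x))` for `x ∈ [f^n p, f^(n+1) p]`. (Lean: generalise `PB.exists_param` to: for any
`StrictMonoOn`, surjective `u : [0,1] → [x0, f x0]` there is `G` with `G t = u t` on `[0,1]`, namely
`G t = f^⌊t⌋ (u (fract t))`; use it for `f` with `u t = p + t (f p - p)` and for `g` with
`u' t = u (p + t (f p - p))`; then `U = G_g ∘ G_f⁻¹` as in `PB.exists_conj_Ioo`.) -/
theorem conj_germ (f g : ℝ ≃o ℝ) (hf : Per f) (hg : Per g) {a b a' b' : ℝ} (hab : a < b)
    (hba : b < a + 1) (hab' : a' < b') (hba' : b' < a' + 1) (fa : f a = a) (fb : f b = b)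
    (ga : g a' = a') (gb : g b' = b') (f1 : ∀ x ∈ Ioo a b, x < f x)
    (f2 : ∀ x ∈ Ioo b (a + 1), f x < x) (g1 : ∀ x ∈ Ioo a' b', x < g x)
    (g2 : ∀ x ∈ Ioo b' (a' + 1), g x < x) {c c' : ℝ} (hc : c ∈ Ioo a b) (hc' : c' ∈ Ioo a' b')
    (γ : ℝ ≃o ℝ) (hγ : γ c = c') :
    ∃ h : ℝ ≃o ℝ, Per h ∧ h c = c' ∧ (∀ x, h (f x) = g (h x)) ∧
      ∃ ε > 0, (∀ x ∈ Ioo c (c + ε), γ x < h x) ∧ ∀ x ∈ Ioo (c - ε) c, h x < γ x := by
  have fa1 : f (a + 1) = a + 1 := by rw [hf, fa]
  have ga1 : g (a' + 1) = a' + 1 := by rw [hg, ga]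
  obtain ⟨U, U1, U2, U4, U3, ε, hε, U5, U6⟩ :=
    Germ_conj_Ioo f g fa fb ga gb f1 g1 c c' hc hc' γ hγ
  obtain ⟨V, V1, V2, -, V3⟩ := PB.exists_conj_Ioo' f g fb fa1 gb ga1 f2 g2
    ((b + (a + 1)) / 2) ((b' + (a' + 1)) / 2) ⟨by linarith, by linarith⟩
    ⟨by linarith, by linarith⟩
  obtain ⟨h, h1, h2, h3⟩ := Germ_glue f g hf hg hab hba hab' hba' fa fb ga gb U V U1 U2 U3 V1 V2 V3
  refine ⟨h, h1, ?_, h3, min ε (min (c - a) (b - c)), ?_, ?_, ?_⟩
  · rw [h2 c hc, U4]
  · exact lt_min hε (lt_min (by linarith [hc.1]) (by linarith [hc.2]))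
  · intro x hx
    have e1 : min ε (min (c - a) (b - c)) ≤ ε := min_le_left _ _
    have e2 : min ε (min (c - a) (b - c)) ≤ b - c := (min_le_right _ _).trans (min_le_right _ _)
    rw [h2 x ⟨by linarith [hx.1, hc.1], by linarith [hx.2]⟩]
    exact U5 x ⟨hx.1, by linarith [hx.2]⟩
  · intro x hx
    have e1 : min ε (min (c - a) (b - c)) ≤ ε := min_le_left _ _
    have e2 : min ε (min (c - a) (b - c)) ≤ c - a := (min_le_right _ _).trans (min_le_left _ _)
    rw [h2 x ⟨by linarith [hx.1], by linarith [hx.2, hc.2]⟩]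
    exact U6 x ⟨by linarith [hx.1], hx.2⟩

end Pool.Agent.H.MP_1611f1_gt.TR
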