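import Pool.Agent.H.MP_1611f1_gt.TR.Basic

/-!
Selection of the step `z` and of the common point `v`.
-/

namespace Pool.Agent.H.MP_1611f1_gt.TR

open Topology Set Filter

/-- a point of an open interval avoiding finitely many classes modulo one. PROOF: the set of all
`x + m`, `x ∈ F`, `m ∈ ℤ` is countable, an open interval is not
(`Set.Countable.dense_compl` or `Cardinal`, `Ioo_infinite` with a finite intersection; e.g.
`(Set.countable_iUnion ...)`, `Set.Countable.dense_compl ℝ`). -/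
theorem exists_avoid {a b : ℝ} (hab : a < b) (F : Finset ℝ) :
    ∃ x ∈ Ioo a b, ∀ y ∈ F, ∀ m : ℤ, x ≠ y + m := by
  set T : Set ℝ := ⋃ y ∈ F, range fun m : ℤ => y + (m : ℝ) with hT
  have hc : T.Countable := by
    rw [hT]
    exact (Finset.countable_toSet F).biUnion fun y _ => countable_range _
  have hd : Dense Tᶜ := hc.dense_compl ℝ
  obtain ⟨x, hx1, hx2⟩ := hd.inter_open_nonempty (Ioo a b) isOpen_Ioo (nonempty_Ioo.2 hab)
  refine ⟨x, hx1, fun y hy m he => hx2 ?_⟩
  rw [hT]
  simp only [mem_iUnion, mem_range]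
  exact ⟨y, hy, m, he.symm⟩

/-- a translate in the unit interval below a point of another class -/
theorem Sel_shift {v X : ℝ} (h : ∀ m : ℤ, v ≠ X + m) : ∃ m : ℤ, X - 1 < v + m ∧ v + m < X := by
  refine ⟨⌊X - v⌋, ?_, ?_⟩
  · linarith [Int.lt_floor_add_one (X - v)]
  · have h1 := Int.floor_le (X - v)
    have h2 : v + (⌊X - v⌋ : ℝ) ≤ X := by linarith
    rcases lt_or_eq_of_le h2 with h3 | h3
    · exact h3
    · exfalso
      apply h (-⌊X - v⌋)
      push_cast
      linarith

/-- SELECTION. PROOF. Case 1: `Y ≤ X`. Then `S (X - 1) - s = S X - 1 - s < E` because `S X < S (Y + 1) = E + s + 1`.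
Choose `v ∈ (S (X-1) - s, E)` avoiding the classes of `F ∪ {X}` modulo one (`exists_avoid`); `m₂ = 0`;
`m₁` = the integer with `X - 1 < v + m₁ < X` (exists because `v` is not in the class of `X`:
`m₁ = ⌈X - 1 - v⌉` or `⌊X - v⌋`). The conditions on `z` are now: `X - 1 < z`, `z < Y` (possible: `X - 1 < Y`), `z < X`,
`Y < z + 1` (follows from `z > X - 1 ≥ Y - 1`), `z < v + m₁` (possible: `X - 1 < v + m₁`),
`S z - s < v` (possible near `X - 1` by continuity: equivalently `z < S.symm (v + s)`, and `X - 1 < S.symm (v + s)`).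
So choose `z ∈ (X - 1, min Y (min X (min (v + m₁) (S.symm (v + s)))))` avoiding the classes of `F ∪ {v}`.
Case 2: `X < Y`. Then `Y - 1 < X`. Choose `v ∈ (Y - 1, X)` avoiding the classes of `F ∪ {E}`; `m₁ = 0`; `m₂` = the integer
with `E - 1 < v + m₂ < E`. Conditions on `z`: `Y - 1 < z` (then `X < Y < z + 1`), `z < X`, `z < v`, `S z - s < v + m₂`, i.e.
`z < S.symm (v + m₂ + s)`, possible because `S (Y - 1) - s = E - 1 < v + m₂`. Choose `z` in the interval
`(Y - 1, min X (min v (S.symm (v + m₂ + s))))` avoiding the classes of `F ∪ {v}`. -/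
theorem exists_sel {S : ℝ ≃o ℝ} (hS : Per S) {X Y E s : ℝ} (hXY : |X - Y| < 1) (hY : S Y = E + s)
    (F : Finset ℝ) :
    ∃ (z v : ℝ) (m₁ m₂ : ℤ), z < X ∧ X < z + 1 ∧ z < Y ∧ Y < z + 1 ∧ z < v + m₁ ∧ v + m₁ < X ∧
      S z < v + m₂ + s ∧ v + m₂ < E ∧ (∀ x ∈ F, ∀ m : ℤ, z ≠ x + m) ∧
      (∀ x ∈ F, ∀ m : ℤ, v ≠ x + m) ∧ ∀ m : ℤ, v ≠ z + m := by
  have hXY1 := abs_lt.1 hXY
  rcases le_or_gt Y X with hc | hc
  · have h1 : S (X - 1) < E + s := by
      have h2 : S (X - 1) + 1 = S X := by rw [← hS, sub_add_cancel]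
      have h3 : S X < S (Y + 1) := S.strictMono (by linarith)
      rw [hS, hY] at h3
      linarith
    obtain ⟨v, hv, hvF⟩ := exists_avoid (a := S (X - 1) - s) (b := E) (by linarith) (insert X F)
    obtain ⟨m₁, hm1, hm2⟩ := Sel_shift (hvF X (Finset.mem_insert_self _ _))
    have h4 : X - 1 < S.symm (v + s) := by
      rw [OrderIso.lt_symm_apply]
      linarith [hv.1]
    have h5 : X - 1 < min Y (min X (min (v + m₁) (S.symm (v + s)))) :=
      lt_min (by linarith) (lt_min (by linarith) (lt_min hm1 h4))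
    obtain ⟨z, hz, hzF⟩ := exists_avoid h5 (insert v F)
    obtain ⟨hz1, hz2⟩ := hz
    rw [lt_min_iff, lt_min_iff, lt_min_iff] at hz2
    obtain ⟨hzY, hzX, hzv, hzS⟩ := hz2
    refine ⟨z, v, m₁, 0, hzX, by linarith, hzY, by linarith, hzv, hm2, ?_, ?_, ?_, ?_, ?_⟩
    · rw [OrderIso.lt_symm_apply] at hzS
      push_cast
      linarith
    · push_cast
      linarith [hv.2]
    · exact fun x hx m => hzF x (Finset.mem_insert_of_mem hx) m
    · exact fun x hx m => hvF x (Finset.mem_insert_of_mem hx) m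
    · intro m he
      apply hzF v (Finset.mem_insert_self _ _) (-m)
      push_cast
      linarith
  · obtain ⟨v, hv, hvF⟩ := exists_avoid (a := Y - 1) (b := X) (by linarith) (insert E F)
    obtain ⟨m₂, hm1, hm2⟩ := Sel_shift (hvF E (Finset.mem_insert_self _ _))
    have h4 : Y - 1 < S.symm (v + m₂ + s) := by
      rw [OrderIso.lt_symm_apply]
      have h2 : S (Y - 1) + 1 = S Y := by rw [← hS, sub_add_cancel]
      linarith
    have h5 : Y - 1 < min X (min v (S.symm (v + m₂ + s))) :=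
      lt_min (by linarith) (lt_min hv.1 h4)
    obtain ⟨z, hz, hzF⟩ := exists_avoid h5 (insert v F)
    obtain ⟨hz1, hz2⟩ := hz
    rw [lt_min_iff, lt_min_iff] at hz2
    obtain ⟨hzX, hzv, hzS⟩ := hz2
    refine ⟨z, v, 0, m₂, hzX, by linarith, by linarith, by linarith, ?_, ?_, ?_, hm2, ?_, ?_, ?_⟩
    · push_cast
      linarith
    · push_cast
      linarith [hv.2]
    · rw [OrderIso.lt_symm_apply] at hzS
      linarith
    · exact fun x hx m => hzF x (Finset.mem_insert_of_mem hx) m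
    · exact fun x hx m => hvF x (Finset.mem_insert_of_mem hx) m
    · intro m he
      apply hzF v (Finset.mem_insert_self _ _) (-m)
      push_cast
      linarith

end Pool.Agent.H.MP_1611f1_gt.TR
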