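import Pool.Agent.H.MP_1611f1_gt.TR.ExA
import Pool.Agent.H.MP_1611f1_gt.TR.Germ
import Pool.Agent.H.MP_1611f1_gt.TR.Sel

/-!
Exactness: the two last letters `a`, `b`.
-/

namespace Pool.Agent.H.MP_1611f1_gt.TR

open Topology Set Filter
open Pool.Agent.H.MP_1611f1_gt.PB (BL)

/-- a positive lower bound of finitely many positive numbers -/
theorem ExB_min (l : List ℝ) (h : ∀ x ∈ l, 0 < x) : ∃ d : ℝ, 0 < d ∧ d ≤ 1 ∧ ∀ x ∈ l, d ≤ x := by
  induction l with
  | nil => exact ⟨1, one_pos, le_rfl, fun x hx => absurd hx (List.not_mem_nil)⟩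
  | cons y l ih =>
    obtain ⟨d, hd, hd1, hl⟩ := ih fun x hx => h x (List.mem_cons_of_mem _ hx)
    refine ⟨min d y, lt_min hd (h y List.mem_cons_self), (min_le_left _ _).trans hd1, fun x hx => ?_⟩
    rcases List.mem_cons.mp hx with rfl | hx
    · exact min_le_right _ _
    · exact (min_le_left _ _).trans (hl x hx)

theorem ExB_one {z y : ℝ} (h : ∀ m : ℤ, z ≠ y + m) : ∃ δ > 0, ∀ m : ℤ, δ ≤ |z - (y + m)| := by
  have h0 : 0 < Int.fract (z - y) := by
    refine lt_of_le_of_ne (Int.fract_nonneg _) fun h1 => h ⌊z - y⌋ ?_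
    have h2 := Int.floor_add_fract (z - y)
    rw [← h1] at h2
    linarith
  have h1 : Int.fract (z - y) < 1 := Int.fract_lt_one _
  have h2 := Int.floor_add_fract (z - y)
  refine ⟨min (Int.fract (z - y)) (1 - Int.fract (z - y)), lt_min h0 (by linarith), fun m => ?_⟩
  rcases le_or_gt m ⌊z - y⌋ with hm | hm
  · have h3 : (m : ℝ) ≤ ⌊z - y⌋ := by exact_mod_cast hm
    refine (min_le_left _ _).trans ?_
    refine le_trans ?_ (le_abs_self _)
    linarith
  · have h3 : ((⌊z - y⌋ : ℤ) : ℝ) + 1 ≤ m := by exact_mod_cast hm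
    refine (min_le_right _ _).trans ?_
    refine le_trans ?_ (neg_le_abs _)
    linarith

theorem ExB_per_shift (c : ℝ) : Per (OrderIso.addRight c) := fun x => by
  show x + 1 + c = x + c + 1
  ring

theorem ExB_subInt {f : ℝ ≃o ℝ} (hf : Per f) (x : ℝ) (m : ℤ) : f (x - m) = f x - m := by
  have h := hf.int (x - m) m
  rw [sub_add_cancel] at h
  linarith

/-- the letter `a` -/
theorem ExB_a {Q R h a : ℝ ≃o ℝ} (hQ : Per Q) (hR : Per R) (hh : Per h) {v : ℝ} {m₁ m₂ : ℤ}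
    (ha : ∀ x, a x = Q (h (R x)) + ((m₂ : ℝ) - m₁)) (hc : h (R (v + m₂)) = Q.symm (v + m₁)) {ε : ℝ}
    (hε : 0 < ε) (h1 : ∀ y ∈ Ioo (R (v + m₂)) (R (v + m₂) + ε), Q.symm (R.symm y) + ((m₁ : ℝ) - m₂) < h y)
    (h2 : ∀ y ∈ Ioo (R (v + m₂) - ε) (R (v + m₂)), h y < Q.symm (R.symm y) + ((m₁ : ℝ) - m₂)) :
    Rep a v := by
  have hRx : ∀ x, R x = R (x + m₂) - m₂ := fun x => by rw [hR.int]; ring
  have hax : ∀ x, a x = Q (h (R (x + m₂))) - m₁ := fun x => by
    rw [ha, hRx x, ExB_subInt hh, ExB_subInt hQ]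
    ring
  have hQs : ∀ x, Q.symm (R.symm (R (x + m₂))) + ((m₁ : ℝ) - m₂) = Q.symm (x + m₁) := fun x => by
    rw [OrderIso.symm_apply_apply, hQ.symm.int, hQ.symm.int]
    ring
  refine ⟨?_, min (R.symm (R (v + m₂) + ε) - (v + m₂)) ((v + m₂) - R.symm (R (v + m₂) - ε)), ?_, ?_, ?_⟩
  · rw [hax, hc, OrderIso.apply_symm_apply]
    ring
  · refine lt_min ?_ ?_
    · have h3 : v + m₂ < R.symm (R (v + m₂) + ε) := by
        rw [OrderIso.lt_symm_apply]
        linarith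
      linarith
    · have h3 : R.symm (R (v + m₂) - ε) < v + m₂ := by
        rw [OrderIso.symm_apply_lt]
        linarith
      linarith
  · intro x hx
    have h3 : x + m₂ < R.symm (R (v + m₂) + ε) := by
      have h4 := hx.2
      have h5 := min_le_left (R.symm (R (v + m₂) + ε) - (v + m₂)) ((v + m₂) - R.symm (R (v + m₂) - ε))
      linarith
    rw [OrderIso.lt_symm_apply] at h3
    have h6 : R (v + m₂) < R (x + m₂) := R.strictMono (by linarith [hx.1])
    have h7 := h1 _ ⟨h6, h3⟩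
    rw [hQs] at h7
    rw [OrderIso.symm_apply_lt] at h7
    rw [hax]
    linarith
  · intro x hx
    have h3 : R.symm (R (v + m₂) - ε) < x + m₂ := by
      have h4 := hx.1
      have h5 := min_le_right (R.symm (R (v + m₂) + ε) - (v + m₂)) ((v + m₂) - R.symm (R (v + m₂) - ε))
      linarith
    rw [OrderIso.symm_apply_lt] at h3
    have h6 : R (x + m₂) < R (v + m₂) := R.strictMono (by linarith [hx.2])
    have h7 := h2 _ ⟨h3, h6⟩
    rw [hQs] at h7
    rw [OrderIso.lt_symm_apply] at h7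
    rw [hax]
    linarith

/-- the relation -/
theorem ExB_rel {Q R S β h a b : ℝ ≃o ℝ} (hQ : Per Q) (hβ : Per β) (hh : Per h)
    {s : ℝ} {m₁ m₂ p : ℤ} (ha : ∀ x, a x = Q (h (R x)) + ((m₂ : ℝ) - m₁)) (hb : ∀ x, b x = β x - p)
    (hconj : ∀ x, h (β (S.symm (R.symm x + s))) = β (Q (h x))) (x : ℝ) :
    S (b.symm (R (a.symm (Q (b (a x)))))) = x + s := by
  have h1 : Q (b (a x)) = a (R.symm (b (S.symm (x + s)))) := by
    rw [ha (R.symm (b (S.symm (x + s)))), OrderIso.apply_symm_apply, hb (S.symm (x + s)), hb (a x), ha x]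
    have h2 := hconj (R x)
    rw [OrderIso.symm_apply_apply] at h2
    have e1 : Q (h (R x)) + ((m₂ : ℝ) - m₁) = Q (h (R x)) + ((m₂ - m₁ : ℤ) : ℝ) := by push_cast; ring
    rw [ExB_subInt hh, ExB_subInt hQ, ExB_subInt hQ, h2, e1, hβ.int, hQ.int]
    push_cast
    ring
  rw [h1, OrderIso.symm_apply_apply, OrderIso.apply_symm_apply, OrderIso.symm_apply_apply,
    OrderIso.apply_symm_apply]

/-- the fixed point of `b` -/
theorem ExB_rho {z α υ μ : ℝ} {β b : ℝ ≃o ℝ} {p : ℤ} (hμ : 0 < μ) (hμ1 : μ < 1 / 4) (hp : υ = α - p)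
    (h1 : z + μ < υ) (h2 : υ < z + 1 - μ) (hβ : Per β) (hb : ∀ x, b x = β x - p)
    (hβ1 : ∀ x ∈ Icc (z + μ) (z + 1 - μ), β x = α + μ * (x - υ))
    (hβ2 : ∀ x ∈ Icc (z - μ) (z + μ), ∀ y ∈ Icc (z - μ) (z + μ), x ≤ y →
        (1 - μ) / (2 * μ) * (y - x) ≤ β y - β x) :
    ∃ ρ ∈ Ioo (z + p - μ) (z + p + μ), Rep b ρ := by
  have hb' : ∀ x, b x = β (x - p) := fun x => by rw [hb, ExB_subInt hβ]
  have hper : Per b := fun x => by
    rw [hb, hb, hβ]
    ring
  refine stair_rep (ζ := α) hμ hμ1 (by linarith) (by linarith) hper ?_ ?_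
  · intro x hx
    rw [hb', hβ1 (x - p) ⟨by linarith [hx.1], by linarith [hx.2]⟩, hp]
    ring
  · intro x hx y hy hxy
    rw [hb', hb']
    have h3 := hβ2 (x - p) ⟨by linarith [hx.1], by linarith [hx.2]⟩ (y - p)
      ⟨by linarith [hy.1], by linarith [hy.2]⟩ (by linarith)
    have e1 : y - p - (x - p) = y - x := by ring
    rwa [e1] at h3

/-- distances from finitely many classes modulo one. PROOF: for every `y ∈ F` the set `{y + m}` is closed
and discrete: `δ_y = min (Int.fract (z - y)) (1 - Int.fract (z - y)) > 0` is a lower bound for `|z - (y + m)|`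
(`Int.fract (z - y) ≠ 0` because `z ≠ y + m`); take the minimum over `F` (induction on `F`). -/
theorem exists_dist {z : ℝ} (F : Finset ℝ) (h : ∀ y ∈ F, ∀ m : ℤ, z ≠ y + m) :
    ∃ δ > 0, ∀ y ∈ F, ∀ m : ℤ, δ ≤ |z - (y + m)| := by
  induction F using Finset.induction_on with
  | empty => exact ⟨1, one_pos, fun y hy => absurd hy (Finset.notMem_empty y)⟩
  | insert y F _ ih =>
    obtain ⟨δ, hδ, h1⟩ := ih fun x hx => h x (Finset.mem_insert_of_mem hx)
    obtain ⟨δ', hδ', h2⟩ := ExB_one (h y (Finset.mem_insert_self y F))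
    refine ⟨min δ δ', lt_min hδ hδ', fun x hx m => ?_⟩
    rcases Finset.mem_insert.mp hx with rfl | hx
    · exact (min_le_right _ _).trans (h2 m)
    · exact (min_le_left _ _).trans (h1 x hx m)

/-- EXACTNESS. `Q`, `R`, `S` are bi-Lipschitz, `|S (Q (R E)) - E - s| < 1`. There are `a` and `b` with
`S b⁻¹ R a⁻¹ Q b a = T_s`, with repelling fixed points `v`, `ρ`, which avoid the classes of a given finite set and are
not congruent modulo one.
PROOF. `α = R E`, `X = Q α`, `Y = S.symm (E + s)`. `|X - Y| < 1`: otherwise `|S X - S Y| ≥ 1` (`Per S`, monotonicity), but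
`S X - S Y = S (Q (R E)) - E - s`. `exists_sel` with the finite set `F ∪ {α}`: `z, v, m₁, m₂`. Let `p` be the integer with
`z + p < α < z + p + 1` (`z` is not in the class of `α`: `p = ⌊α - z⌋`), `υ = α - p ∈ (z, z+1)`. Put
`c' = Q.symm (v + m₁)`, `c = R (v + m₂)`, `R₁ = Q`, `R₂ x = S.symm (R.symm x + s)` (an order isomorphism, `Per`, `BL`: constants
`M` with `BL M R₁`, `BL M R₂`, from `BL.symm`, `BL.add`, `BL.comp`, `BL.mono`). Then `R₁ α = X`, `R₁ c' = v + m₁`, `R₂ α = Y`,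
`R₂ c = S.symm (v + m₂ + s) ∈ (z, Y)` (because `S z < v + m₂ + s < E + s = S Y`), `c' < α` (as `v + m₁ < X`), `c < α` (as
`v + m₂ < E`). Let `d > 0`, `d ≤ 1`, be smaller than all of: `υ - z`, `z + 1 - υ`, `X - z`, `z + 1 - X`, `Y - z`, `z + 1 - Y`,
`v + m₁ - z`, `z + 1 - (v + m₁)`, `R₂ c - z`, `z + 1 - R₂ c`, `α - c'`, `α - c`, and the distance `δ` of `z` from the classes
of `F ∪ {v}` (`exists_dist`). `μ = d / (8 M)` (`< 1/4`). `β` = the staircase `exists_stair'` with `ψ = z`, `ζ = α`, `υ`.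
`b x = β x - p` (order isomorphism, `Per`); it has the flat value `b x = α + μ (x - α)` on
`[z + p + μ, z + p + 1 - μ]` and is steep near `z + p` (shift of `β` by `Per`), so `stair_rep` (with `ψ = z + p`, `ζ = α`)
gives a repelling fixed point `ρ` of `b` with `|ρ - (z + p)| < μ < δ`, so `ρ` avoids the classes of `F ∪ {v}`.
`F₁ = β ∘ R₁`, `F₂ = β ∘ R₂`: `stair_two'` for `(R₁, t = c')` gives `r₁ < c' < a₁`, for `(R₂, t = c)` gives `r₂ < c < a₂`.
`conj_germ` with `f = F₂`, `g = F₁`, `c`, `c'`, `γ y = Q.symm (R.symm y) + (m₁ - m₂)` (`γ c = c'`: `R.symm c = v + m₂`, `Per`):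
`h` with `h (F₂ x) = F₁ (h x)`. Put `a x = Q (h (R x)) + (m₂ - m₁)`.
`a v = v`: `h (R v) = h (c - m₂) = c' - m₂`, `Q (c' - m₂) = v + m₁ - m₂`.
`Rep a v`: for `x > v` near `v`: `y = R x + m₂ = R (x + m₂) > c` near `c`, `h y > γ y = Q.symm (x + m₂) + m₁ - m₂`, so
`h (R x) = h y - m₂ > Q.symm x + m₁ - m₂`, `a x > x`. The same below `v`. (The neighbourhood: continuity of `R`.)
RELATION: `Q (b (a x)) = Q (β (Q (h (R x))) + (m₂ - m₁) - p) = Q (F₁ (h (R x))) + (m₂ - m₁) - p` and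
`a (R.symm (b (S.symm (x + s)))) = Q (h (β (S.symm (x + s)) - p)) + (m₂ - m₁) = Q (h (F₂ (R x))) - p + (m₂ - m₁)`. So
`Q (b (a x)) = a (R.symm (b (S.symm (x + s))))`, hence
`S (b.symm (R (a.symm (Q (b (a x)))))) = S (b.symm (R (R.symm (b (S.symm (x + s)))))) = x + s`. -/
theorem exists_ab {Q R S : ℝ ≃o ℝ} (hQ : Per Q) (hR : Per R) (hS : Per S)
    (bQ : ∃ M, 1 ≤ M ∧ BL M Q) (bR : ∃ M, 1 ≤ M ∧ BL M R) (bS : ∃ M, 1 ≤ M ∧ BL M S) {E s : ℝ}
    (hE : |S (Q (R E)) - E - s| < 1) (F : Finset ℝ) :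
    ∃ (a b : ℝ ≃o ℝ) (v ρ : ℝ), Per a ∧ Per b ∧ Rep a v ∧ Rep b ρ ∧
      (∀ x, S (b.symm (R (a.symm (Q (b (a x)))))) = x + s) ∧
      (∀ x ∈ F, ∀ m : ℤ, v ≠ x + m) ∧ (∀ x ∈ F, ∀ m : ℤ, ρ ≠ x + m) ∧ ∀ m : ℤ, v ≠ ρ + m := by
  obtain ⟨MQ, hMQ1, hMQ⟩ := bQ
  obtain ⟨MR, hMR1, hMR⟩ := bR
  obtain ⟨MS, hMS1, hMS⟩ := bS
  set α : ℝ := R E with hα
  set X : ℝ := Q α with hX
  set Y : ℝ := S.symm (E + s) with hYd
  have hSY : S Y = E + s := OrderIso.apply_symm_apply _ _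
  have hXY : |X - Y| < 1 := by
    rw [abs_lt] at hE ⊢
    constructor
    · by_contra hcon
      have h1 : X + 1 ≤ Y := by linarith
      have h2 := S.monotone h1
      rw [hS, hSY] at h2
      linarith [hE.1]
    · by_contra hcon
      have h1 : Y + 1 ≤ X := by linarith
      have h2 := S.monotone h1
      rw [hS, hSY] at h2
      linarith [hE.2]
  classical
  obtain ⟨z, v, m₁, m₂, hzX, hXz, hzY, hYz, hzv, hvX, hSz, hvE, hzF, hvF, hvz⟩ :=
    exists_sel hS hXY hSY (insert α F)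
  -- the integer `p`
  set p : ℤ := ⌊α - z⌋ with hp
  have hp1 : z + p < α := by
    have h1 := Int.floor_le (α - z)
    refine lt_of_le_of_ne (by linarith) fun h2 => hzF α (Finset.mem_insert_self _ _) (-p) ?_
    push_cast
    linarith
  have hp2 : α < z + p + 1 := by
    have h1 := Int.lt_floor_add_one (α - z)
    linarith
  set υ : ℝ := α - p with hυ
  set R₂ : ℝ ≃o ℝ := (R.symm.trans (OrderIso.addRight s)).trans S.symm with hR₂
  have hR₂x : ∀ x, R₂ x = S.symm (R.symm x + s) := fun x => rfl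
  have hR₂p : Per R₂ := (hR.symm.trans (ExB_per_shift s)).trans hS.symm
  set M : ℝ := max MQ (MS * MR) with hM
  have hM1 : 1 ≤ M := hMQ1.trans (le_max_left _ _)
  have hBQ : BL M Q := BL.mono Q.monotone hMQ (le_max_left _ _)
  have hBR₂ : BL M R₂ := by
    have h1 : BL MR (fun x => R.symm x + s) := by
      have h2 := BL.add (BL.symm hMR) 0 s
      simpa only [add_zero] using h2
    have h3 : BL (MS * MR) (fun x => S.symm (R.symm x + s)) :=
      BL.comp (f := S.symm) (g := fun x => R.symm x + s) (by linarith) (by linarith)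
        (fun x y hxy => by
          have h4 := R.symm.monotone hxy
          show R.symm x + s ≤ R.symm y + s
          linarith) (BL.symm hMS) h1
    exact BL.mono R₂.monotone h3 (le_max_right _ _)
  have hRα : R.symm α = E := OrderIso.symm_apply_apply _ _
  have e2 : R₂ α = Y := by rw [hR₂x, hRα]
  set c' : ℝ := Q.symm (v + m₁) with hc'
  set c : ℝ := R (v + m₂) with hc
  have e3 : Q c' = v + m₁ := OrderIso.apply_symm_apply _ _
  have e4 : R₂ c = S.symm (v + m₂ + s) := by rw [hR₂x, hc, OrderIso.symm_apply_apply]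
  have h5 : z < R₂ c := by rwa [e4, OrderIso.lt_symm_apply]
  have h6 : R₂ c < Y := by
    rw [e4, hYd]
    exact S.symm.strictMono (by linarith)
  have h7 : c' < α := by rwa [hc', OrderIso.symm_apply_lt]
  have h8 : c < α := R.strictMono hvE
  obtain ⟨δ, hδ, hδF⟩ := exists_dist (z := z) (insert v F) (by
    intro y hy m hm
    rcases Finset.mem_insert.mp hy with rfl | hy
    · refine hvz (-m) ?_
      push_cast
      linarith
    · exact hzF y (Finset.mem_insert_of_mem hy) m hm)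
  obtain ⟨d, hd, hd1, hdl⟩ := ExB_min
    [υ - z, z + 1 - υ, X - z, z + 1 - X, Y - z, z + 1 - Y, v + m₁ - z, z + 1 - (v + m₁), R₂ c - z,
      z + 1 - R₂ c, α - c', α - c, δ] (by
    intro x hx
    simp only [List.mem_cons, List.not_mem_nil, or_false] at hx
    rcases hx with h | h | h | h | h | h | h | h | h | h | h | h | h <;> rw [h] <;> linarith)
  have d1 : d ≤ υ - z := hdl _ (by simp)
  have d2 : d ≤ z + 1 - υ := hdl _ (by simp)
  have d3 : d ≤ X - z := hdl _ (by simp)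
  have d4 : d ≤ z + 1 - X := hdl _ (by simp)
  have d5 : d ≤ Y - z := hdl _ (by simp)
  have d6 : d ≤ z + 1 - Y := hdl _ (by simp)
  have d7 : d ≤ v + m₁ - z := hdl _ (by simp)
  have d8 : d ≤ z + 1 - (v + m₁) := hdl _ (by simp)
  have d9 : d ≤ R₂ c - z := hdl _ (by simp)
  have d10 : d ≤ z + 1 - R₂ c := hdl _ (by simp)
  have d11 : d ≤ α - c' := hdl _ (by simp)
  have d12 : d ≤ α - c := hdl _ (by simp)
  have d13 : d ≤ δ := hdl _ (by simp)
  clear hdl
  set μ : ℝ := d / (8 * M) with hμd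
  have hμ : 0 < μ := by positivity
  have hμ8 : μ ≤ d / 8 := by
    rw [hμd]
    exact div_le_div_of_nonneg_left hd.le (by norm_num) (by linarith)
  have hμ1 : μ < 1 / 4 := by linarith
  have hμd' : μ < d := by linarith
  obtain ⟨β, hβ, _, hβ1, hβ2, _⟩ := exists_stair' (ψ := z) (ζ := α) (υ := υ) hμ hμ1 (by linarith) (by linarith)
  -- the letter `b`
  set b : ℝ ≃o ℝ := β.trans (OrderIso.addRight (-(p : ℝ))) with hbd
  have hb : ∀ x, b x = β x - p := fun x => (sub_eq_add_neg _ _).symm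
  have hbp : Per b := hβ.trans (ExB_per_shift _)
  obtain ⟨ρ, hρ, hρr⟩ := ExB_rho (z := z) (α := α) (υ := υ) hμ hμ1 hυ (by linarith) (by linarith) hβ hb hβ1 hβ2
  have hρF : ∀ x ∈ insert v F, ∀ m : ℤ, ρ ≠ x + m := by
    intro x hx m hm
    have h9 := hδF x hx (m - p)
    have h10 : |z - (x + ((m - p : ℤ) : ℝ))| < μ := by
      rw [abs_lt]
      push_cast
      constructor
      · linarith [hρ.2]
      · linarith [hρ.1]
    linarith
  obtain ⟨r₁, a₁, hr1, hr2, hr3, hr4, hr5, hr6, hr7⟩ := stair_two' (t := c') hβ hβ1 hβ2 hQ hM1 hBQ hd hd1 hμ le_rfl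
    (by linarith) (by linarith) (by rw [← hX]; linarith) (by rw [← hX]; linarith) (by rw [e3]; linarith)
    (by rw [e3]; linarith) (by linarith)
  obtain ⟨r₂, a₂, hs1, hs2, hs3, hs4, hs5, hs6, hs7⟩ := stair_two' (t := c) hβ hβ1 hβ2 hR₂p hM1 hBR₂ hd hd1 hμ le_rfl
    (by linarith) (by linarith) (by rw [e2]; linarith) (by rw [e2]; linarith) (by linarith)
    (by linarith) (by linarith)
  obtain ⟨h, hh, hhc, hconj, ε, hε, hε1, hε2⟩ := conj_germ (R₂.trans β) (Q.trans β) (hR₂p.trans hβ) (hQ.trans hβ)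
    (a := r₂) (b := a₂) (a' := r₁) (b' := a₁) (hs1.trans hs2) hs3 (hr1.trans hr2) hr3 hs4 hs5 hr4 hr5 hs6 hs7 hr6 hr7
    (c := c) (c' := c') ⟨hs1, hs2⟩ ⟨hr1, hr2⟩
    ((R.symm.trans Q.symm).trans (OrderIso.addRight ((m₁ : ℝ) - m₂))) (by
      show Q.symm (R.symm c) + ((m₁ : ℝ) - m₂) = c'
      rw [hc, OrderIso.symm_apply_apply, hc', hQ.symm.int, hQ.symm.int]
      ring)
  set a : ℝ ≃o ℝ := ((R.trans h).trans Q).trans (OrderIso.addRight ((m₂ : ℝ) - m₁)) with had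
  have ha : ∀ x, a x = Q (h (R x)) + ((m₂ : ℝ) - m₁) := fun x => rfl
  have hap : Per a := ((hR.trans hh).trans hQ).trans (ExB_per_shift _)
  refine ⟨a, b, v, ρ, hap, hbp, ExB_a hQ hR hh ha hhc hε hε1 hε2, hρr, ?_, ?_, ?_, ?_⟩
  · exact fun x => ExB_rel hQ hβ hh ha hb hconj x
  · exact fun x hx m => hvF x (Finset.mem_insert_of_mem hx) m
  · exact fun x hx m => hρF x (Finset.mem_insert_of_mem hx) m
  · intro m hm
    refine hρF v (Finset.mem_insert_self _ _) (-m) ?_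
    push_cast
    linarith

end Pool.Agent.H.MP_1611f1_gt.TR
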