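import Pool.Agent.H.MP_1611f1_gt.TR.Basic
import Pool.Agent.H.MP_1611f1_gt.G2.GenB

/-!
The transverse function along a curve which crosses one strip, and the movement of points near a
hyperbolic fixed point.
-/

namespace Pool.Agent.H.MP_1611f1_gt.TR

open Topology Set Filter

/-- the transverse function along a curve crossing the strip with the holonomy `A`; `y` is the lift
of the collapse map along the curve -/
noncomputable def GG (A : ℝ ≃o ℝ) (y t : ℝ) : ℝ := (A ^ (-⌊y⌋)) (Fe A (Int.fract y) t)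

/-- PROOF: `⌊y + m⌋ = ⌊y⌋ + m`, `Int.fract_add_intCast`, `zpow_add`, `RelIso.mul_apply`
(the multiplication of `ℝ ≃o ℝ` is composition, `(A * B) x = A (B x)`). -/
theorem GG_add (A : ℝ ≃o ℝ) (y t : ℝ) (m : ℤ) : GG A (y + m) t = (A ^ (-m)) (GG A y t) := by
  unfold GG
  rw [Int.floor_add_intCast, Int.fract_add_intCast, neg_add, add_comm (-⌊y⌋), zpow_add,
    RelIso.mul_apply]

/-- PROOF: order isomorphisms and `Fe_mono`. -/
theorem GG_mono (A : ℝ ≃o ℝ) (y : ℝ) : StrictMono (GG A y) := fun _ _ h =>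
  (A ^ (-⌊y⌋)).strictMono (Fe_mono A (Int.fract y) h)

theorem LevA_zpow_fix {A : ℝ ≃o ℝ} {c : ℝ} (h : A c = c) (k : ℤ) : (A ^ k) c = c := by
  have hs : A⁻¹ c = c := by
    have : A.symm c = c := by rw [OrderIso.symm_apply_eq]; exact h.symm
    exact this
  induction k using Int.induction_on with
  | zero => rfl
  | succ n ih => rw [zpow_add_one, RelIso.mul_apply, h, ih]
  | pred n ih => rw [zpow_sub_one, RelIso.mul_apply, hs, ih]

/-- PROOF: `Fe_fix`; `A ^ k` fixes `c` (induction on `k : ℤ`). -/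
theorem GG_fix {A : ℝ ≃o ℝ} {c : ℝ} (h : A c = c) (y : ℝ) : GG A y c = c := by
  unfold GG
  rw [Fe_fix A h, LevA_zpow_fix h]

/-- near an integer `m` the function does not depend on `y`. PROOF: if `m ≤ y` then `⌊y⌋ = m`, `Int.fract y ≤ 1/4`
(`Fe_small`); if `y < m` then `⌊y⌋ = m - 1`, `Int.fract y ≥ 3/4` (`Fe_large`), `A ^ (-(m-1)) (A.symm t) = A ^ (-m) t`. -/
theorem GG_near (A : ℝ ≃o ℝ) (m : ℤ) {y : ℝ} (hy : |y - m| ≤ 1 / 4) (t : ℝ) :
    GG A y t = (A ^ (-m)) t := by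
  rw [abs_le] at hy
  rcases le_or_gt 0 (y - m) with h | h
  · have h1 : ⌊y⌋ = m := by
      rw [Int.floor_eq_iff]
      constructor <;> linarith [hy.2]
    have h2 : Int.fract y = y - m := by rw [Int.fract, h1]
    unfold GG
    rw [h1, Fe_small A (by rw [h2]; exact hy.2)]
  · have h1 : ⌊y⌋ = m - 1 := by
      rw [Int.floor_eq_iff]
      push_cast
      constructor <;> linarith [hy.1]
    have h2 : Int.fract y = y - m + 1 := by rw [Int.fract, h1]; push_cast; ring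
    unfold GG
    rw [h1, Fe_large A (by rw [h2]; linarith [hy.1])]
    have h3 : A ^ (-(m - 1)) = A ^ (-m) * A := by
      rw [neg_sub, sub_eq_neg_add, zpow_add_one]
    rw [h3, RelIso.mul_apply, OrderIso.apply_symm_apply]

/-- PROOF: as `G2.MM_cont` (file G2/GenA.lean): near points with `|y - ⌊y⌋| < 1/4` use `GG_near`; at the other points
`y` is in the open interval `(⌊y⌋, ⌊y⌋ + 1)`, where `⌊y⌋` is locally constant and `Fe_cont` applies. -/
theorem GG_cont (A : ℝ ≃o ℝ) : Continuous fun q : ℝ × ℝ => GG A q.1 q.2 := by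
  rw [continuous_iff_continuousAt]
  rintro ⟨y, t⟩
  by_cases hy : |y - ⌊y⌋| < 1 / 4
  · have h1 : Continuous fun z : ℝ × ℝ => |z.1 - ⌊y⌋| := by fun_prop
    have h2 : ∀ᶠ z : ℝ × ℝ in 𝓝 (y, t), |z.1 - ⌊y⌋| < 1 / 4 :=
      (h1.tendsto (y, t)).eventually (gt_mem_nhds hy)
    have h3 : ContinuousAt (fun z : ℝ × ℝ => (A ^ (-⌊y⌋)) z.2) (y, t) :=
      ((A ^ (-⌊y⌋)).continuous.comp continuous_snd).continuousAt
    refine h3.congr ?_
    filter_upwards [h2] with z hz
    exact (GG_near A ⌊y⌋ hz.le z.2).symm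
  · have h0 := Int.floor_le y
    have h1 := Int.lt_floor_add_one y
    rw [abs_of_nonneg (by linarith)] at hy
    push Not at hy
    have hI : ∀ᶠ z : ℝ × ℝ in 𝓝 (y, t), z.1 ∈ Ioo (⌊y⌋ : ℝ) (⌊y⌋ + 1) :=
      (continuous_fst.tendsto (y, t)).eventually (Ioo_mem_nhds (by linarith) h1)
    have h3 : ContinuousAt (fun z : ℝ × ℝ => (A ^ (-⌊y⌋)) (Fe A (z.1 - ⌊y⌋) z.2)) (y, t) :=
      ((A ^ (-⌊y⌋)).continuous.comp ((Fe_cont A).comp
        ((continuous_fst.sub continuous_const).prodMk continuous_snd))).continuousAt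
    refine h3.congr ?_
    filter_upwards [hI] with z hz
    have h4 : ⌊z.1⌋ = ⌊y⌋ := by
      rw [Int.floor_eq_iff]
      exact ⟨hz.1.le, hz.2⟩
    unfold GG
    rw [Int.fract, h4]

/-- iterates of an increasing map which moves a point up -/
theorem LevA_pow_up (B : ℝ ≃o ℝ) {z : ℝ} (h : z < B z) {n : ℕ} (hn : 0 < n) : z < (B ^ n) z := by
  induction n with
  | zero => omega
  | succ n ih =>
    rcases Nat.eq_zero_or_pos n with h0 | h0
    · subst h0
      simpa using h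
    · have h1 := ih h0
      rw [pow_succ', RelIso.mul_apply]
      exact h.trans (B.strictMono h1)

theorem LevA_pow_down (B : ℝ ≃o ℝ) {z : ℝ} (h : B z < z) {n : ℕ} (hn : 0 < n) : (B ^ n) z < z := by
  induction n with
  | zero => omega
  | succ n ih =>
    rcases Nat.eq_zero_or_pos n with h0 | h0
    · subst h0
      simpa using h
    · have h1 := ih h0
      rw [pow_succ', RelIso.mul_apply]
      exact (B.strictMono h1).trans h

theorem LevA_inv_down (B : ℝ ≃o ℝ) {z : ℝ} (h : z < B z) : B⁻¹ z < z := by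
  have h1 : B.symm z < B.symm (B z) := B.symm.strictMono h
  rw [OrderIso.symm_apply_apply] at h1
  exact h1

theorem LevA_inv_up (B : ℝ ≃o ℝ) {z : ℝ} (h : B z < z) : z < B⁻¹ z := by
  have h1 : B.symm (B z) < B.symm z := B.symm.strictMono h
  rw [OrderIso.symm_apply_apply] at h1
  exact h1

/-- the signs of the movement under integer powers -/
theorem LevA_zpow_up (B : ℝ ≃o ℝ) {z : ℝ} (h : z < B z) {m : ℤ} (hm : m ≠ 0) :
    0 < (m : ℝ) * ((B ^ m) z - z) := by
  rcases lt_or_gt_of_ne hm with h0 | h0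
  · obtain ⟨n, rfl⟩ : ∃ n : ℕ, m = -(n : ℤ) := ⟨m.natAbs, by omega⟩
    have hn : 0 < n := by omega
    have h1 := LevA_pow_down B⁻¹ (LevA_inv_down B h) hn
    rw [zpow_neg, zpow_natCast, ← inv_pow]
    have h2 : (((-(n : ℤ) : ℤ)) : ℝ) < 0 := by exact_mod_cast h0
    exact mul_pos_of_neg_of_neg h2 (by linarith)
  · obtain ⟨n, rfl⟩ : ∃ n : ℕ, m = (n : ℤ) := ⟨m.natAbs, by omega⟩
    have hn : 0 < n := by omega
    have h1 := LevA_pow_up B h hn
    rw [zpow_natCast]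
    have h2 : 0 < (((n : ℤ)) : ℝ) := by exact_mod_cast h0
    exact mul_pos h2 (by linarith)

theorem LevA_zpow_down (B : ℝ ≃o ℝ) {z : ℝ} (h : B z < z) {m : ℤ} (hm : m ≠ 0) :
    (m : ℝ) * ((B ^ m) z - z) < 0 := by
  rcases lt_or_gt_of_ne hm with h0 | h0
  · obtain ⟨n, rfl⟩ : ∃ n : ℕ, m = -(n : ℤ) := ⟨m.natAbs, by omega⟩
    have hn : 0 < n := by omega
    have h1 := LevA_pow_up B⁻¹ (LevA_inv_up B h) hn
    rw [zpow_neg, zpow_natCast, ← inv_pow]
    have h2 : (((-(n : ℤ) : ℤ)) : ℝ) < 0 := by exact_mod_cast h0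
    exact mul_neg_of_neg_of_pos h2 (by linarith)
  · obtain ⟨n, rfl⟩ : ∃ n : ℕ, m = (n : ℤ) := ⟨m.natAbs, by omega⟩
    have hn : 0 < n := by omega
    have h1 := LevA_pow_down B h hn
    rw [zpow_natCast]
    have h2 : 0 < (((n : ℤ)) : ℝ) := by exact_mod_cast h0
    exact mul_neg_of_pos_of_neg h2 (by linarith)

theorem LevA_move_rep {B : ℝ ≃o ℝ} {c : ℝ} (h : Rep B c) {m : ℤ} (hm : m ≠ 0) {x : ℝ} (hx : x ≠ 0)
    {ε : ℝ} (hε : 0 < ε) : ∃ z, |z| < ε ∧ 0 < x * ((B ^ m) (z + c) - c - z) := by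
  obtain ⟨-, δ, hδ, h1, h2⟩ := h
  have hmin : 0 < min ε δ := lt_min hε hδ
  have hm' : (m : ℝ) ≠ 0 := by exact_mod_cast hm
  rcases lt_or_gt_of_ne (mul_ne_zero hx hm') with h0 | h0
  · refine ⟨-(min ε δ / 2), ?_, ?_⟩
    · rw [abs_neg, abs_of_pos (by linarith)]
      linarith [min_le_left ε δ]
    · have h3 := LevA_zpow_down B (h2 (-(min ε δ / 2) + c) ⟨by linarith [min_le_right ε δ], by linarith⟩) hm
      have h4 : 0 < (x * m) * ((m : ℝ) * ((B ^ m) (-(min ε δ / 2) + c) - (-(min ε δ / 2) + c))) :=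
        mul_pos_of_neg_of_neg h0 h3
      have h5 : 0 < (m : ℝ) ^ 2 * (x * ((B ^ m) (-(min ε δ / 2) + c) - c - -(min ε δ / 2))) := by
        nlinarith
      exact (pos_iff_pos_of_mul_pos h5).1 (by positivity)
  · refine ⟨min ε δ / 2, ?_, ?_⟩
    · rw [abs_of_pos (by linarith)]
      linarith [min_le_left ε δ]
    · have h3 := LevA_zpow_up B (h1 (min ε δ / 2 + c) ⟨by linarith, by linarith [min_le_right ε δ]⟩) hm
      have h4 : 0 < (x * m) * ((m : ℝ) * ((B ^ m) (min ε δ / 2 + c) - (min ε δ / 2 + c))) :=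
        mul_pos h0 h3
      have h5 : 0 < (m : ℝ) ^ 2 * (x * ((B ^ m) (min ε δ / 2 + c) - c - min ε δ / 2)) := by
        nlinarith
      exact (pos_iff_pos_of_mul_pos h5).1 (by positivity)

/-- MOVEMENT NEAR A HYPERBOLIC FIXED POINT. PROOF: `Hyp A c` means `Rep A c` or `Rep A.symm c`; the second case is the first
one for `A⁻¹ = A.symm` and `-m` (`(A⁻¹) ^ (-m) = A ^ m`). So let `A` be repelling at `c`: `z < A z` for `z` slightly above `c`,
`A z < z` for `z` slightly below `c`. For `z < A z` one gets `z < (A ^ m) z` for `m > 0` (induction, `A` is increasing) and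
`(A ^ m) z < z` for `m < 0`; similarly for `A z < z`. If `x > 0` and `m > 0`, or `x < 0` and `m < 0`, take `c + z` with
`z > 0` small; otherwise `z < 0`. -/
theorem exists_move {A : ℝ ≃o ℝ} {c : ℝ} (h : Hyp A c) {m : ℤ} (hm : m ≠ 0) {x : ℝ} (hx : x ≠ 0)
    {ε : ℝ} (hε : 0 < ε) : ∃ z, |z| < ε ∧ 0 < x * ((A ^ m) (z + c) - c - z) := by
  rcases h with h | h
  · exact LevA_move_rep h hm hx hε
  · have h1 : Rep A⁻¹ c := h
    obtain ⟨z, hz, h2⟩ := LevA_move_rep h1 (neg_ne_zero.2 hm) hx hε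
    refine ⟨z, hz, ?_⟩
    rwa [inv_zpow', neg_neg] at h2

end Pool.Agent.H.MP_1611f1_gt.TR
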