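import Pool.Agent.H.MP_1611f1_gt.TR.LevA
import Pool.Agent.H.MP_1611f1_gt.G2.GenH
import Pool.Agent.H.MP_1611f1_gt.LG.SgnA
import Pool.Agent.H.MP_1611f1_gt.LS.LvD

/-!
Level curves crossing one strip of a general arc system, and their neighbourhoods.
-/

namespace Pool.Agent.H.MP_1611f1_gt.TR

open Topology Set Filter
open Pool.Agent.H.MP_1611f1_gt.LS

section

variable {S : Type*} [TopologicalSpace S] {J K : Type*} {E : Surf S J} {len : J → ℕ}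
  {w : J → ℤ → Option (K × Bool)} {T : ℕ} {s : J → ℝ} {D : G2.Dat len w T s} {A : G2.Arcs E len w}
  {phi : S ≃ₜ S}

/-- a level curve `ν` at the time `c ∈ (i, i + 1)` (in units of `1 / T`), crossing only the strip `e`; the time
`c` is a hyperbolic fixed point of the holonomy of the strip -/
structure LvC (C : G2.Chain D A phi) where
  i : ℤ
  e : K
  c : ℝ
  c_mem : c ∈ Ioo (i : ℝ) (i + 1)
  hyp : Hyp (D.iso e) c
  ν : AddCircle (1 : ℝ) × ℝ → S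
  emb : IsOpenEmbedding ν
  out : ∀ z j w, ν z ≠ E.collar j w
  other : ∀ e', e' ≠ e → ∀ z, A.kap e' (C.ψ i (ν z)) = 0
  f : ℝ → ℝ
  f_cont : Continuous f
  deg : ℤ
  deg_ne : deg ≠ 0
  f_add : ∀ θ, f (θ + 1) = f θ + deg
  cross : ∀ (θ u : ℝ), A.kap e (C.ψ i (ν ((θ : AddCircle (1 : ℝ)), u))) =
    ((f θ : ℝ) : AddCircle (1 : ℝ))

variable {C : G2.Chain D A phi} {Y : Type*} [TopologicalSpace Y]

/-- the neighbourhood of the level curve -/
noncomputable def LvC.nbh (lc : LvC C) (Fl : G2.MTB E phi Y) (κ : ℝ) (z : Cyl) : Y :=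
  G2.PP Fl T (lc.ν (z.1, z.2.1), lc.c + κ * tim z.2.2)

/-- PROOF: `tim_mem`. -/
theorem lvc_tim {c κ : ℝ} (hκ : 0 < κ) (s : ℝ) : c + κ * tim s ∈ Ioo (c - κ) (c + κ) := by
  have h := tim_mem s
  constructor
  · nlinarith [h.1]
  · nlinarith [h.2]

/-- PROOF: copy `LG.lcw_emb` (file LG/LevB.lean); `G2.PP_inj`, `G2.PP_cont`, `G2.PP_open` with the interval
`(c - κ, c + κ)`, of length `2 κ ≤ T` (because `c - κ > i`, `c + κ < i + 1`, so `2 κ < 1 ≤ T`). -/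
theorem lvc_emb (hT : 2 ≤ T) (lc : LvC C) (Fl : G2.MTB E phi Y) {κ : ℝ} (hκ : 0 < κ)
    (h1 : (lc.i : ℝ) < lc.c - κ) (h2 : lc.c + κ < lc.i + 1) : IsOpenEmbedding (lc.nbh Fl κ) := by
  have hT0 : 0 < T := by omega
  have hT2 : (2 : ℝ) ≤ T := by exact_mod_cast hT
  have ht : ∀ s : ℝ, lc.c + κ * tim s ∈ Ioo (lc.c - κ) (lc.c + κ) := lvc_tim hκ
  let Gm : Cyl → S × ℝ := (Prod.map lc.ν (fun s : ℝ => lc.c + κ * tim s)) ∘
    (Homeomorph.prodAssoc (AddCircle (1 : ℝ)) ℝ ℝ).symm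
  have hG : lc.nbh Fl κ = G2.PP Fl T ∘ Gm := rfl
  have hGo : IsOpenMap Gm := by
    have h3 : IsOpenMap (fun s : ℝ => lc.c + κ * tim s) :=
      (Homeomorph.addLeft lc.c).isOpenMap.comp
        ((Homeomorph.mulLeft₀ κ hκ.ne').isOpenMap.comp tim_open)
    exact (lc.emb.isOpenMap.prodMap h3).comp (Homeomorph.isOpenMap _)
  have hGc : Continuous Gm := by
    have h3 : Continuous (fun s : ℝ => lc.c + κ * tim s) :=
      continuous_const.add (continuous_const.mul tim_cont)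
    exact (lc.emb.continuous.prodMap h3).comp (Homeomorph.continuous _)
  apply IsOpenEmbedding.of_continuous_injective_isOpenMap
  · rw [hG]
    exact (G2.PP_cont Fl hT0).comp hGc
  · intro z w h
    have hinj := G2.PP_inj Fl hT0 (univ : Set S) (c := lc.c - κ) (d := lc.c + κ) (by linarith)
    have h3 : ((lc.ν (z.1, z.2.1), lc.c + κ * tim z.2.2) : S × ℝ) =
      (lc.ν (w.1, w.2.1), lc.c + κ * tim w.2.2) :=
      hinj ⟨mem_univ _, ht _⟩ ⟨mem_univ _, ht _⟩ h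
    rw [Prod.mk.injEq] at h3
    have h4 := lc.emb.injective h3.1
    rw [Prod.mk.injEq] at h4
    have h5 : z.2.2 = w.2.2 :=
      tim_mono.injective (mul_left_cancel₀ hκ.ne' (add_left_cancel h3.2))
    exact Prod.ext h4.1 (Prod.ext h4.2 h5)
  · rw [hG]
    exact (G2.PP_open Fl hT0).comp hGo

/-- PROOF: `G2.PP_eq`: the times differ by `T m`; `tim` takes values in `(-7/8, 1/8)`, so the two `κ * tim` differ by less
than `κ`; contradiction to `hsep` unless `k = l`. -/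
theorem lvc_disj (hT : 2 ≤ T) (Fl : G2.MTB E phi Y) {Λ : Type*} (lc : Λ → LvC C) {κ : ℝ}
    (hκ : 0 < κ) (hsep : ∀ k l, k ≠ l → ∀ m : ℤ, κ ≤ |(lc k).c - (lc l).c + T * m|) :
    ∀ k l z w, (lc k).nbh Fl κ z = (lc l).nbh Fl κ w → k = l := by
  intro k l z w h
  by_contra hne
  obtain ⟨m, h1, -⟩ := (G2.PP_eq Fl (by omega) _ _ _ _).1 h
  have h2 := hsep k l hne m
  have a1 := tim_mem z.2.2
  have a2 := tim_mem w.2.2
  rw [mem_Ioo] at a1 a2
  have h3 : (lc k).c - (lc l).c + T * m = κ * (tim w.2.2 - tim z.2.2) := by linarith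
  rw [h3, abs_mul, abs_of_pos hκ] at h2
  have h4 : |tim w.2.2 - tim z.2.2| < 1 := by
    rw [abs_lt]
    constructor <;> linarith [a1.1, a1.2, a2.1, a2.2]
  nlinarith

/-- PROOF: as `haway` in the proof of `LG.bundle_detected_pos` (file LG/Main.lean): `Mt.tor`, `Mt.p_eq`,
`C.phi_zpow_col` (file G2/GenB.lean) and `lc.out`. `G2.PP (toMTB Mt) T (x, t) = Mt.p (x, t / T)` by `rfl`. -/
theorem lvc_away (lc : LvC C) {M : Type*} [TopologicalSpace M] {Tor : G.Ended M J}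
    (Mt : G.MTorus E phi Tor) (κ : ℝ) : ∀ z j w, lc.nbh (G2.toMTB Mt) κ z ≠ Tor.tor j w := by
  rintro z j ⟨θ, r, t⟩ h
  obtain ⟨t, rfl⟩ := QuotientAddGroup.mk_surjective t
  have h1 : Tor.tor j (θ, r, (t : AddCircle (1 : ℝ))) = Mt.p (E.collar j (θ, r), t) :=
    Mt.tor j θ r t
  have h2 : Mt.p (lc.ν (z.1, z.2.1), (lc.c + κ * tim z.2.2) / T) =
      Mt.p (E.collar j (θ, r), t) := h.trans h1
  obtain ⟨m, -, h3⟩ := (Mt.p_eq _ _ _ _).1 h2
  rw [C.phi_zpow_col] at h3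
  exact lc.out _ _ _ h3

/-- PROOF: copy `LG.lcw_cont`. -/
theorem lvc_cont (lc : LvC C) :
    Continuous (fun w : Cov => lc.ν ((w.1 : AddCircle (1 : ℝ)), w.2.1)) :=
  lc.emb.continuous.comp
    (((AddCircle.continuous_mk' (1 : ℝ)).comp continuous_fst).prodMk
      (continuous_fst.comp continuous_snd))

/-- the charts of type I near the annulus. PROOF: copy `LG.lcw_chart` (file LG/LevB.lean), with `G2.DD_cover`, `G2.exI`,
`G2.Out_open`, `G2.DD_open`; a type `some e1` with `e1 ≠ lc.e` is excluded by `lc.other`. -/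
theorem lvc_chart [Finite J] [Finite K] (hT : 2 ≤ T) (lc : LvC C) (Fl : G2.MTB E phi Y)
    {F : Foliation Y} (hF : F.charts = G2.AllCharts Fl C) {κ : ℝ} (hκ : 0 < κ)
    (h1 : (lc.i : ℝ) < lc.c - κ) (h2 : lc.c + κ < lc.i + 1) (z : Cov) :
    ∃ c ∈ F.charts, rc (lc.nbh Fl κ) z ∈ c.source ∧
      ∃ a b, G2.Adm D lc.i a b ∧ (b = none ∨ b = some lc.e) ∧
        C.ψ lc.i (lc.ν ((z.1 : AddCircle (1 : ℝ)), z.2.1)) ∈ G2.VV A b ∧
        ∀ᶠ w : Cov in 𝓝 z, lc.ν ((w.1 : AddCircle (1 : ℝ)), w.2.1) ∈ G2.DD C lc.i a b ∧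
          (c (rc (lc.nbh Fl κ) w)).2 =
            G2.Fs C lc.i a b (lc.ν ((w.1 : AddCircle (1 : ℝ)), w.2.1))
              (lc.c + κ * tim w.2.2) := by
  have hout : lc.ν ((z.1 : AddCircle (1 : ℝ)), z.2.1) ∈ G2.Out E := fun j w hw =>
    absurd hw (lc.out _ j w)
  obtain ⟨a, b, hab, hD⟩ := G2.DD_cover C lc.i (lc.ν ((z.1 : AddCircle (1 : ℝ)), z.2.1))
  have hb : b = none ∨ b = some lc.e := by
    rcases b with _ | e'
    · exact Or.inl rfl
    · right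
      by_cases ht : e' = lc.e
      · rw [ht]
      · have h3 : A.kap e' (C.ψ lc.i (lc.ν ((z.1 : AddCircle (1 : ℝ)), z.2.1))) ≠ 0 := hD.2
        exact absurd (lc.other e' ht _) h3
  obtain ⟨ξ, hξ⟩ := E.flat (lc.ν ((z.1 : AddCircle (1 : ℝ)), z.2.1))
  obtain ⟨c, hc1, hc2, hc3⟩ := G2.exI Fl D C hT lc.i a b hab ξ
  have htim : ∀ s : ℝ, lc.c + κ * tim s ∈ Ioo ((lc.i : ℝ) - 1) (lc.i + 1) := by
    intro s
    have h := lvc_tim (c := lc.c) hκ s
    exact ⟨by linarith [h.1], by linarith [h.2]⟩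
  have hU : IsOpen (ξ.source ∩ G2.Out E ∩ G2.DD C lc.i a b) :=
    (ξ.open_source.inter G2.Out_open).inter (G2.DD_open C lc.i a b)
  refine ⟨c, ?_, ?_, a, b, hab, hb, hD.2, ?_⟩
  · rw [hF]
    exact Or.inl hc1
  · rw [hc2]
    exact ⟨(lc.ν ((z.1 : AddCircle (1 : ℝ)), z.2.1), lc.c + κ * tim z.2.2),
      ⟨⟨⟨hξ, hout⟩, hD⟩, htim _⟩, rfl⟩
  · have hev := (lvc_cont lc).continuousAt.eventually
      (hU.mem_nhds (show lc.ν ((z.1 : AddCircle (1 : ℝ)), z.2.1) ∈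
        ξ.source ∩ G2.Out E ∩ G2.DD C lc.i a b from ⟨⟨hξ, hout⟩, hD⟩))
    filter_upwards [hev] with w hw
    exact ⟨hw.2, hc3 (lc.ν ((w.1 : AddCircle (1 : ℝ)), w.2.1), lc.c + κ * tim w.2.2)
      ⟨hw, htim _⟩⟩

end

end Pool.Agent.H.MP_1611f1_gt.TR
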