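import Pool.Agent.H.MP_1611f1_gt.TR.Basic

/-!
Ping-pong: a lower bound for the displacement of a word of strong letters.
-/

namespace Pool.Agent.H.MP_1611f1_gt.TR

open Topology Set Filter

/-- PING-PONG. PROOF: induction on `l` (generalising `y`, `m`, `x`): the letter `y` maps
`x ≥ pos y + κ + m` to `x' ≥ sg A y (pos y + κ) + m ≥ pos (bar y) + [pos (bar y) < pos y] + m - κ` (`Per.int`, monotonicity).
If `l = []` this is the claim (`getLast = y`). If `l = z :: l'`: by the chain condition
`pos (bar y) - κ ≥ pos z + κ`, so `x' ≥ pos z + κ + (m + [..])` and the induction hypothesis applies. -/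
theorem ping {K : Type*} {A : K → ℝ ≃o ℝ} (hA : ∀ e, Per (A e)) {pos : K × Bool → ℝ} {κ : ℝ}
    (y : K × Bool) (l : List (K × Bool))
    (hstep : ∀ z ∈ y :: l, (if pos (bar z) < pos z then pos (bar z) + 1 else pos (bar z)) - κ ≤
      sg A z (pos z + κ))
    (hch : (y :: l).IsChain (fun z z' => pos z' + 2 * κ ≤ pos (bar z))) (m : ℤ) {x : ℝ}
    (hx : pos y + κ + m ≤ x) :
    pos (bar ((y :: l).getLast (List.cons_ne_nil y l))) +
        ((y :: l).countP (fun z => decide (pos (bar z) < pos z)) : ℕ) + m - κ ≤
      hol A (y :: l) x := by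
  induction l generalizing y m x with
  | nil =>
    have h1 := hstep y (List.mem_cons_self)
    have h2 : sg A y (pos y + κ + m) ≤ sg A y x := (sg A y).monotone hx
    rw [(sg_per hA y).int] at h2
    rw [hol_cons, hol_nil, List.getLast_singleton, List.countP_cons, List.countP_nil]
    by_cases h3 : pos (bar y) < pos y
    · rw [if_pos h3] at h1
      simp only [h3, decide_true, if_true]
      push_cast
      linarith
    · rw [if_neg h3] at h1
      simp only [h3, decide_false]
      simp
      linarith
  | cons z l' ih =>
    have h1 := hstep y (List.mem_cons_self)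
    have h2 : sg A y (pos y + κ + m) ≤ sg A y x := (sg A y).monotone hx
    rw [(sg_per hA y).int] at h2
    obtain ⟨h4, h5⟩ := List.isChain_cons_cons.1 hch
    have hstep' : ∀ w ∈ z :: l', (if pos (bar w) < pos w then pos (bar w) + 1 else pos (bar w)) - κ ≤
        sg A w (pos w + κ) := fun w hw => hstep w (List.mem_cons_of_mem _ hw)
    rw [hol_cons, List.getLast_cons (List.cons_ne_nil z l'), List.countP_cons]
    by_cases h3 : pos (bar y) < pos y
    · rw [if_pos h3] at h1
      have h6 := ih z hstep' h5 (m + 1) (x := sg A y x) (by push_cast; linarith)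
      simp only [h3, decide_true, if_true]
      push_cast at h6 ⊢
      linarith
    · rw [if_neg h3] at h1
      have h6 := ih z hstep' h5 m (x := sg A y x) (by linarith)
      simp only [h3, decide_false]
      simp only [Bool.false_eq_true, if_false, add_zero]
      linarith

/-- COUNTING. PROOF: `bar` is a fixed point free involution of the set of letters of `l`, exchanging the letters
with `pos (bar z) < pos z` and those with `pos z < pos (bar z)`; by injectivity every letter is of exactly one of
the two kinds. (Lean: pass to `l.toFinset`, `Finset.card_bij` with `bar`,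
`Finset.card_filter_add_card_filter_not` or similar; `List.countP` = card of the filter because `l.Nodup`.) -/
theorem two_count {K : Type*} [DecidableEq K] {pos : K × Bool → ℝ} {l : List (K × Bool)}
    (hnd : l.Nodup) (hbar : ∀ z ∈ l, bar z ∈ l) (hinj : ∀ z ∈ l, pos (bar z) ≠ pos z) :
    2 * l.countP (fun z => decide (pos (bar z) < pos z)) = l.length := by
  classical
  have h1 : l.countP (fun z => decide (pos (bar z) < pos z)) =
      l.countP (fun z => ¬ (decide (pos (bar z) < pos z))) := by
    rw [List.countP_eq_length_filter, List.countP_eq_length_filter]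
    have hp : ((l.filter (fun z => decide (pos (bar z) < pos z))).map bar).Perm
        (l.filter (fun z => decide (¬ (decide (pos (bar z) < pos z)) = true))) := by
      rw [List.perm_ext_iff_of_nodup ((hnd.filter _).map (fun a b h => bar_inj h)) (hnd.filter _)]
      intro a
      rw [List.mem_map]
      constructor
      · rintro ⟨b, hb, rfl⟩
        rw [List.mem_filter] at hb ⊢
        have hb2 := of_decide_eq_true hb.2
        refine ⟨hbar b hb.1, ?_⟩
        simp only [decide_eq_true_eq, bar_bar, not_lt]
        exact hb2.le
      · intro ha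
        rw [List.mem_filter] at ha
        refine ⟨bar a, ?_, bar_bar a⟩
        rw [List.mem_filter]
        refine ⟨hbar a ha.1, ?_⟩
        have h2 : ¬ (pos (bar a) < pos a) := by
          simpa using ha.2
        simp only [decide_eq_true_eq, bar_bar]
        exact lt_of_le_of_ne (not_lt.1 h2) (Ne.symm (hinj a ha.1))
    rw [← hp.length_eq, List.length_map]
  have h2 := List.length_eq_countP_add_countP (fun z => decide (pos (bar z) < pos z)) (l := l)
  omega

/-- THE DISPLACEMENT. PROOF: `ping` with `m = 0`, `x = pos y + κ`; `two_count`; `0 < pos` for the last letter,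
`pos y ≤ η`. -/
theorem ping_disp {K : Type*} [DecidableEq K] {A : K → ℝ ≃o ℝ} (hA : ∀ e, Per (A e))
    {pos : K × Bool → ℝ} {κ η : ℝ} (y : K × Bool) (l : List (K × Bool))
    (hpos : ∀ z, 0 < pos z ∧ pos z ≤ η) (hinj : ∀ z ∈ y :: l, pos (bar z) ≠ pos z)
    (hstep : ∀ z ∈ y :: l, (if pos (bar z) < pos z then pos (bar z) + 1 else pos (bar z)) - κ ≤
      sg A z (pos z + κ))
    (hch : (y :: l).IsChain (fun z z' => pos z' + 2 * κ ≤ pos (bar z)))
    (hnd : (y :: l).Nodup) (hbar : ∀ z ∈ y :: l, bar z ∈ y :: l) {n : ℕ}
    (hn : (y :: l).length = 2 * n) :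
    (n : ℝ) - η - 2 * κ ≤ hol A (y :: l) (pos y + κ) - (pos y + κ) := by
  have h1 := ping hA y l hstep hch 0 (x := pos y + κ) (by simp)
  have h2 := two_count hnd hbar hinj
  rw [hn] at h2
  have h3 : (y :: l).countP (fun z => decide (pos (bar z) < pos z)) = n := by omega
  rw [h3] at h1
  have h4 := (hpos (bar ((y :: l).getLast (List.cons_ne_nil y l)))).1
  have h5 := (hpos y).2
  push_cast at h1
  linarith

end Pool.Agent.H.MP_1611f1_gt.TR
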