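import Pool.Agent.H.MP_1611f1_gt.TR.ExB
import Pool.Agent.H.MP_1611f1_gt.TR.Conv
import Pool.Agent.H.MP_1611f1_gt.TR.Ping

/-!
The one-dimensional theorem, in terms of lists.
-/

namespace Pool.Agent.H.MP_1611f1_gt.TR

open Topology Set Filter
open Pool.Agent.H.MP_1611f1_gt.PB (BL)

/-- the number of letters with two strips forbidden -/
theorem One_card {K : Type*} [Finite K] {j k : K} (hjk : j ≠ k) {l : List (K × Bool)}
    (hnd : l.Nodup) (hl : ∀ x, x ∈ l ↔ x.1 ≠ j ∧ x.1 ≠ k) :
    2 ≤ Nat.card K ∧ l.length = 2 * (Nat.card K - 2) := by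
  classical
  have _ := Fintype.ofFinite K
  have h1 : l.toFinset = (Finset.univ \ {j, k}) ×ˢ (Finset.univ : Finset Bool) := by
    ext x
    rw [List.mem_toFinset, hl, Finset.mem_product]
    simp only [Finset.mem_sdiff, Finset.mem_univ, true_and, and_true, Finset.mem_insert,
      Finset.mem_singleton, not_or]
  have h2 : ({j, k} : Finset K).card = 2 := Finset.card_pair hjk
  have h3 : ({j, k} : Finset K).card ≤ Fintype.card K := Finset.card_le_univ _
  rw [Nat.card_eq_fintype_card]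
  refine ⟨h2 ▸ h3, ?_⟩
  rw [← List.toFinset_card_of_nodup hnd, h1, Finset.card_product, Finset.card_univ_sdiff, h2,
    Finset.card_univ, Fintype.card_bool, mul_comm]

/-- a real between `-1` and `1` which is an integer is zero -/
theorem One_int {m : ℤ} (h : |(m : ℝ)| < 1) : m = 0 := by
  have h1 : ((|m| : ℤ) : ℝ) < 1 := by rwa [Int.cast_abs]
  have h2 : |m| < 1 := by exact_mod_cast h1
  exact Int.abs_lt_one_iff.1 h2

/-- STRENGTH. The letters other than those of `j` and `k`, of the right strength.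
`l = R ++ Q ++ S`. PROOF. `N = 2`: then `l` is empty (a letter `x` of `l` would give three strips `x.1, j.1, k.1`), all
`B e` = the identity, `v` arbitrary (there is no `e` with `e ≠ j.1, k.1`), `E = 0`, `hol = id`, and `s < N - 1 = 1`.
`N ≥ 3`: `l` is not empty, `l = y :: l'`, `l.length = 2 (N - 2)` (`l.toFinset` = the letters with `x.1 ≠ j.1, k.1`). Put
`η = min (1/4) ((N - 1 - s) / 4)`, `pos x = η (2 N - n x) / (2 N)` (in `(0, η]`, since `n x < 2 N`), `κ = η / (8 N)`: for
`n x < n y`: `pos y + 2 κ < pos y + η / (2 N) ≤ pos x`. `exists_letter` with `p = pos (e, true)`, `q = pos (e, false)`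
(`2 κ < |p - q| ≤ η ≤ 1/4`) gives `A e`, `v e`, `M e` for all `e`; `exists_conv` gives `F e τ`. `G τ e = F e τ`.
`G 1 e = A e` pointwise (`cl 1 = 1`), `G 0 e = id`. `ping_disp` for `A` and `l` with `n = N - 2`:
`hol A l E - E ≥ (N - 2) - η - 2 κ =: D` for `E = pos y + κ`, and `1 + D > s` because `η + 2 κ ≤ 2 η < N - 1 - s`.
`exists_strength`: `τ ∈ (0, 1]`. `B e = F e τ`. The points `v e` are pairwise not congruent: `|v e - pos (e, true)| < κ`, the
positions are in `(0, 1/4]` and have distances `> 2 κ`, so `v e ≠ v f + m` (for `m = 0` by the distances, for `m ≠ 0` by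
size). Replace them by the same `v e` for `e ≠ j.1, k.1`. -/
theorem exists_rest {K : Type*} [Finite K] (j k : K × Bool)
    (hjk : j.1 ≠ k.1) (Q R S : List (K × Bool)) (hnd : (R ++ Q ++ S).Nodup)
    (hl : ∀ x, x ∈ R ++ Q ++ S ↔ x.1 ≠ j.1 ∧ x.1 ≠ k.1) (n : K × Bool → ℕ)
    (hn : Function.Injective n) {N : ℕ} (hN : Nat.card K = N) (hn2 : ∀ x, n x < 2 * N)
    (hch : (R ++ Q ++ S).IsChain (fun y z => n (bar y) < n z)) {s : ℝ} (hs0 : 0 ≤ s)
    (hs : s < N - 1) :
    ∃ (B : K → ℝ ≃o ℝ) (v : K → ℝ) (E : ℝ), (∀ e, Per (B e)) ∧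
      (∀ e, ∃ M, 1 ≤ M ∧ BL M (B e)) ∧ (∀ e, e ≠ j.1 → e ≠ k.1 → Rep (B e) (v e)) ∧
      (∀ e f, e ≠ f → e ≠ j.1 → e ≠ k.1 → f ≠ j.1 → f ≠ k.1 → ∀ m : ℤ, v e ≠ v f + m) ∧
      |hol B (R ++ Q ++ S) E - E - s| < 1 := by
  classical
  obtain ⟨hN2, hlen⟩ := One_card hjk hnd hl
  rw [hN] at hN2 hlen
  rcases hL : R ++ Q ++ S with _ | ⟨y, l⟩
  · -- no letters
    rw [hL] at hlen
    have hN3 : N = 2 := by
      simp only [List.length_nil] at hlen
      omega
    have hno : ∀ e : K, e ≠ j.1 → e ≠ k.1 → False := by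
      intro e h1 h2
      have h3 := (hl (e, true)).2 ⟨h1, h2⟩
      rw [hL] at h3
      exact absurd h3 List.not_mem_nil
    refine ⟨fun _ => OrderIso.refl ℝ, fun _ => 0, 0, fun _ => Per.refl, fun _ => ⟨1, le_rfl, BL.id⟩,
      fun e h1 h2 => (hno e h1 h2).elim, fun e f _ h1 h2 => (hno e h1 h2).elim, ?_⟩
    rw [hol_nil, sub_self, zero_sub, abs_neg, abs_of_nonneg hs0]
    rw [hN3] at hs
    push_cast at hs
    linarith
  · have hN3 : 3 ≤ N := by
      rw [hL, List.length_cons] at hlen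
      omega
    have hNr : (3 : ℝ) ≤ N := by exact_mod_cast hN3
    have hNp : (0 : ℝ) < N := by linarith
    obtain ⟨η, hη, hη1, hη2⟩ : ∃ η : ℝ, 0 < η ∧ η ≤ 1 / 4 ∧ η ≤ (N - 1 - s) / 4 :=
      ⟨min (1 / 4) ((N - 1 - s) / 4), lt_min (by norm_num) (by linarith), min_le_left _ _,
        min_le_right _ _⟩
    obtain ⟨κ, hκ⟩ : ∃ κ : ℝ, κ = η / (8 * N) := ⟨_, rfl⟩
    have hκ0 : 0 < κ := by rw [hκ]; positivity
    have hκN : κ * (8 * N) = η := by rw [hκ]; field_simp
    have hκ1 : 24 * κ ≤ η := by nlinarith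
    obtain ⟨pos, hposd⟩ : ∃ pos : K × Bool → ℝ, ∀ x, pos x = 4 * κ * (2 * N - n x) := ⟨_, fun _ => rfl⟩
    have hposlt : ∀ x y, n x < n y → pos y + 4 * κ ≤ pos x := by
      intro x y hxy
      have h1 : (n x : ℝ) + 1 ≤ n y := by exact_mod_cast hxy
      rw [hposd, hposd]
      nlinarith
    have hpos : ∀ x, 0 < pos x ∧ pos x ≤ η := by
      intro x
      have h1 : (n x : ℝ) < 2 * N := by exact_mod_cast hn2 x
      have h2 : (0 : ℝ) ≤ n x := Nat.cast_nonneg _
      rw [hposd]
      constructor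
      · have : 0 < 2 * (N : ℝ) - n x := by linarith
        positivity
      · nlinarith
    have hsep : ∀ x y, x ≠ y → 2 * κ < |pos x - pos y| := by
      intro x y hxy
      rcases lt_or_gt_of_ne (fun h => hxy (hn h)) with h1 | h1
      · have h2 := hposlt x y h1
        rw [lt_abs]
        left
        linarith
      · have h2 := hposlt y x h1
        rw [lt_abs]
        right
        linarith
    have hle : ∀ x y, |pos x - pos y| ≤ 1 / 4 := by
      intro x y
      obtain ⟨h1, h2⟩ := hpos x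
      obtain ⟨h3, h4⟩ := hpos y
      rw [abs_le]
      constructor <;> linarith
    have hlet := fun e : K => exists_letter (p := pos (e, true)) (q := pos (e, false)) hκ0
      (hsep _ _ (fun h => by simpa using congrArg Prod.snd h)) (hle _ _)
    choose A v M hA hM1 hM hv hrep hs1 hs2 using hlet
    choose F hF hFc hFp hFB hFr using fun e : K => exists_conv (hA e) (hM1 e) (hM e)
    have hF1 : (fun e => F e 1) = A := by
      funext e
      ext x
      rw [hF e 1 x, cl_eq ⟨zero_le_one, le_rfl⟩]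
      ring
    have hF0 : ∀ e x, F e 0 x = x := by
      intro e x
      rw [hF e 0 x, cl_eq ⟨le_rfl, zero_le_one⟩]
      ring
    have hstep : ∀ z ∈ y :: l, (if pos (bar z) < pos z then pos (bar z) + 1 else pos (bar z)) - κ ≤
        sg A z (pos z + κ) := by
      rintro ⟨e, b⟩ _
      cases b
      · exact hs2 e
      · exact hs1 e
    have hinj : ∀ z ∈ y :: l, pos (bar z) ≠ pos z := by
      intro z _ h
      have h1 := hsep (bar z) z (bar_ne z)
      rw [h, sub_self, abs_zero] at h1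
      linarith
    have hchain : (y :: l).IsChain (fun z z' => pos z' + 2 * κ ≤ pos (bar z)) := by
      rw [hL] at hch
      refine hch.imp ?_
      intro a b hab
      have := hposlt _ _ hab
      linarith
    have hnd' : (y :: l).Nodup := hL ▸ hnd
    have hbar : ∀ z ∈ y :: l, bar z ∈ y :: l := by
      intro z hz
      rw [← hL] at hz ⊢
      exact (hl _).2 ((hl z).1 hz)
    have hlen' : (y :: l).length = 2 * (N - 2) := hL ▸ hlen
    have hping := ping_disp hA y l hpos hinj hstep hchain hnd' hbar hlen'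
    have hcast : ((N - 2 : ℕ) : ℝ) = (N : ℝ) - 2 := by
      rw [Nat.cast_sub (by omega)]
      norm_num
    rw [hcast, ← hF1] at hping
    obtain ⟨τ, hτ, hτs⟩ := exists_strength (F := fun τ e => F e τ) hFc (fun e x => hF0 e x) (y :: l)
      hping hs0 (by linarith)
    refine ⟨fun e => F e τ, v, pos y + κ, fun e => hFp e τ, fun e => ⟨M e, hM1 e, hFB e τ⟩,
      fun e _ _ => hFr e τ hτ (v e) (hrep e), ?_, hτs⟩
    intro e f hef _ _ _ _ m hm
    have h1 := abs_lt.1 (hv e)
    have h2 := abs_lt.1 (hv f)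
    have h3 := abs_le.1 (hle (e, true) (f, true))
    have h4 : m = 0 := by
      apply One_int
      rw [abs_lt]
      constructor <;> linarith
    rw [h4, Int.cast_zero, add_zero] at hm
    have h5 := hsep (e, true) (f, true) (fun h => hef (congrArg Prod.fst h))
    rw [lt_abs] at h5
    rcases h5 with h5 | h5 <;> linarith

/-- THE ONE-DIMENSIONAL THEOREM (`s ≥ 0`). PROOF. `exists_rest`; `exists_ab` for the holonomies
`Q' = hol B Q` etc. (`hol_per`, `hol_BL`; `hol_append`: `hol B (R ++ Q ++ S) E = S' (Q' (R' E))`) with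
`F` = the set of all `v e` (`Finset.univ.image v` for `Fintype.ofFinite K`): `a`, `b`, `v'`, `ρ`. Put
`A j.1 = a` or `a.symm` such that `sg A j = a`, `A k.1` such that `sg A k = b`, `A e = B e` otherwise; `v` is changed to
`v'` at `j.1`, `ρ` at `k.1`. `Hyp`: `Rep a v'` gives `Hyp a v'` and `Hyp a.symm v'`. The relation: `hol_cons`, `hol_append`,
`sg_bar`, and `hol A Q = hol B Q` etc. by `hol_congr`. -/
theorem exists_one {K : Type*} [Finite K] (j k : K × Bool)
    (hjk : j.1 ≠ k.1) (Q R S : List (K × Bool)) (hnd : (R ++ Q ++ S).Nodup)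
    (hl : ∀ x, x ∈ R ++ Q ++ S ↔ x.1 ≠ j.1 ∧ x.1 ≠ k.1) (n : K × Bool → ℕ)
    (hn : Function.Injective n) {N : ℕ} (hN : Nat.card K = N) (hn2 : ∀ x, n x < 2 * N)
    (hch : (R ++ Q ++ S).IsChain (fun y z => n (bar y) < n z)) {s : ℝ} (hs0 : 0 ≤ s)
    (hs : s < N - 1) :
    ∃ (A : K → ℝ ≃o ℝ) (v : K → ℝ), (∀ e, Per (A e)) ∧ (∀ e, Hyp (A e) (v e)) ∧
      (∀ e f, e ≠ f → ∀ m : ℤ, v e ≠ v f + m) ∧
      ∀ x, hol A (j :: k :: (Q ++ bar j :: (R ++ bar k :: S))) x = x + s := by
  classical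
  have _ := Fintype.ofFinite K
  obtain ⟨B, v, E, hBp, hBB, hBr, hBd, hE⟩ := exists_rest j k hjk Q R S hnd hl n hn hN hn2 hch hs0 hs
  rw [hol_append, hol_append] at hE
  obtain ⟨a, b, v', ρ, ha, hb, har, hbr, hrel, hv', hρ, hvρ⟩ := exists_ab (hol_per hBp Q)
    (hol_per hBp R) (hol_per hBp S) (hol_BL hBB Q) (hol_BL hBB R) (hol_BL hBB S) hE
    (Finset.univ.image v)
  have hvm : ∀ e, v e ∈ Finset.univ.image v := fun e =>
    Finset.mem_image_of_mem v (Finset.mem_univ e)
  have hkj : k.1 ≠ j.1 := fun h => hjk h.symm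
  have hAj : ∀ A : K → ℝ ≃o ℝ, A = (fun e => if e = j.1 then (if j.2 then a else a.symm) else
      if e = k.1 then (if k.2 then b else b.symm) else B e) → sg A j = a := by
    intro A hA
    unfold sg
    rw [hA]
    simp only [if_true]
    cases j.2
    · simp
    · simp
  have hAk : ∀ A : K → ℝ ≃o ℝ, A = (fun e => if e = j.1 then (if j.2 then a else a.symm) else
      if e = k.1 then (if k.2 then b else b.symm) else B e) → sg A k = b := by
    intro A hA
    unfold sg
    rw [hA]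
    simp only [if_neg hkj, if_true]
    cases k.2
    · simp
    · simp
  obtain ⟨A, hA⟩ : ∃ A : K → ℝ ≃o ℝ, A = (fun e => if e = j.1 then (if j.2 then a else a.symm) else
      if e = k.1 then (if k.2 then b else b.symm) else B e) := ⟨_, rfl⟩
  have h1 := hAj A hA
  have h2 := hAk A hA
  have hother : ∀ e, e ≠ j.1 → e ≠ k.1 → A e = B e := by
    intro e he1 he2
    rw [hA]
    simp only [if_neg he1, if_neg he2]
  have hmem : ∀ x, (x ∈ Q ∨ x ∈ R ∨ x ∈ S) → A x.1 = B x.1 := by
    intro x hx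
    have h3 : x ∈ R ++ Q ++ S := by
      rw [List.mem_append, List.mem_append]
      tauto
    exact hother _ ((hl x).1 h3).1 ((hl x).1 h3).2
  refine ⟨A, fun e => if e = j.1 then v' else if e = k.1 then ρ else v e, ?_, ?_, ?_, ?_⟩
  · intro e
    rw [hA]
    simp only
    split_ifs
    · exact ha
    · exact ha.symm
    · exact hb
    · exact hb.symm
    · exact hBp e
  · intro e
    rw [hA]
    simp only
    split_ifs with e1 e2 e3 e4
    · exact Or.inl har
    · exact Hyp.symm (Or.inl har)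
    · exact Or.inl hbr
    · exact Hyp.symm (Or.inl hbr)
    · exact Or.inl (hBr e e1 e3)
  · intro e f hef m
    simp only
    split_ifs with e1 e2 e3 e4 e5 e6 e7
    · exact absurd (e1.trans e2.symm) hef
    · exact hvρ m
    · exact hv' _ (hvm f) m
    · intro h
      apply hvρ (-m)
      rw [h]
      push_cast
      ring
    · exact absurd (e4.trans e6.symm) hef
    · exact hρ _ (hvm f) m
    · intro h
      apply hv' _ (hvm e) (-m)
      rw [h]
      push_cast
      ring
    · intro h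
      apply hρ _ (hvm e) (-m)
      rw [h]
      push_cast
      ring
    · exact hBd e f hef (by assumption) (by assumption) (by assumption) (by assumption) m
  · intro x
    rw [hol_cons, hol_cons, hol_append, hol_cons, hol_append, hol_cons, sg_bar, sg_bar, h1, h2,
      hol_congr (fun y hy => hmem y (Or.inl hy)), hol_congr (fun y hy => hmem y (Or.inr (Or.inl hy))),
      hol_congr (fun y hy => hmem y (Or.inr (Or.inr hy)))]
    exact hrel x

/-- conjugation with `x ↦ -x` -/
def One_rf (A : ℝ ≃o ℝ) : ℝ ≃o ℝ where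
  toFun x := -A (-x)
  invFun x := -A.symm (-x)
  left_inv x := by simp
  right_inv x := by simp
  map_rel_iff' := by
    intro x y
    simp

theorem One_rf_apply (A : ℝ ≃o ℝ) (x : ℝ) : One_rf A x = -A (-x) := rfl

theorem One_rf_symm (A : ℝ ≃o ℝ) : (One_rf A).symm = One_rf A.symm := rfl

theorem One_rf_per {A : ℝ ≃o ℝ} (hA : Per A) : Per (One_rf A) := by
  intro x
  rw [One_rf_apply, One_rf_apply]
  have h1 := hA (-(x + 1))
  have h2 : -(x + 1) + 1 = -x := by ring
  rw [h2] at h1
  linarith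

theorem One_rf_rep {A : ℝ ≃o ℝ} {v : ℝ} (h : Rep A v) : Rep (One_rf A) (-v) := by
  obtain ⟨h1, ε, hε, h2, h3⟩ := h
  refine ⟨?_, ε, hε, ?_, ?_⟩
  · rw [One_rf_apply, neg_neg, h1]
  · rintro x ⟨hx1, hx2⟩
    have h4 := h3 (-x) ⟨by linarith, by linarith⟩
    rw [One_rf_apply]
    linarith
  · rintro x ⟨hx1, hx2⟩
    have h4 := h2 (-x) ⟨by linarith, by linarith⟩
    rw [One_rf_apply]
    linarith

theorem One_rf_hyp {A : ℝ ≃o ℝ} {v : ℝ} (h : Hyp A v) : Hyp (One_rf A) (-v) := by
  rcases h with h | h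
  · exact Or.inl (One_rf_rep h)
  · right
    rw [One_rf_symm]
    exact One_rf_rep h

theorem One_rf_hol {K : Type*} (A : K → ℝ ≃o ℝ) (l : List (K × Bool)) (x : ℝ) :
    hol (fun e => One_rf (A e)) l x = -hol A l (-x) := by
  induction l generalizing x with
  | nil => rw [hol_nil, hol_nil, neg_neg]
  | cons y l ih =>
    have h1 : sg (fun e => One_rf (A e)) y x = -sg A y (-x) := by
      obtain ⟨e, b⟩ := y
      cases b
      · rfl
      · rfl
    rw [hol_cons, hol_cons, ih, h1, neg_neg]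

/-- THE ONE-DIMENSIONAL THEOREM. PROOF: for `s ≥ 0` this is `exists_one`. For `s < 0` apply it to `-s` and reflect:
`A' e x = - A e (-x)` (an order isomorphism: `(neg).trans`..., e.g. `OrderIso` built from the equivalence
`Equiv.neg`), `v' = - v`; the holonomy of every word is reflected (induction), `Per` and `Hyp` are preserved
(`Rep A v → Rep A' (-v)`). -/
theorem exists_one_sgn {K : Type*} [Finite K] (j k : K × Bool)
    (hjk : j.1 ≠ k.1) (Q R S : List (K × Bool)) (hnd : (R ++ Q ++ S).Nodup)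
    (hl : ∀ x, x ∈ R ++ Q ++ S ↔ x.1 ≠ j.1 ∧ x.1 ≠ k.1) (n : K × Bool → ℕ)
    (hn : Function.Injective n) {N : ℕ} (hN : Nat.card K = N) (hn2 : ∀ x, n x < 2 * N)
    (hch : (R ++ Q ++ S).IsChain (fun y z => n (bar y) < n z)) {s : ℝ}
    (hs : |s| < N - 1) :
    ∃ (A : K → ℝ ≃o ℝ) (v : K → ℝ), (∀ e, Per (A e)) ∧ (∀ e, Hyp (A e) (v e)) ∧
      (∀ e f, e ≠ f → ∀ m : ℤ, v e ≠ v f + m) ∧
      ∀ x, hol A (j :: k :: (Q ++ bar j :: (R ++ bar k :: S))) x = x + s := by
  rcases le_total 0 s with h0 | h0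
  · rw [abs_of_nonneg h0] at hs
    exact exists_one j k hjk Q R S hnd hl n hn hN hn2 hch h0 hs
  · rw [abs_of_nonpos h0] at hs
    obtain ⟨A, v, hA, hv, hd, hrel⟩ := exists_one j k hjk Q R S hnd hl n hn hN hn2 hch
      (neg_nonneg.2 h0) hs
    refine ⟨fun e => One_rf (A e), fun e => -v e, fun e => One_rf_per (hA e),
      fun e => One_rf_hyp (hv e), ?_, ?_⟩
    · intro e f hef m h
      apply hd e f hef (-m)
      push_cast
      linarith
    · intro x
      rw [One_rf_hol, hrel]
      ring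

end Pool.Agent.H.MP_1611f1_gt.TR
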