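import Pool.Agent.H.MP_1611f1_gt.TR.Basic

/-!
Convex combinations of circle homeomorphisms, depending on a point of a space; cut-off functions.
-/

namespace Pool.Agent.H.MP_1611f1_gt.TR

open Topology Set Filter

theorem Psi_int {f : ℝ → ℝ} (h1 : ∀ t, f (t + 1) = f t + 1) (x : ℝ) (m : ℤ) :
    f (x + m) = f x + m := by
  induction m using Int.induction_on with
  | zero => simp
  | succ n ih =>
    have h2 : x + (((n : ℤ) + 1 : ℤ) : ℝ) = x + ((n : ℤ) : ℝ) + 1 := by push_cast; ring
    rw [h2, h1, ih]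
    push_cast; ring
  | pred n ih =>
    have h2 : x + ((-(n : ℤ) : ℤ) : ℝ) = x + ((-(n : ℤ) - 1 : ℤ) : ℝ) + 1 := by push_cast; ring
    rw [h2, h1] at ih
    push_cast at ih ⊢
    linarith

theorem Psi_surj {f : ℝ → ℝ} (hf : Continuous f) (h1 : ∀ t, f (t + 1) = f t + 1) :
    Function.Surjective f := by
  intro y
  obtain ⟨m, hm⟩ : ∃ m : ℤ, m = ⌊y - f 0⌋ := ⟨_, rfl⟩
  have h2 := Int.floor_le (y - f 0)
  have h3 := Int.lt_floor_add_one (y - f 0)
  rw [← hm] at h2 h3
  have h4 := Psi_int h1 0 m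
  have h5 := Psi_int h1 0 (m + 1)
  rw [zero_add] at h4 h5
  push_cast at h5
  have h6 : y ∈ Icc (f (m : ℝ)) (f ((m : ℝ) + 1)) := ⟨by rw [h4]; linarith, by rw [h5]; linarith⟩
  obtain ⟨t, -, ht⟩ := intermediate_value_Icc (by linarith : (m : ℝ) ≤ (m : ℝ) + 1)
    hf.continuousOn h6
  exact ⟨t, ht⟩

/-- the weights -/
noncomputable def Psi_p {S K : Type*} [Fintype K] [DecidableEq K] (l : K → S → ℝ)
    (A : Finset K) (x : S) : ℝ := (∏ a ∈ A, l a x) * ∏ a ∈ Finset.univ \ A, (1 - l a x)

theorem Psi_nonneg {S K : Type*} [Fintype K] [DecidableEq K] {l : K → S → ℝ}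
    (h01 : ∀ a x, l a x ∈ Icc (0 : ℝ) 1) (A : Finset K) (x : S) : 0 ≤ Psi_p l A x :=
  mul_nonneg (Finset.prod_nonneg fun a _ => (h01 a x).1)
    (Finset.prod_nonneg fun a _ => sub_nonneg.2 (h01 a x).2)

theorem Psi_sum {S K : Type*} [Fintype K] [DecidableEq K] (l : K → S → ℝ) (x : S) :
    ∑ A : Finset K, Psi_p l A x = 1 := by
  have h := Finset.prod_add (fun a => l a x) (fun a => 1 - l a x) (Finset.univ : Finset K)
  rw [Finset.powerset_univ] at h
  rw [show ∑ A : Finset K, Psi_p l A x = ∑ A : Finset K, (∏ a ∈ A, l a x) *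
    ∏ a ∈ Finset.univ \ A, (1 - l a x) from rfl, ← h]
  refine Finset.prod_eq_one fun a _ => ?_
  ring

theorem Psi_cont {S K : Type*} [TopologicalSpace S] [Fintype K] [DecidableEq K] {l : K → S → ℝ}
    (hc : ∀ a, Continuous (l a)) (A : Finset K) : Continuous (Psi_p l A) := by
  unfold Psi_p
  exact (continuous_finsetProd _ fun a _ => hc a).mul
    (continuous_finsetProd _ fun a _ => continuous_const.sub (hc a))

theorem Psi_ne {S K : Type*} [Fintype K] [DecidableEq K] {l : K → S → ℝ}
    (h01 : ∀ a x, l a x ∈ Icc (0 : ℝ) 1) {A : Finset K} {x : S} (h : Psi_p l A x ≠ 0) :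
    (∀ a ∈ A, 0 < l a x) ∧ ∀ a, l a x = 1 → a ∈ A := by
  constructor
  · intro a ha
    have h1 := Finset.prod_ne_zero_iff.1 (left_ne_zero_of_mul h) a ha
    exact lt_of_le_of_ne (h01 a x).1 (Ne.symm h1)
  · intro a ha
    by_contra hn
    have h1 := Finset.prod_ne_zero_iff.1 (right_ne_zero_of_mul h) a
      (Finset.mem_sdiff.2 ⟨Finset.mem_univ a, hn⟩)
    exact h1 (by rw [ha, sub_self])

/-- CONVEX COMBINATIONS. PROOF: let `p A x = (∏ a ∈ A, l a x) * ∏ a ∈ univ \ A, (1 - l a x)` for `A : Finset K`;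
`p A x ≥ 0`, and the sum over all `A` is `∏ a, (l a x + (1 - l a x)) = 1` (`Finset.prod_add`,
`Finset.powerset_univ`). Put `Ψ x t = ∑ A, p A x * h A t`: continuous in `(x, t)`; strictly increasing in `t` (nonnegative weights
with sum `1`: some weight is positive; `Finset.sum_lt_sum`); `Ψ x (t + 1) = Ψ x t + 1`; so it is unbounded in both
directions and surjective (continuity in `t`), which gives the order isomorphism `ψ x`
(`StrictMono.orderIsoOfSurjective`; `|Ψ x t - t|` is bounded, or use `Ψ x (t + n) = Ψ x t + n` for `n : ℤ` and the intermediate value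
theorem). The last claim: if `p A x ≠ 0` then `0 < l a x` for `a ∈ A` and `l a x ≠ 1` for `a ∉ A`; so all terms with `p A x ≠ 0` have
`h A t = y` and the sum is `y`. -/
theorem exists_psi {S : Type*} [TopologicalSpace S] {K : Type*} [Fintype K] [DecidableEq K]
    (l : K → S → ℝ) (hc : ∀ a, Continuous (l a)) (h01 : ∀ a x, l a x ∈ Icc (0 : ℝ) 1)
    (h : Finset K → (ℝ ≃o ℝ)) (hP : ∀ A, Per (h A)) :
    ∃ ψ : S → (ℝ ≃o ℝ), Continuous (fun q : S × ℝ => ψ q.1 q.2) ∧ (∀ x, Per (ψ x)) ∧
      ∀ x t y, (∀ A : Finset K, (∀ a ∈ A, 0 < l a x) → (∀ a, l a x = 1 → a ∈ A) → h A t = y) →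
        ψ x t = y := by
  have hpos : ∀ x, ∃ A : Finset K, 0 < Psi_p l A x := by
    intro x
    by_contra hn
    have h1 : ∑ A : Finset K, Psi_p l A x ≤ 0 :=
      Finset.sum_nonpos fun A _ => not_lt.1 fun h2 => hn ⟨A, h2⟩
    rw [Psi_sum] at h1
    linarith
  have hmono : ∀ x : S, StrictMono fun t : ℝ => ∑ A : Finset K, Psi_p l A x * h A t := by
    intro x s t hst
    obtain ⟨A, hA⟩ := hpos x
    refine Finset.sum_lt_sum (fun B _ => ?_) ⟨A, Finset.mem_univ A, ?_⟩
    · exact mul_le_mul_of_nonneg_left ((h B).monotone hst.le) (Psi_nonneg h01 B x)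
    · exact mul_lt_mul_of_pos_left ((h A).strictMono hst) hA
  have hper : ∀ (x : S) (t : ℝ), ∑ A : Finset K, Psi_p l A x * h A (t + 1) =
      (∑ A : Finset K, Psi_p l A x * h A t) + 1 := by
    intro x t
    have h2 : ∑ A : Finset K, Psi_p l A x * h A (t + 1) =
        ∑ A : Finset K, (Psi_p l A x * h A t + Psi_p l A x) := by
      refine Finset.sum_congr rfl fun A _ => ?_
      rw [hP A t]
      ring
    rw [h2, Finset.sum_add_distrib, Psi_sum]
  have hcont : Continuous fun q : S × ℝ => ∑ A : Finset K, Psi_p l A q.1 * h A q.2 :=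
    continuous_finsetSum _ fun A _ =>
      ((Psi_cont hc A).comp continuous_fst).mul ((h A).continuous.comp continuous_snd)
  have hsurj : ∀ x : S, Function.Surjective
      fun t : ℝ => ∑ A : Finset K, Psi_p l A x * h A t := by
    intro x
    refine Psi_surj ?_ (hper x)
    exact hcont.comp (continuous_const.prodMk continuous_id)
  refine ⟨fun x => StrictMono.orderIsoOfSurjective _ (hmono x) (hsurj x), hcont, hper, ?_⟩
  intro x t y hy
  change ∑ A : Finset K, Psi_p l A x * h A t = y
  have h1 : ∀ A ∈ (Finset.univ : Finset (Finset K)),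
      Psi_p l A x * h A t = Psi_p l A x * y := by
    intro A _
    by_cases hA : Psi_p l A x = 0
    · rw [hA, zero_mul, zero_mul]
    · obtain ⟨h2, h3⟩ := Psi_ne h01 hA
      rw [hy A h2 h3]
  rw [Finset.sum_congr rfl h1, ← Finset.sum_mul, Psi_sum, one_mul]

/-- CUT-OFF FUNCTIONS. PROOF: `l x = max 0 (min 1 (3 - |u|))` if `x = ν (θ, u)` (the point `(θ, u)` is unique), and `l x = 0` if
`x` is not in the range of `ν`. It is continuous at the points of the open set `range ν` (there it is the composition of a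
continuous function with the inverse of the open embedding `ν`, `IsOpenEmbedding.continuousAt_iff` or
`hν.toOpenPartialHomeomorph`), and it vanishes on the complement of the set `ν '' (univ ×ˢ Icc (-3) 3)`, which is compact
(`AddCircle (1:ℝ)` is compact: `Fact (0 < 1)`), hence closed; the two open sets cover `S`. -/
theorem exists_cutoff {S : Type*} [TopologicalSpace S] [T2Space S]
    {ν : AddCircle (1 : ℝ) × ℝ → S} (hν : IsOpenEmbedding ν) :
    ∃ l : S → ℝ, Continuous l ∧ (∀ x, l x ∈ Icc (0 : ℝ) 1) ∧ (∀ z, |z.2| ≤ 2 → l (ν z) = 1) ∧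
      ∀ x, 0 < l x → x ∈ range ν := by
  obtain ⟨g, hg⟩ : ∃ g : AddCircle (1 : ℝ) × ℝ → ℝ, g = fun z => max 0 (min 1 (3 - |z.2|)) :=
    ⟨_, rfl⟩
  have hgc : Continuous g := by
    rw [hg]
    fun_prop
  have hgs : HasCompactSupport g := by
    refine HasCompactSupport.of_support_subset_isCompact
      (K := (univ : Set (AddCircle (1 : ℝ))) ×ˢ Icc (-3 : ℝ) 3)
      (isCompact_univ.prod isCompact_Icc) ?_
    intro z hz
    rw [Function.mem_support, hg] at hz
    refine ⟨mem_univ _, ?_⟩
    rw [mem_Icc, ← abs_le]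
    by_contra hn
    apply hz
    have h1 : 3 - |z.2| ≤ 0 := by linarith [not_le.1 hn]
    exact max_eq_left ((min_le_right _ _).trans h1)
  refine ⟨Function.extend ν g 0, ?_, ?_, ?_, ?_⟩
  · refine continuous_of_tsupport fun x hx => ?_
    obtain ⟨z, hz, rfl⟩ := hgs.tsupport_extend_zero_subset hν.continuous hx
    rw [← hν.continuousAt_iff, Function.extend_comp hν.injective]
    exact hgc.continuousAt
  · intro x
    by_cases hx : ∃ z, ν z = x
    · obtain ⟨z, rfl⟩ := hx
      rw [hν.injective.extend_apply, hg]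
      exact ⟨le_max_left _ _, max_le zero_le_one (min_le_left _ _)⟩
    · rw [Function.extend_apply' _ _ _ hx]
      exact ⟨le_refl _, zero_le_one⟩
  · intro z hz
    rw [hν.injective.extend_apply, hg]
    change max 0 (min 1 (3 - |z.2|)) = 1
    rw [min_eq_left (by linarith), max_eq_right zero_le_one]
  · intro x hx
    by_contra hn
    rw [Function.extend_apply' _ _ _ hn] at hx
    exact lt_irrefl _ hx

/-- the inverse of a continuous family of homeomorphisms of the line. PROOF: copy `PB.symm_jcont`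
(file PB/ZCont.lean), where the parameter space is `ℝ`; the proof works for every space `S`. -/
theorem symm_jcontS {S : Type*} [TopologicalSpace S] {F : S → (ℝ ≃o ℝ)}
    (hF : Continuous (fun q : S × ℝ => F q.1 q.2)) :
    Continuous (fun q : S × ℝ => (F q.1).symm q.2) := by
  rw [continuous_iff_continuousAt]
  intro q0
  have hc : ∀ x : ℝ, Continuous fun q : S × ℝ => F q.1 x := fun x =>
    hF.comp (continuous_fst.prodMk continuous_const)
  rw [ContinuousAt, tendsto_order]
  constructor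
  · intro a ha
    have h1 : F q0.1 a < q0.2 := by rwa [OrderIso.lt_symm_apply] at ha
    have h2 : ∀ᶠ q : S × ℝ in 𝓝 q0, F q.1 a < q.2 :=
      (hc a).continuousAt.eventually_lt continuous_snd.continuousAt h1
    filter_upwards [h2] with q hq
    rwa [OrderIso.lt_symm_apply]
  · intro b hb
    have hb' : (F q0.1).symm q0.2 < b := hb
    have h1 : q0.2 < F q0.1 b := by rwa [OrderIso.symm_apply_lt] at hb'
    have h2 : ∀ᶠ q : S × ℝ in 𝓝 q0, q.2 < F q.1 b :=
      continuous_snd.continuousAt.eventually_lt (hc b).continuousAt h1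
    filter_upwards [h2] with q hq
    rwa [OrderIso.symm_apply_lt]

end Pool.Agent.H.MP_1611f1_gt.TR
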