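import Pool.Agent.H.MP_1611f1_gt.TR.Basic
import Pool.Agent.H.MP_1611f1_gt.PB.Two

/-!
Staircases with bi-Lipschitz bounds, their repelling fixed points; strong letters.
-/

namespace Pool.Agent.H.MP_1611f1_gt.TR

open Topology Set Filter
open Pool.Agent.H.MP_1611f1_gt.PB (BL)

theorem Stair_le {μ u v : ℝ} (hμ : 0 < μ) (h : μ / 2 * u ≤ v) : u ≤ 2 / μ * v := by
  rw [div_mul_eq_mul_div, le_div_iff₀ hμ]
  linarith

/-- The staircase of `PB.exists_stair` (file PB/Two.lean), with bi-Lipschitz bounds.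
PROOF: copy the proof of `PB.exists_stair`; the map has slope `μ` on the flat parts and slope
`(1 - μ + 2 μ²) / (2 μ) ∈ [μ, 1/μ]` on the steep parts, so its difference quotients are between `μ` and `1/μ`
(for `BL` use `PB.plf_lip` or add up the pieces: it is enough to have the two bounds on each piece and to
chain them; another way: `β = eX.symm.trans eY` with `plf`'s, whose slopes `stX (n+1) - stX n ∈ [2 μ, 1]`,
`stY (n+1) - stY n ∈ [μ (1 - 2 μ), 1]` are bounded, `PB.plf_lip`, `BL.symm`, `BL.comp`, `BL.mono` give `BL M β`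
with another constant `M`; this is enough, only the existence of some `M ≥ 1` is stated). -/
theorem exists_stair' {ψ ζ υ μ : ℝ} (hμ : 0 < μ) (hμ1 : μ < 1 / 4) (h1 : ψ + μ < υ)
    (h2 : υ < ψ + 1 - μ) :
    ∃ β : ℝ ≃o ℝ, Per β ∧ β υ = ζ ∧
      (∀ x ∈ Icc (ψ + μ) (ψ + 1 - μ), β x = ζ + μ * (x - υ)) ∧
      (∀ x ∈ Icc (ψ - μ) (ψ + μ), ∀ y ∈ Icc (ψ - μ) (ψ + μ), x ≤ y →
        (1 - μ) / (2 * μ) * (y - x) ≤ β y - β x) ∧ ∃ M, 1 ≤ M ∧ BL M β := by
  have hX : ∀ n, PB.stX ψ μ n < PB.stX ψ μ (n + 1) := by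
    intro n
    rcases Int.even_or_odd n with ⟨k, hk⟩ | ⟨k, hk⟩
    · rw [PB.stX, PB.stX, if_pos (by omega), if_neg (by omega), show n / 2 = k by omega,
        show (n + 1) / 2 = k by omega]
      linarith
    · rw [PB.stX, PB.stX, if_neg (by omega), if_pos (by omega), show n / 2 = k by omega,
        show (n + 1) / 2 = k + 1 by omega]
      push_cast
      linarith
  have hY : ∀ n, PB.stY ψ μ ζ υ n < PB.stY ψ μ ζ υ (n + 1) := by
    intro n
    rcases Int.even_or_odd n with ⟨k, hk⟩ | ⟨k, hk⟩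
    · rw [PB.stY, PB.stY, if_pos (by omega), if_neg (by omega), show n / 2 = k by omega,
        show (n + 1) / 2 = k by omega]
      nlinarith [mul_pos hμ hμ]
    · rw [PB.stY, PB.stY, if_neg (by omega), if_pos (by omega), show n / 2 = k by omega,
        show (n + 1) / 2 = k + 1 by omega]
      push_cast
      nlinarith [mul_pos hμ (by linarith : (0 : ℝ) < 1 - 2 * μ)]
  have pX : ∀ n, PB.stX ψ μ (n + 2) = PB.stX ψ μ n + 1 := by
    intro n
    rw [PB.stX, PB.stX, show (n + 2) % 2 = n % 2 by omega, show (n + 2) / 2 = n / 2 + 1 by omega]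
    push_cast
    split_ifs <;> ring
  have pY : ∀ n, PB.stY ψ μ ζ υ (n + 2) = PB.stY ψ μ ζ υ n + 1 := by
    intro n
    rw [PB.stY, PB.stY, show (n + 2) % 2 = n % 2 by omega, show (n + 2) / 2 = n / 2 + 1 by omega]
    push_cast
    split_ifs <;> ring
  obtain ⟨eX, heX⟩ : ∃ e : ℝ ≃o ℝ, ∀ x, e x = plf (PB.stX ψ μ) x :=
    ⟨plIso (PB.stX ψ μ) hX 2 (by norm_num) 1 pX, fun x => rfl⟩
  obtain ⟨eY, heY⟩ : ∃ e : ℝ ≃o ℝ, ∀ x, e x = plf (PB.stY ψ μ ζ υ) x :=
    ⟨plIso (PB.stY ψ μ ζ υ) hY 2 (by norm_num) 1 pY, fun x => rfl⟩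
  have key : ∀ x y, eX y = x → (eX.symm.trans eY) x = plf (PB.stY ψ μ ζ υ) y := by
    intro x y h
    rw [OrderIso.trans_apply, ← h, OrderIso.symm_apply_apply, heY]
  have sX0 : PB.stX ψ μ 0 = ψ - μ := by simp [PB.stX]
  have sX1 : PB.stX ψ μ 1 = ψ + μ := by simp [PB.stX]
  have sX2 : PB.stX ψ μ 2 = ψ + 1 - μ := by
    have := pX 0
    rw [zero_add, sX0] at this
    linarith
  have sY0 : PB.stY ψ μ ζ υ 0 = ζ - 1 + μ * (ψ + 1 - μ - υ) := by simp [PB.stY]
  have sY1 : PB.stY ψ μ ζ υ 1 = ζ + μ * (ψ + μ - υ) := by simp [PB.stY]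
  have sY2 : PB.stY ψ μ ζ υ 2 = ζ + μ * (ψ + 1 - μ - υ) := by
    have := pY 0
    rw [zero_add, sY0] at this
    linarith
  have flat : ∀ x ∈ Icc (ψ + μ) (ψ + 1 - μ), (eX.symm.trans eY) x = ζ + μ * (x - υ) := by
    intro x hx
    have h0 : (0 : ℝ) < 1 - 2 * μ := by linarith
    have hu : (x - ψ - μ) / (1 - 2 * μ) ∈ Icc (0 : ℝ) 1 :=
      ⟨div_nonneg (by linarith [hx.1]) h0.le, (div_le_one h0).2 (by linarith [hx.2])⟩
    have h3 := plf_add (PB.stX ψ μ) 1 _ hu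
    have h4 := plf_add (PB.stY ψ μ ζ υ) 1 _ hu
    rw [show (1 : ℤ) + 1 = 2 by norm_num, sX1, sX2] at h3
    rw [show (1 : ℤ) + 1 = 2 by norm_num, sY1, sY2] at h4
    have hq : (x - ψ - μ) / (1 - 2 * μ) * (1 - 2 * μ) = x - ψ - μ := div_mul_cancel₀ _ h0.ne'
    have h5 : eX (((1 : ℤ) : ℝ) + (x - ψ - μ) / (1 - 2 * μ)) = x := by
      rw [heX, h3]
      linear_combination hq
    rw [key _ _ h5, h4]
    linear_combination μ * hq
  have hBL : ∃ M, 1 ≤ M ∧ BL M (eX.symm.trans eY) := by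
    have hXb : ∀ n, μ / 2 ≤ PB.stX ψ μ (n + 1) - PB.stX ψ μ n ∧
        PB.stX ψ μ (n + 1) - PB.stX ψ μ n ≤ 1 := by
      intro n
      rcases Int.even_or_odd n with ⟨k, hk⟩ | ⟨k, hk⟩
      · rw [PB.stX, PB.stX, if_neg (by omega), if_pos (by omega), show n / 2 = k by omega,
          show (n + 1) / 2 = k by omega]
        constructor <;> linarith
      · rw [PB.stX, PB.stX, if_pos (by omega), if_neg (by omega), show n / 2 = k by omega,
          show (n + 1) / 2 = k + 1 by omega]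
        push_cast
        constructor <;> linarith
    have hYb : ∀ n, μ / 2 ≤ PB.stY ψ μ ζ υ (n + 1) - PB.stY ψ μ ζ υ n ∧
        PB.stY ψ μ ζ υ (n + 1) - PB.stY ψ μ ζ υ n ≤ 1 := by
      intro n
      rcases Int.even_or_odd n with ⟨k, hk⟩ | ⟨k, hk⟩
      · rw [PB.stY, PB.stY, if_neg (by omega), if_pos (by omega), show n / 2 = k by omega,
          show (n + 1) / 2 = k by omega]
        constructor <;> nlinarith [mul_pos hμ hμ]
      · rw [PB.stY, PB.stY, if_pos (by omega), if_neg (by omega), show n / 2 = k by omega,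
          show (n + 1) / 2 = k + 1 by omega]
        push_cast
        constructor <;> nlinarith [mul_pos hμ (by linarith : (0 : ℝ) < 1 - 2 * μ), mul_pos hμ hμ]
    have hM : 1 ≤ 2 / μ := by rw [le_div_iff₀ hμ]; linarith
    have hBX : BL (2 / μ) eX := by
      intro x y hxy
      obtain ⟨a1, a2⟩ := PB.plf_lip (fun n => (hXb n).1) (fun n => (hXb n).2) hxy
      rw [heX, heX]
      exact ⟨Stair_le hμ a1, a2.trans (mul_le_mul_of_nonneg_right hM (by linarith))⟩
    have hBY : BL (2 / μ) eY := by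
      intro x y hxy
      obtain ⟨a1, a2⟩ := PB.plf_lip (fun n => (hYb n).1) (fun n => (hYb n).2) hxy
      rw [heY, heY]
      exact ⟨Stair_le hμ a1, a2.trans (mul_le_mul_of_nonneg_right hM (by linarith))⟩
    have hC : BL (2 / μ * (2 / μ)) (fun x => eY (eX.symm x)) :=
      PB.BL.comp (by linarith) (by linarith) eX.symm.monotone hBY hBX.symm
    exact ⟨2 / μ * (2 / μ), by nlinarith, hC⟩
  refine ⟨eX.symm.trans eY, ?_, ?_, flat, ?_, hBL⟩
  · intro x
    obtain ⟨y, hy⟩ := eX.surjective x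
    have h3 : eX (y + 2) = x + 1 := by
      have := plf_shift pX y
      push_cast at this
      rw [heX, this, ← heX, hy]
    rw [key _ _ h3, key _ _ hy]
    have := plf_shift pY y
    push_cast at this
    exact this
  · rw [flat υ ⟨h1.le, h2.le⟩]
    ring
  · have steep : ∀ x ∈ Icc (ψ - μ) (ψ + μ), (eX.symm.trans eY) x =
        ζ - 1 + μ * (ψ + 1 - μ - υ) + (1 - μ + 2 * μ ^ 2) * ((x - ψ + μ) / (2 * μ)) := by
      intro x hx
      have h0 : (0 : ℝ) < 2 * μ := by linarith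
      have hu : (x - ψ + μ) / (2 * μ) ∈ Icc (0 : ℝ) 1 :=
        ⟨div_nonneg (by linarith [hx.1]) h0.le, (div_le_one h0).2 (by linarith [hx.2])⟩
      have h3 := plf_add (PB.stX ψ μ) 0 _ hu
      have h4 := plf_add (PB.stY ψ μ ζ υ) 0 _ hu
      rw [zero_add, sX0, sX1] at h3
      rw [zero_add, sY0, sY1] at h4
      have h5 : eX (((0 : ℤ) : ℝ) + (x - ψ + μ) / (2 * μ)) = x := by
        rw [heX, h3]
        field_simp
        ring
      rw [key _ _ h5, h4]
      ring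
    intro x hx y hy hxy
    rw [steep x hx, steep y hy]
    have h0 : (0 : ℝ) < 2 * μ := by linarith
    have h6 : (1 - μ) / (2 * μ) * (y - x) = (1 - μ) * ((y - x) / (2 * μ)) := by ring
    have h7 : (y - ψ + μ) / (2 * μ) - (x - ψ + μ) / (2 * μ) = (y - x) / (2 * μ) := by ring
    have h8 : 0 ≤ (y - x) / (2 * μ) := div_nonneg (by linarith) h0.le
    have h9 : (1 - μ) * ((y - x) / (2 * μ)) ≤ (1 - μ + 2 * μ ^ 2) * ((y - x) / (2 * μ)) :=
      mul_le_mul_of_nonneg_right (by nlinarith [sq_nonneg μ]) h8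
    rw [h6]
    calc (1 - μ) * ((y - x) / (2 * μ)) ≤ (1 - μ + 2 * μ ^ 2) * ((y - x) / (2 * μ)) := h9
      _ = _ := by rw [← h7]; ring

/-- A staircase with a fixed point `ζ` in the flat part `(ψ, ψ + 1)` has a repelling fixed point near the
step `ψ`. PROOF: `β (ψ + μ) = ζ + μ (ψ + μ - ζ) > ψ + μ` (because `ζ > ψ + μ`, `μ < 1`) and
`β (ψ - μ) = β (ψ + 1 - μ) - 1 = ζ + μ (ψ + 1 - μ - ζ) - 1 < ψ - μ` (because `ζ < ψ + 1 - μ`); intermediate value
theorem: a fixed point `v` in `(ψ - μ, ψ + μ)`; in this interval `β x - x` is strictly increasing because the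
difference quotients of `β` are `≥ (1 - μ)/(2 μ) > 1` (`μ < 1/4`). -/
theorem stair_rep {ψ ζ μ : ℝ} {β : ℝ ≃o ℝ} (hμ : 0 < μ) (hμ1 : μ < 1 / 4) (h1 : ψ + μ < ζ)
    (h2 : ζ < ψ + 1 - μ) (hβ : Per β)
    (hβ1 : ∀ x ∈ Icc (ψ + μ) (ψ + 1 - μ), β x = ζ + μ * (x - ζ))
    (hβ2 : ∀ x ∈ Icc (ψ - μ) (ψ + μ), ∀ y ∈ Icc (ψ - μ) (ψ + μ), x ≤ y →
        (1 - μ) / (2 * μ) * (y - x) ≤ β y - β x) :
    ∃ v ∈ Ioo (ψ - μ) (ψ + μ), Rep β v := by
  have hc : Continuous fun x => β x - x := β.continuous.sub continuous_id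
  have a1 : β (ψ + μ) = ζ + μ * (ψ + μ - ζ) := hβ1 (ψ + μ) ⟨le_rfl, by linarith⟩
  have a2 : β (ψ + 1 - μ) = ζ + μ * (ψ + 1 - μ - ζ) := hβ1 (ψ + 1 - μ) ⟨by linarith, le_rfl⟩
  have a3 : β (ψ + 1 - μ) = β (ψ - μ) + 1 := by
    rw [← hβ]
    congr 1
    ring
  have b1 : (0 : ℝ) < β (ψ + μ) - (ψ + μ) := by
    rw [a1]
    nlinarith
  have b2 : β (ψ - μ) - (ψ - μ) < 0 := by
    have a4 : β (ψ - μ) = ζ + μ * (ψ + 1 - μ - ζ) - 1 := by linarith
    rw [a4]
    nlinarith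
  obtain ⟨v, hv, hv0⟩ := intermediate_value_Ioo (by linarith : ψ - μ ≤ ψ + μ) hc.continuousOn
    (show (0 : ℝ) ∈ Ioo (β (ψ - μ) - (ψ - μ)) (β (ψ + μ) - (ψ + μ)) from ⟨b2, b1⟩)
  have hv1 : β v = v := by
    have h3 : β v - v = 0 := hv0
    linarith
  have hs : (1 : ℝ) < (1 - μ) / (2 * μ) := by
    rw [lt_div_iff₀ (by linarith)]
    linarith
  refine ⟨v, hv, hv1, min (ψ + μ - v) (v - (ψ - μ)), lt_min (by linarith [hv.2])
    (by linarith [hv.1]), ?_, ?_⟩
  · intro x hx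
    have h3 : x < v + (ψ + μ - v) := hx.2.trans_le (by linarith [min_le_left (ψ + μ - v) (v - (ψ - μ))])
    have h4 := hβ2 v ⟨hv.1.le, hv.2.le⟩ x ⟨by linarith [hv.1, hx.1], by linarith⟩ hx.1.le
    have h5 : 1 * (x - v) < (1 - μ) / (2 * μ) * (x - v) :=
      mul_lt_mul_of_pos_right hs (by linarith [hx.1])
    linarith
  · intro x hx
    have h3 : v - (v - (ψ - μ)) < x :=
      lt_of_le_of_lt (by linarith [min_le_right (ψ + μ - v) (v - (ψ - μ))]) hx.1
    have h4 := hβ2 x ⟨by linarith, by linarith [hv.2, hx.2]⟩ v ⟨hv.1.le, hv.2.le⟩ hx.2.le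
    have h5 : 1 * (v - x) < (1 - μ) / (2 * μ) * (v - x) :=
      mul_lt_mul_of_pos_right hs (by linarith [hx.2])
    linarith

/-- STRONG LETTERS. `p`, `q` are the positions of the two feet, `|p - q| ≤ 1/4`, `2 κ < |p - q|`. There is `A` with a
repelling fixed point near `p`, which moves `p + κ` up almost to the next position of `q` (mod 1), and whose
inverse moves `q + κ` up almost to the next position of `p`.
PROOF: put `q' = q` if `p < q` and `q' = q + 1` if `q < p`; so `p + 2 κ < q' < p + 1 - 2 κ`. Take `μ = κ / 2` and the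
staircase `exists_stair'` with `ψ = p`, `ζ = υ = q'`; `v` from `stair_rep`.
`A (p + κ) = q' + μ (p + κ - q') ≥ q' - κ` (flat part, `|p + κ - q'| ≤ 1`). `A.symm (q + κ)`: if `p < q` then `q = q'` and
`A (p + 1 - μ) = q' + μ (p + 1 - μ - q') ≤ q' + μ ≤ q + κ`, so `A.symm (q + κ) ≥ p + 1 - μ ≥ p + 1 - κ`. If `q < p` then
`q' = q + 1`, `A (p - μ) = A (p + 1 - μ) - 1 ≤ q' + μ - 1 ≤ q + κ`, so `A.symm (q + κ) ≥ p - μ ≥ p - κ`. -/
theorem exists_letter {p q κ : ℝ} (hκ : 0 < κ) (h1 : 2 * κ < |p - q|) (h2 : |p - q| ≤ 1 / 4) :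
    ∃ (A : ℝ ≃o ℝ) (v M : ℝ), Per A ∧ 1 ≤ M ∧ BL M A ∧ |v - p| < κ ∧ Rep A v ∧
      (if q < p then q + 1 else q) - κ ≤ A (p + κ) ∧
      (if p < q then p + 1 else p) - κ ≤ A.symm (q + κ) := by
  rcases lt_trichotomy p q with hpq | hpq | hpq
  · have h3 : |p - q| = q - p := by rw [abs_sub_comm, abs_of_pos (by linarith)]
    rw [h3] at h1 h2
    obtain ⟨A, A1, A2, A3, A4, M, hM, A5⟩ := exists_stair' (ψ := p) (ζ := q) (υ := q) (μ := κ / 2)
      (by linarith) (by linarith) (by linarith) (by linarith)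
    obtain ⟨v, hv, hv1⟩ := stair_rep (ψ := p) (ζ := q) (μ := κ / 2) (β := A) (by linarith)
      (by linarith) (by linarith) (by linarith) A1 A3 A4
    refine ⟨A, v, M, A1, hM, A5, ?_, hv1, ?_, ?_⟩
    · rw [abs_lt]
      constructor
      · linarith [hv.1]
      · linarith [hv.2]
    · rw [if_neg (by linarith), A3 (p + κ) ⟨by linarith, by linarith⟩]
      nlinarith
    · rw [if_pos hpq, OrderIso.le_symm_apply, A3 (p + 1 - κ) ⟨by linarith, by linarith⟩]
      nlinarith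
  · exfalso
    rw [hpq, sub_self, abs_zero] at h1
    linarith
  · have h3 : |p - q| = p - q := abs_of_pos (by linarith)
    rw [h3] at h1 h2
    obtain ⟨A, A1, A2, A3, A4, M, hM, A5⟩ := exists_stair' (ψ := p) (ζ := q + 1) (υ := q + 1)
      (μ := κ / 2) (by linarith) (by linarith) (by linarith) (by linarith)
    obtain ⟨v, hv, hv1⟩ := stair_rep (ψ := p) (ζ := q + 1) (μ := κ / 2) (β := A) (by linarith)
      (by linarith) (by linarith) (by linarith) A1 A3 A4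
    refine ⟨A, v, M, A1, hM, A5, ?_, hv1, ?_, ?_⟩
    · rw [abs_lt]
      constructor
      · linarith [hv.1]
      · linarith [hv.2]
    · rw [if_pos hpq, A3 (p + κ) ⟨by linarith, by linarith⟩]
      nlinarith
    · rw [if_neg (by linarith), OrderIso.le_symm_apply]
      have h4 := A1 (p - κ)
      rw [A3 (p - κ + 1) ⟨by linarith, by linarith⟩] at h4
      nlinarith

end Pool.Agent.H.MP_1611f1_gt.TR
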